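import Pool.Agent.P.MP_aee195_lc.Fourier

set_option autoImplicit false

namespace Pool.Agent.P.MP_aee195_lc

open Filter Topology MeasureTheory
open scoped InnerProductSpace

variable {A : Type*} [Ring A] [StarRing A] [Algebra ℂ A]
  {H : Type*} [NormedAddCommGroup H] [InnerProductSpace ℂ H] [CompleteSpace H]

variable (H) in
/-- Countable amplification. -/
noncomputable def amp :
    (H →L[ℂ] H) →⋆ₐ[ℂ] (lp (fun _ : ℕ => H) 2 →L[ℂ] lp (fun _ : ℕ => H) 2) where
  toFun S := lp.mapCLM 2 (fun _ => S) (norm_nonneg S) fun _ => le_rfl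
  map_one' := by ext f i; rfl
  map_mul' S T := by ext f i; rfl
  map_zero' := by ext f i; rfl
  map_add' S T := by ext f i; rfl
  commutes' r := by ext f i; rfl
  map_star' S := by
    ext1 f
    refine ext_inner_left ℂ fun g => ?_
    rw [inner_star_right, lp.inner_eq_tsum, lp.inner_eq_tsum]
    congr 1; funext i
    exact inner_star_right S _ _

lemma amp_apply (S : H →L[ℂ] H) (f : lp (fun _ : ℕ => H) 2) (i : ℕ) :
    amp H S f i = S (f i) := rfl

lemma amp_single (S : H →L[ℂ] H) (i : ℕ) (a : H) :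
    amp H S (lp.single 2 i a) = lp.single (E := fun _ : ℕ => H) 2 i (S a) := by
  ext j
  rw [amp_apply]
  rcases eq_or_ne j i with rfl | h
  · simp only [lp.single_apply_self]
  · simp only [lp.single_apply_ne _ _ _ h, map_zero]

lemma inner_amp_single (S : H →L[ℂ] H) (a b : H) :
    ⟪(lp.single 2 0 a : lp (fun _ : ℕ => H) 2), amp H S (lp.single 2 0 b)⟫_ℂ =
      ⟪a, S b⟫_ℂ := by
  rw [lp.inner_single_left, amp_apply, lp.single_apply_self]

/-- The given representation. -/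
noncomputable def baseRep (M : VonNeumannAlgebra H) (ι : A →⋆ₐ[ℂ] (H →L[ℂ] H))
    (hinj : Function.Injective ι) (hM : Set.range ι = M) : Rep A H where
  ρ := ι
  inj := hinj
  bic := fun T hT => by
    have : T ∈ Set.centralizer (Set.centralizer (M : Set (H →L[ℂ] H))) := fun y hy =>
      hT y fun a => (hy _ (hM ▸ ⟨a, rfl⟩)).symm
    rwa [M.centralizer_centralizer, ← hM] at this

/-- The amplified representation. -/
noncomputable def Rep.ampl (R : Rep A H) : Rep A (lp (fun _ : ℕ => H) 2) where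
  ρ := (amp H).comp R.ρ
  inj := fun a b h => R.inj (by
    ext θ
    refine ext_inner_left ℂ fun v => ?_
    have h' : amp H (R.ρ a) = amp H (R.ρ b) := h
    rw [← inner_amp_single (R.ρ a), ← inner_amp_single (R.ρ b), h'])
  bic := fun T hT => by
    have key : ∀ (y : H →L[ℂ] H), (∀ a, y * R.ρ a = R.ρ a * y) → ∀ i j f,
        lp.single (E := fun _ : ℕ => H) 2 i (y (T f j)) = T (lp.single 2 i (y (f j))) :=
      fun y hy i j f => by
      have := hT (lp.singleContinuousLinearMap ℂ (fun _ : ℕ => H) 2 i ∘L y ∘L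
          lp.evalCLM ℂ (fun _ : ℕ => H) 2 j) fun a => by
        ext1 g
        change lp.single (E := fun _ : ℕ => H) 2 i (y (R.ρ a (g j))) =
          amp H (R.ρ a) (lp.single 2 i (y (g j)))
        rw [amp_single, ← mul_apply_eq_comp, hy, mul_apply_eq_comp]
      exact congrArg (fun S : _ →L[ℂ] _ => S f) this
    obtain ⟨a, ha⟩ := R.bic (lp.evalCLM ℂ (fun _ : ℕ => H) 2 0 ∘L T ∘L
      lp.singleContinuousLinearMap ℂ (fun _ : ℕ => H) 2 0) fun y hy => by
        ext θ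
        have := congrArg (fun g : lp (fun _ : ℕ => H) 2 => g 0) (key y hy 0 0 (lp.single 2 0 θ))
        simp only [lp.single_apply_self] at this
        exact this
    refine ⟨a, ?_⟩
    ext f j
    have := congrArg (fun g : lp (fun _ : ℕ => H) 2 => g 0)
      (key 1 (fun a => by rw [one_mul, mul_one]) 0 j f)
    simp only [lp.single_apply_self, one_apply_eq_self] at this
    change R.ρ a (f j) = _
    rw [ha, this]; rfl

namespace Rep

variable (R : Rep A H)

lemma ampl_ρ (a : A) : R.ampl.ρ a = amp H (R.ρ a) := rfl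

lemma norm_ampl (a : A) : ‖R.ρ a‖ = ‖R.ampl.ρ a‖ :=
  le_antisymm (R.ampl.norm_hom_le R.ρ a) (R.norm_hom_le R.ampl.ρ a)

lemma pos_of_ampl {a : A} (h : (R.ampl.ρ a).IsPositive) : (R.ρ a).IsPositive := by
  rw [ContinuousLinearMap.isPositive_iff_complex] at h ⊢
  intro θ
  have := h (lp.single 2 0 θ)
  rwa [← inner_conj_symm, ampl_ρ, inner_amp_single, inner_conj_symm] at this

lemma exists_vec {φ : A → ℂ} (h : IsFNState R.ρ φ) :
    ∃ ξ, φ = R.ampl.vs ξ ∧ R.ampl.Sep ξ ∧ R.ampl.vs ξ 1 = 1 := by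
  obtain ⟨⟨ξ, h1, h2⟩, h3⟩ := h
  let v : lp (fun _ : ℕ => H) 2 := ⟨ξ, memℓp_gen (by simpa using h1.summable)⟩
  have e : φ = R.ampl.vs v := funext fun x => (h2 x).unique (lp.hasSum_inner v (R.ampl.ρ x v))
  refine ⟨v, e, fun a ha => h3 a (by rw [e, vs_star_mul, ha, inner_zero_left]), ?_⟩
  rw [← e]
  refine (h2 1).unique ?_
  simp only [map_one, one_apply_eq_self, inner_self_eq_norm_sq_to_K]
  simpa using Complex.ofRealCLM.hasSum h1

lemma modular_ampl {φ : A → ℂ} {σ : ℝ → (A ≃⋆ₐ[ℂ] A)} (h : IsModularGroup R.ρ φ σ) :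
    IsModularGroup R.ampl.ρ φ σ := by
  refine ⟨h.1, fun x a b => ?_, h.2.2⟩
  simp only [lp.inner_eq_tsum]
  refine continuous_tsum (u := fun i => ‖R.ρ x‖ * (‖b i‖ * ‖a i‖)) (fun i => h.2.1 x (a i) (b i))
    ((lp.summable_mul (by rw [Real.holderConjugate_iff]; norm_num) b a).mul_left _) fun i t => ?_
  have := (R.isForm_form (R.norm_hom_le (R.ρ.comp (σ t : A →⋆ₐ[ℂ] A)) x)).2.2.2.2.1 (b i) (a i)
  rw [← mul_assoc]
  exact this

lemma connes_ampl (σ : ℝ → (A ≃⋆ₐ[ℂ] A)) : connesSp R.ρ σ ⊆ connesSp R.ampl.ρ σ := by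
  intro p hp e he he0 hfix f hf h
  refine hp e he he0 hfix f hf fun x a b => ?_
  have := h x (lp.single 2 0 a) (lp.single 2 0 b)
  simpa only [ampl_ρ, inner_amp_single] using this

theorem gr_ampl {lam : ℝ} (h0 : 0 < lam) (h1 : lam < 1) (hIII : IsFactorIII R.ρ lam) {φ : A → ℂ}
    (hφ : IsPeriodicState R.ρ lam φ) :
    ∃ ξ, φ = R.ampl.vs ξ ∧ R.ampl.Gr ξ lam ∧ R.ampl.vs ξ 1 = 1 := by
  obtain ⟨hs, σ, hσ, hper⟩ := hφ
  obtain ⟨ξ, rfl, h2, h3⟩ := R.exists_vec hs
  refine ⟨ξ, rfl, gr_of_periodic h2 h0 h1 (R.modular_ampl hσ) hper fun k => R.connes_ampl σ ?_, h3⟩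
  rw [hIII.2 _ σ hs hσ]
  exact ⟨k, rfl⟩

end Rep

end Pool.Agent.P.MP_aee195_lc
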