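import Pool.Agent.P.MP_aee195_lc.Hilb

set_option autoImplicit false

namespace Pool.Agent.P.MP_aee195_lc

open Filter Topology
open scoped InnerProductSpace

/-- A faithful representation whose image is its own bicommutant. -/
structure Rep (A : Type*) [Ring A] [StarRing A] [Algebra ℂ A] (K : Type*) [NormedAddCommGroup K]
    [InnerProductSpace ℂ K] [CompleteSpace K] where
  ρ : A →⋆ₐ[ℂ] (K →L[ℂ] K)
  inj : Function.Injective ρ
  bic : ∀ T : K →L[ℂ] K, (∀ y : K →L[ℂ] K, (∀ a, y * ρ a = ρ a * y) → y * T = T * y) →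
    ∃ a, ρ a = T

variable {A : Type*} [Ring A] [StarRing A] [Algebra ℂ A]
  {K : Type*} [NormedAddCommGroup K] [InnerProductSpace ℂ K] [CompleteSpace K]

namespace Rep

variable (R : Rep A K)

/-- The commutant. -/
noncomputable def C : StarSubalgebra ℂ (K →L[ℂ] K) where
  carrier := {y | ∀ a, y * R.ρ a = R.ρ a * y}
  mul_mem' := fun {x y} hx hy a => by rw [mul_assoc, hy a, ← mul_assoc, hx a, mul_assoc]
  add_mem' := fun {x y} hx hy a => by rw [add_mul, mul_add, hx a, hy a]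
  algebraMap_mem' := fun r a => Algebra.commutes r _
  star_mem' := fun {x} hx a => by
    have := congrArg star (hx (star a))
    simpa [map_star] using this.symm

lemma mem_C {y : K →L[ℂ] K} : y ∈ R.C ↔ ∀ a, y * R.ρ a = R.ρ a * y := Iff.rfl

lemma C_apply {y : K →L[ℂ] K} (hy : y ∈ R.C) (a : A) (θ : K) :
    y (R.ρ a θ) = R.ρ a (y θ) := by
  have := congrArg (fun T : K →L[ℂ] K => T θ) (hy a)
  simpa [mul_apply_eq_comp] using this

/-- The orbit map a ↦ a ξ. -/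
noncomputable def orb (ξ : K) : A →ₗ[ℂ] K where
  toFun a := R.ρ a ξ
  map_add' a b := by simp
  map_smul' c a := by simp

@[simp] lemma orb_apply (ξ : K) (a : A) : R.orb ξ a = R.ρ a ξ := rfl

/-- The orbit map of the commutant. -/
noncomputable def corb (ξ : K) : R.C →ₗ[ℂ] K where
  toFun y := y.1 ξ
  map_add' a b := by simp
  map_smul' c a := by simp

@[simp] lemma corb_apply (ξ : K) (y : R.C) : R.corb ξ y = y.1 ξ := rfl

/-- Cyclic projection. -/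
noncomputable def e (ξ : K) : K →L[ℂ] K := pr (R.orb ξ)

lemma ρ_mul_apply (a b : A) (θ : K) : R.ρ (a * b) θ = R.ρ a (R.ρ b θ) := by
  rw [map_mul, mul_apply_eq_comp]

lemma e_mem (ξ : K) : R.e ξ ∈ R.C := fun a =>
  (pr_comm (R.orb ξ) (R.ρ a)
    (fun x => subset_closure ⟨a * x, by simp⟩)
    (fun x => subset_closure ⟨star a * x, by simp [map_star]⟩)).symm

@[simp] lemma e_orb (ξ : K) (a : A) : R.e ξ (R.ρ a ξ) = R.ρ a ξ := pr_apply (R.orb ξ) a

@[simp] lemma e_self (ξ : K) : R.e ξ ξ = ξ := by simpa using R.e_orb ξ 1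

@[simp] lemma e_e (ξ θ : K) : R.e ξ (R.e ξ θ) = R.e ξ θ := pr_pr _ θ

@[simp] lemma e_star (ξ : K) : star (R.e ξ) = R.e ξ := pr_star _

lemma inner_e (ξ a b : K) : ⟪R.e ξ a, b⟫_ℂ = ⟪a, R.e ξ b⟫_ℂ := by
  rw [← inner_star_left, e_star]

/-- Separating vector. -/
def Sep (ξ : K) : Prop := ∀ a, R.ρ a ξ = 0 → a = 0

variable {R}

lemma Sep.eq {ξ : K} (h : R.Sep ξ) {a b : A} (hab : R.ρ a ξ = R.ρ b ξ) : a = b := by
  have := h (a - b) (by simp [hab])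
  exact sub_eq_zero.mp this

lemma Sep.pr_corb {ξ : K} (h : R.Sep ξ) (θ : K) : pr (R.corb ξ) θ = θ := by
  obtain ⟨a, ha⟩ := R.bic (pr (R.corb ξ)) (fun y hy =>
    pr_comm (R.corb ξ) y
      (fun x => subset_closure ⟨⟨y * x.1, R.C.mul_mem hy x.2⟩, rfl⟩)
      (fun x => subset_closure ⟨⟨star y * x.1, R.C.mul_mem (star_mem (s := R.C) hy) x.2⟩, rfl⟩))
  have h1 : a = 1 := h.eq (by
    rw [ha]; simpa using pr_apply (R.corb ξ) 1)
  rw [← ha, h1]; simp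

lemma Sep.eq_zero_of_C {ξ : K} (h : R.Sep ξ) {θ : K} (h0 : ∀ y ∈ R.C, ⟪y ξ, θ⟫_ℂ = 0) : θ = 0 := by
  rw [← h.pr_corb θ]
  exact pr_eq_zero _ fun y => h0 y.1 y.2

lemma Sep.ext_C {ξ : K} (h : R.Sep ξ) {S T : K →L[ℂ] K} (h0 : ∀ y ∈ R.C, S (y ξ) = T (y ξ)) :
    S = T := by
  ext θ
  rw [← h.pr_corb θ]
  exact eq_comp_pr _ (fun y => h0 y.1 y.2) θ

/-- Bounded vectors come from the algebra. -/
lemma Sep.exists_of_bound {ξ : K} (h : R.Sep ξ) {θ : K} {c : ℝ} (hc : 0 ≤ c)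
    (hb : ∀ y ∈ R.C, ‖y θ‖ ≤ c * ‖y ξ‖) : ∃ a, R.ρ a ξ = θ := by
  obtain ⟨T, hT, -, -⟩ := exists_ext (R.corb ξ) (R.corb θ) hc (fun y => hb y.1 y.2)
  obtain ⟨a, ha⟩ := R.bic T (fun y hy => h.ext_C fun w hw => by
    have h1 := hT ⟨w, hw⟩
    have h2 := hT ⟨y * w, R.C.mul_mem hy hw⟩
    simp only [corb_apply, mul_apply_eq_comp] at h1 h2 ⊢
    rw [h1, h2])
  refine ⟨a, ?_⟩
  rw [ha]; simpa using hT 1

variable (R)

/-- Vector functional. -/
noncomputable def vs (ξ : K) (a : A) : ℂ := ⟪ξ, R.ρ a ξ⟫_ℂ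

lemma vs_add (ξ : K) (a b : A) : R.vs ξ (a + b) = R.vs ξ a + R.vs ξ b := by
  simp [vs]

lemma vs_sub (ξ : K) (a b : A) : R.vs ξ (a - b) = R.vs ξ a - R.vs ξ b := by
  simp [vs]

lemma vs_smul (ξ : K) (c : ℂ) (a : A) : R.vs ξ (c • a) = c * R.vs ξ a := by
  simp [vs]

lemma vs_zero (ξ : K) : R.vs ξ 0 = 0 := by simp [vs]

lemma vs_sum {ι : Type*} (ξ : K) (s : Finset ι) (f : ι → A) :
    R.vs ξ (∑ i ∈ s, f i) = ∑ i ∈ s, R.vs ξ (f i) := by
  simp [vs, map_sum]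

lemma vs_star (ξ : K) (a : A) : R.vs ξ (star a) = (starRingEnd ℂ) (R.vs ξ a) := by
  simp only [vs, map_star]
  rw [inner_star_right, inner_conj_symm]

lemma vs_star_mul (ξ : K) (a b : A) : R.vs ξ (star a * b) = ⟪R.ρ a ξ, R.ρ b ξ⟫_ℂ := by
  simp only [vs, map_mul, map_star, mul_apply_eq_comp]
  rw [inner_star_right]

lemma vs_mul (ξ : K) (a b : A) : R.vs ξ (a * b) = ⟪R.ρ (star a) ξ, R.ρ b ξ⟫_ℂ := by
  rw [← vs_star_mul, star_star]

lemma vs_star_self (ξ : K) (a : A) : R.vs ξ (star a * a) = ((‖R.ρ a ξ‖ ^ 2 : ℝ) : ℂ) := by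
  rw [vs_star_mul, inner_self_eq_norm_sq_to_K]; simp

/-- Relative eigen-elements. -/
def Eig (ξ η : K) (c : ℝ) (x : A) : Prop := ∀ y, R.vs ξ (y * x) = c * R.vs η (x * y)

variable {R}

lemma Eig.mul {ξ η θ : K} {c d : ℝ} {a x : A} (ha : R.Eig η θ d a) (hx : R.Eig ξ η c x) :
    R.Eig ξ θ (c * d) (a * x) := fun y => by
  rw [← mul_assoc, hx, ← mul_assoc, ha, mul_assoc a x y]; push_cast; ring

lemma Eig.adj {ξ η : K} {c : ℝ} (hc : c ≠ 0) {x : A} (hx : R.Eig ξ η c x) :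
    R.Eig η ξ c⁻¹ (star x) := fun y => by
  have := congrArg (starRingEnd ℂ) (hx (star y))
  rw [map_mul, ← vs_star, ← vs_star, star_mul, star_mul, star_star, Complex.conj_ofReal] at this
  rw [this]; push_cast
  field_simp [Complex.ofReal_ne_zero.mpr hc]

lemma Eig.add {ξ η : K} {c : ℝ} {x y : A} (hx : R.Eig ξ η c x) (hy : R.Eig ξ η c y) :
    R.Eig ξ η c (x + y) := fun z => by
  rw [mul_add, add_mul, vs_add, vs_add, hx, hy]; ring

lemma Eig.sub {ξ η : K} {c : ℝ} {x y : A} (hx : R.Eig ξ η c x) (hy : R.Eig ξ η c y) :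
    R.Eig ξ η c (x - y) := fun z => by
  rw [mul_sub, sub_mul, vs_sub, vs_sub, hx, hy]; ring

lemma Eig.smul {ξ η : K} {c : ℝ} {x : A} (hx : R.Eig ξ η c x) (r : ℂ) :
    R.Eig ξ η c (r • x) := fun z => by
  rw [mul_smul_comm, smul_mul_assoc, vs_smul, vs_smul, hx]; ring

lemma Eig.zero (ξ η : K) (c : ℝ) : R.Eig ξ η c 0 := fun z => by simp [vs_zero]

lemma Eig.one (ξ : K) : R.Eig ξ ξ 1 1 := fun z => by simp

lemma Eig.sum {ι : Type*} {ξ η : K} {c : ℝ} (s : Finset ι) {f : ι → A}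
    (h : ∀ i ∈ s, R.Eig ξ η c (f i)) : R.Eig ξ η c (∑ i ∈ s, f i) :=
  Finset.sum_induction f _ (fun _ _ ha hb => ha.add hb) (Eig.zero ξ η c) h

lemma Eig.congr {ξ η : K} {c d : ℝ} {x : A} (hx : R.Eig ξ η c x) (h : c = d) :
    R.Eig ξ η d x := h ▸ hx

lemma Eig.star_mul_self {ξ η : K} {c : ℝ} (hc : c ≠ 0) {x : A} (hx : R.Eig ξ η c x) :
    R.Eig ξ ξ 1 (star x * x) := ((hx.adj hc).mul hx).congr (mul_inv_cancel₀ hc)

lemma Eig.mul_star_self {ξ η : K} {c : ℝ} (hc : c ≠ 0) {x : A} (hx : R.Eig ξ η c x) :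
    R.Eig η η 1 (x * star x) := (hx.mul (hx.adj hc)).congr (inv_mul_cancel₀ hc)

lemma Eig.norm_sq {ξ η : K} {c : ℝ} {x : A} (hx : R.Eig ξ η c x) :
    ‖R.ρ x ξ‖ ^ 2 = c * ‖R.ρ (star x) η‖ ^ 2 := by
  have := hx (star x)
  rw [vs_star_self] at this
  have h2 := R.vs_star_self η (star x)
  rw [star_star] at h2
  rw [h2] at this
  exact_mod_cast this

variable (R)

/-- The centralizer, as an algebra of operators. -/
noncomputable def cent (ξ : K) : StarSubalgebra ℂ (K →L[ℂ] K) where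
  carrier := {T | ∃ a, R.Eig ξ ξ 1 a ∧ R.ρ a = T}
  mul_mem' := by
    rintro _ _ ⟨a, ha, rfl⟩ ⟨b, hb, rfl⟩
    exact ⟨a * b, (ha.mul hb).congr (by simp), map_mul _ _ _⟩
  add_mem' := by
    rintro _ _ ⟨a, ha, rfl⟩ ⟨b, hb, rfl⟩
    exact ⟨a + b, ha.add hb, map_add _ _ _⟩
  algebraMap_mem' := fun r => ⟨r • 1, (Eig.one ξ).smul r, by
    simp [Algebra.algebraMap_eq_smul_one]⟩
  star_mem' := by
    rintro _ ⟨a, ha, rfl⟩
    exact ⟨star a, (ha.adj one_ne_zero).congr (by simp), map_star _ _⟩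

lemma cent_closed (ξ : K) : IsClosed (R.cent ξ : Set (K →L[ℂ] K)) := by
  have : (R.cent ξ : Set (K →L[ℂ] K)) =
      (⋂ y ∈ R.C, {T | y * T = T * y}) ∩
        ⋂ b : A, {T | ⟪ξ, R.ρ b (T ξ)⟫_ℂ = ⟪ξ, T (R.ρ b ξ)⟫_ℂ} := by
    ext T
    simp only [Set.mem_inter_iff, Set.mem_iInter, Set.mem_ofPred_eq]
    constructor
    · rintro ⟨a, ha, rfl⟩
      refine ⟨fun y hy => hy a, fun b => ?_⟩
      simpa [vs, mul_apply_eq_comp] using ha b
    · rintro ⟨h1, h2⟩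
      obtain ⟨a, rfl⟩ := R.bic T h1
      exact ⟨a, fun b => by simpa [vs, mul_apply_eq_comp] using h2 b, rfl⟩
  rw [this]
  refine IsClosed.inter (isClosed_biInter fun y _ => isClosed_eq (by fun_prop) (by fun_prop))
    (isClosed_iInter fun b => isClosed_eq (by fun_prop) (by fun_prop))

end Rep

lemma exists_sqrt {T : K →L[ℂ] K} (hT : 0 ≤ T) :
    ∃ g : K →L[ℂ] K, star g = g ∧ g * g = T ∧
      (∀ S : K →L[ℂ] K, T * S = S * T → g * S = S * g) ∧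
      ∀ s : StarSubalgebra ℂ (K →L[ℂ] K), IsClosed (s : Set (K →L[ℂ] K)) → T ∈ s → g ∈ s := by
  have hsa : IsSelfAdjoint T := IsSelfAdjoint.of_nonneg hT
  refine ⟨cfc Real.sqrt T, (cfc_predicate Real.sqrt T : IsSelfAdjoint _).star_eq, ?_,
    fun S hS => (Commute.cfc_real hS _).eq, fun s hs h => cfc_mem (hs := hs) _ h⟩
  rw [← cfc_mul Real.sqrt Real.sqrt T]
  conv_rhs => rw [← cfc_id ℝ T]
  refine cfc_congr fun x hx => ?_
  exact Real.mul_self_sqrt (spectrum_nonneg_of_nonneg hT hx)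

lemma nonneg_norm_sq_sub (T : K →L[ℂ] K) :
    0 ≤ ((‖T‖ ^ 2 : ℝ) : ℂ) • (1 : K →L[ℂ] K) - T * star T := by
  rw [ContinuousLinearMap.nonneg_iff_isPositive, ContinuousLinearMap.isPositive_iff_complex]
  intro θ
  have h1 : ⟪(((‖T‖ ^ 2 : ℝ) : ℂ) • (1 : K →L[ℂ] K) - T * star T) θ, θ⟫_ℂ =
      ((‖T‖ ^ 2 * ‖θ‖ ^ 2 - ‖star T θ‖ ^ 2 : ℝ) : ℂ) := by
    simp only [sub_apply, smul_apply, inner_sub_left,
      inner_smul_left, mul_apply_eq_comp, one_apply_eq_self]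
    rw [← inner_star_right, inner_self_eq_norm_sq_to_K, inner_self_eq_norm_sq_to_K]
    simp
  rw [h1]
  refine ⟨by rw [RCLike.re_to_complex, Complex.ofReal_re], ?_⟩
  have h2 : ‖star T θ‖ ≤ ‖T‖ * ‖θ‖ := by
    simpa [norm_star] using (star T).le_opNorm θ
  have h3 : ‖star T θ‖ ^ 2 ≤ (‖T‖ * ‖θ‖) ^ 2 := by gcongr
  simp only [RCLike.re_to_complex, Complex.ofReal_re]
  nlinarith

namespace Rep

variable {R : Rep A K}

/-- Right multiplication by a relative eigen-element is bounded. -/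
lemma Eig.right_bound {ξ η : K} {c : ℝ} (hc : 0 < c) {v : A} (hv : R.Eig ξ η c v) (y : A) :
    ‖R.ρ (y * v) ξ‖ ≤ Real.sqrt c * ‖R.ρ v‖ * ‖R.ρ y η‖ := by
  obtain ⟨g, hg1, hg2, -, hg4⟩ := exists_sqrt (nonneg_norm_sq_sub (R.ρ v))
  have hvv := hv.mul_star_self hc.ne'
  obtain ⟨b, hb, rfl⟩ := hg4 (R.cent η) (R.cent_closed η)
    ⟨((‖R.ρ v‖ ^ 2 : ℝ) : ℂ) • 1 - v * star v, ((Eig.one η).smul _).sub hvv, by
      simp [map_star]⟩
  have hbs : star b = b := R.inj (by rw [map_star, hg1])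
  have hbb : b * b = ((‖R.ρ v‖ ^ 2 : ℝ) : ℂ) • 1 - v * star v :=
    R.inj (by rw [map_mul, hg2]; simp [map_star])
  have h1 : R.vs η (b * b * (star y * y)) = ((‖R.ρ (y * b) η‖ ^ 2 : ℝ) : ℂ) := by
    rw [← vs_star_self, star_mul, hbs]
    have := hb (b * star y * y)
    simp only [Complex.ofReal_one, one_mul] at this
    simp only [← mul_assoc] at this ⊢
    rw [this]
  have h2 : R.vs ξ (star (y * v) * (y * v)) =
      c * R.vs η (v * star v * (star y * y)) := by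
    have := hv (star v * star y * y)
    rw [star_mul]
    simp only [← mul_assoc] at this ⊢
    rw [this]
  rw [hbb, sub_mul, vs_sub, smul_mul_assoc, one_mul, vs_smul, vs_star_self] at h1
  rw [vs_star_self] at h2
  have h3 : R.vs η (v * star v * (star y * y)) =
      ((‖R.ρ v‖ ^ 2 * ‖R.ρ y η‖ ^ 2 - ‖R.ρ (y * b) η‖ ^ 2 : ℝ) : ℂ) := by
    push_cast at h1 ⊢; linear_combination -h1
  rw [h3] at h2
  have h4 : ‖R.ρ (y * v) ξ‖ ^ 2 = c * (‖R.ρ v‖ ^ 2 * ‖R.ρ y η‖ ^ 2 - ‖R.ρ (y * b) η‖ ^ 2) := by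
    exact_mod_cast h2
  have h5 : ‖R.ρ (y * v) ξ‖ ^ 2 ≤ (Real.sqrt c * ‖R.ρ v‖ * ‖R.ρ y η‖) ^ 2 := by
    rw [h4, mul_pow, mul_pow, Real.sq_sqrt hc.le]
    nlinarith [mul_nonneg hc.le (sq_nonneg ‖R.ρ (y * b) η‖)]
  exact (pow_le_pow_iff_left₀ (norm_nonneg _) (by positivity) two_ne_zero).mp h5

/-- Trivial centre. -/
def Fac (A : Type*) [Ring A] [Algebra ℂ A] : Prop :=
  ∀ z : A, (∀ x, z * x = x * z) → ∃ c : ℂ, z = c • (1 : A)

lemma Fac.exists_mul_ne (R : Rep A K) (hF : Fac A) {a b : A} (ha : a ≠ 0) (hb : b ≠ 0) :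
    ∃ x, a * x * b ≠ 0 := by
  by_contra hcon
  push Not at hcon
  obtain ⟨θ, hθ⟩ : ∃ θ, R.ρ b θ ≠ 0 := by
    by_contra h
    push Not at h
    exact hb (R.inj (by ext θ; simp [h θ]))
  -- the span of all x y b θ, x in A, y in the commutant
  let L : (A × R.C →₀ ℂ) →ₗ[ℂ] K :=
    Finsupp.linearCombination ℂ (fun p : A × R.C => R.ρ p.1 (p.2.1 (R.ρ b θ)))
  have key : ∀ S : K →L[ℂ] K, (∀ p : A × R.C, ∃ q : A × R.C,
      S (R.ρ p.1 (p.2.1 (R.ρ b θ))) = R.ρ q.1 (q.2.1 (R.ρ b θ))) →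
      ∀ x, S (L x) ∈ closure (Set.range L) := by
    intro S hS x
    apply subset_closure
    induction x using Finsupp.induction_linear with
    | zero => exact ⟨0, by simp⟩
    | add f g hf hg =>
      obtain ⟨u, hu⟩ := hf
      obtain ⟨v, hv⟩ := hg
      exact ⟨u + v, by simp [hu, hv]⟩
    | single p c =>
      obtain ⟨q, hq⟩ := hS p
      exact ⟨Finsupp.single q c, by simp [L, hq]⟩
  have hC : ∀ y ∈ R.C, ∀ x, y (L x) ∈ closure (Set.range L) := fun y hy =>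
    key y fun p => ⟨(p.1, ⟨y * p.2.1, R.C.mul_mem hy p.2.2⟩), by
      simp [R.C_apply hy, mul_apply_eq_comp]⟩
  have hA : ∀ a : A, ∀ x, R.ρ a (L x) ∈ closure (Set.range L) := fun a =>
    key (R.ρ a) fun p => ⟨(a * p.1, p.2), by simp [mul_apply_eq_comp]⟩
  obtain ⟨z, hz⟩ := R.bic (pr L) fun y hy => pr_comm L y (hC y hy) (hC _ (star_mem (s := R.C) hy))
  obtain ⟨c, hc⟩ := hF z fun x => R.inj (by
    rw [map_mul, map_mul, hz]
    exact (pr_comm L (R.ρ x) (hA x) (by simpa [map_star] using hA (star x))).symm)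
  have hL : L (Finsupp.single (1, 1) 1) = R.ρ b θ := by simp [L]
  have h1 : c = 1 := by
    have := pr_apply L (Finsupp.single (1, 1) 1)
    rw [← hz, hc, hL] at this
    simp only [map_smul, map_one, smul_apply,
      one_apply_eq_self] at this
    have h2 : (c - 1) • R.ρ b θ = 0 := by rw [sub_smul, this, one_smul, sub_self]
    exact sub_eq_zero.mp ((smul_eq_zero.mp h2).resolve_right hθ)
  apply ha
  apply R.inj
  ext w
  have hw : pr L w = w := by rw [← hz, hc, h1]; simp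
  rw [← hw, map_zero]
  refine eq_comp_pr L (fun x => ?_) w
  induction x using Finsupp.induction_linear with
  | zero => simp
  | add f g hf hg => simp only [map_add, hf, hg]
  | single p c =>
    have := congrArg (fun t => p.2.1 (R.ρ t θ)) (hcon p.1)
    simp only [map_mul, mul_apply_eq_comp, map_zero, zero_apply] at this
    simp only [R.C_apply p.2.2] at this
    simp [L, R.C_apply p.2.2, this]

end Rep

end Pool.Agent.P.MP_aee195_lc
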