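import Pool.Agent.P.MP_aee195_lc.Basic

set_option autoImplicit false

namespace Pool.Agent.P.MP_aee195_lc

open Filter Topology
open scoped InnerProductSpace

variable {A : Type*} [Ring A] [StarRing A] [Algebra ℂ A]
  {K : Type*} [NormedAddCommGroup K] [InnerProductSpace ℂ K] [CompleteSpace K]

namespace Rep

variable (R : Rep A K)

/-- Bounded sesquilinear forms commuting with the commutant. -/
def IsForm (c : ℝ) (B : K → K → ℂ) : Prop :=
  (∀ a b d, B a (b + d) = B a b + B a d) ∧ (∀ a (r : ℂ) b, B a (r • b) = r * B a b) ∧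
  (∀ a b d, B (a + b) d = B a d + B b d) ∧
  (∀ a (r : ℂ) b, B (r • a) b = (starRingEnd ℂ) r * B a b) ∧
  (∀ a b, ‖B a b‖ ≤ c * ‖a‖ * ‖b‖) ∧ ∀ y ∈ R.C, ∀ a b, B a (y b) = B (star y a) b

lemma isForm_closed (c : ℝ) : IsClosed {B | R.IsForm c B} := by
  simp only [IsForm, Set.ofPred_and, Set.ofPred_forall]
  refine IsClosed.inter ?_ (IsClosed.inter ?_ (IsClosed.inter ?_ (IsClosed.inter ?_
    (IsClosed.inter ?_ ?_))))
  · exact isClosed_iInter fun _ => isClosed_iInter fun _ => isClosed_iInter fun _ =>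
      isClosed_eq (by fun_prop) (by fun_prop)
  · exact isClosed_iInter fun _ => isClosed_iInter fun _ => isClosed_iInter fun _ =>
      isClosed_eq (by fun_prop) (by fun_prop)
  · exact isClosed_iInter fun _ => isClosed_iInter fun _ => isClosed_iInter fun _ =>
      isClosed_eq (by fun_prop) (by fun_prop)
  · exact isClosed_iInter fun _ => isClosed_iInter fun _ => isClosed_iInter fun _ =>
      isClosed_eq (by fun_prop) (by fun_prop)
  · exact isClosed_iInter fun _ => isClosed_iInter fun _ =>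
      isClosed_le (by fun_prop) (by fun_prop)
  · exact isClosed_iInter fun _ => isClosed_iInter fun _ => isClosed_iInter fun _ =>
      isClosed_iInter fun _ => isClosed_eq (by fun_prop) (by fun_prop)

lemma isForm_compact (c : ℝ) : IsCompact {B | R.IsForm c B} := by
  have h : IsCompact (Set.pi Set.univ fun a : K => Set.pi Set.univ fun b : K =>
      Metric.closedBall (0 : ℂ) (c * ‖a‖ * ‖b‖)) :=
    isCompact_univ_pi fun a => isCompact_univ_pi fun b => isCompact_closedBall _ _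
  refine h.of_isClosed_subset (R.isForm_closed c) fun B hB a _ b _ => ?_
  simpa using hB.2.2.2.2.1 a b

/-- The form of an element. -/
noncomputable def form (x : A) : K → K → ℂ := fun a b => ⟪a, R.ρ x b⟫_ℂ

lemma isForm_form {c : ℝ} {x : A} (hx : ‖R.ρ x‖ ≤ c) : R.IsForm c (R.form x) := by
  refine ⟨fun a b d => by simp [form], fun a r b => by simp [form],
    fun a b d => by simp [form], fun a r b => by simp [form, mul_comm],
    fun a b => ?_, fun y hy a b => ?_⟩
  · refine (norm_inner_le_norm _ _).trans ?_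
    have := (R.ρ x).le_opNorm b
    have h2 : ‖R.ρ x‖ * ‖b‖ ≤ c * ‖b‖ := by gcongr
    nlinarith [norm_nonneg a]
  · simp only [form]
    rw [inner_star_left, R.C_apply hy]

lemma form_inj {x y : A} (h : R.form x = R.form y) : x = y := by
  apply R.inj
  ext b
  exact ext_inner_left ℂ fun a => congrFun (congrFun h a) b

variable {R}

lemma IsForm.exists {c : ℝ} (hc : 0 ≤ c) {B : K → K → ℂ} (h : R.IsForm c B) :
    ∃ x, R.form x = B ∧ ‖R.ρ x‖ ≤ c := by
  obtain ⟨h1, h2, h3, h4, h5, h6⟩ := h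
  obtain ⟨T, hT, hn⟩ := exists_of_form B hc h1 h2 h3 h4 h5
  obtain ⟨x, rfl⟩ := R.bic T fun y hy => by
    ext b
    refine ext_inner_left ℂ fun a => ?_
    simp only [mul_apply_eq_comp]
    rw [hT, h6 y hy, ← hT, inner_star_left]
  exact ⟨x, by funext a b; exact hT a b, hn⟩

lemma exists_extreme (ξ η : K) (c : ℝ) (p q : A) :
    ∃ u, (R.Eig ξ η c u ∧ q * u * p = u ∧ ‖R.ρ u‖ ≤ 1) ∧
      ∀ w, (R.Eig ξ η c (u + w) ∧ q * (u + w) * p = u + w ∧ ‖R.ρ (u + w)‖ ≤ 1) →
        (R.Eig ξ η c (u - w) ∧ q * (u - w) * p = u - w ∧ ‖R.ρ (u - w)‖ ≤ 1) → w = 0 := by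
  set W : Set (K → K → ℂ) := {B | R.IsForm 1 B} ∩
    ((⋂ y : A, {B | B (R.ρ (star y) ξ) ξ = c * B η (R.ρ y η)}) ∩
      ⋂ a : K, ⋂ b : K, {B | B (R.ρ (star q) a) (R.ρ p b) = B a b}) with hW
  have hmem : ∀ x, R.form x ∈ W ↔ (R.Eig ξ η c x ∧ q * x * p = x ∧ ‖R.ρ x‖ ≤ 1) := by
    intro x
    have e1 : (∀ y : A, R.form x (R.ρ (star y) ξ) ξ = c * R.form x η (R.ρ y η)) ↔
        R.Eig ξ η c x := by
      refine forall_congr' fun y => ?_
      simp only [form, vs, map_mul, mul_apply_eq_comp, map_star, inner_star_left]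
    have e2 : (∀ a b, R.form x (R.ρ (star q) a) (R.ρ p b) = R.form x a b) ↔ q * x * p = x := by
      constructor
      · intro h
        apply R.form_inj
        funext a b
        rw [← h]
        simp only [form, map_mul, mul_apply_eq_comp, map_star, inner_star_left]
      · intro h a b
        conv_rhs => rw [← h]
        simp only [form, map_mul, mul_apply_eq_comp, map_star, inner_star_left]
    simp only [hW, Set.mem_inter_iff, Set.mem_iInter, Set.mem_ofPred_eq, e1, e2]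
    constructor
    · rintro ⟨h1, h2, h3⟩
      obtain ⟨x', hx', hn⟩ := h1.exists zero_le_one
      rw [R.form_inj hx'] at hn
      exact ⟨h2, h3, hn⟩
    · rintro ⟨h1, h2, h3⟩
      exact ⟨R.isForm_form h3, h1, h2⟩
  have hc : IsCompact W := (R.isForm_compact 1).inter_right (IsClosed.inter
    (isClosed_iInter fun _ => isClosed_eq (by fun_prop) (by fun_prop))
    (isClosed_iInter fun _ => isClosed_iInter fun _ => isClosed_eq (by fun_prop) (by fun_prop)))
  obtain ⟨B, hB, hext⟩ := hc.extremePoints_nonempty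
    ⟨R.form 0, (hmem 0).2 ⟨Eig.zero _ _ _, by simp, by simp⟩⟩
  obtain ⟨u, rfl, -⟩ := hB.1.exists zero_le_one
  refine ⟨u, (hmem u).1 hB, fun w h1 h2 => ?_⟩
  have := hext ((hmem _).2 h1) ((hmem _).2 h2) ⟨1 / 2, 1 / 2, by norm_num, by norm_num, by norm_num, by
    funext a b
    simp only [form, Pi.add_apply, Pi.smul_apply, map_add, map_sub, add_apply, sub_apply,
      inner_add_right, inner_sub_right, Complex.real_smul]
    push_cast; ring⟩
  simpa using R.form_inj this

end Rep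

lemma norm_kadison_plus (T : K →L[ℂ] K) (hT : ‖T‖ ≤ 1) :
    ‖T + (1 / 2 : ℂ) • (T - T * (star T * T))‖ ≤ 1 := by
  refine ContinuousLinearMap.opNorm_le_bound _ zero_le_one fun θ => ?_
  set s := star T (T θ) with hs
  set ζ := θ - s with hζ
  have h1 : (T + (1 / 2 : ℂ) • (T - T * (star T * T))) θ = T θ + (1 / 2 : ℂ) • T ζ := by
    simp [hζ, hs, mul_apply_eq_comp]
  have h2 : ‖T ζ‖ ≤ ‖ζ‖ := by
    have := T.le_opNorm ζ
    nlinarith [norm_nonneg ζ]
  have h3 : ⟪T θ, T ζ⟫_ℂ = ⟪s, ζ⟫_ℂ := by rw [hs, inner_star_left]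
  have h4 : ‖T θ‖ ^ 2 = ‖s‖ ^ 2 + (⟪s, ζ⟫_ℂ).re := by
    have e1 : ⟪T θ, T θ⟫_ℂ = ⟪s, θ⟫_ℂ := by rw [hs, inner_star_left]
    have e2 : θ = s + ζ := by simp [hζ]
    rw [← inner_self_eq_norm_sq (𝕜 := ℂ), ← inner_self_eq_norm_sq (𝕜 := ℂ), e1]
    conv_lhs => rw [e2]
    simp
  have h5 : ‖θ‖ ^ 2 = ‖s‖ ^ 2 + 2 * (⟪s, ζ⟫_ℂ).re + ‖ζ‖ ^ 2 := by
    have e2 : θ = s + ζ := by simp [hζ]
    conv_lhs => rw [e2]
    rw [norm_add_sq (𝕜 := ℂ)]; simp
  have h6 : ‖T θ + (1 / 2 : ℂ) • T ζ‖ ^ 2 = ‖T θ‖ ^ 2 + (⟪s, ζ⟫_ℂ).re + ‖T ζ‖ ^ 2 / 4 := by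
    rw [norm_add_sq (𝕜 := ℂ), inner_smul_right, h3, norm_smul]
    simp; ring
  rw [h1, one_mul]
  refine (pow_le_pow_iff_left₀ (norm_nonneg _) (norm_nonneg _) two_ne_zero).mp ?_
  rw [h6, h4, h5]
  nlinarith [norm_nonneg (T ζ), norm_nonneg ζ]

lemma norm_kadison_minus (T : K →L[ℂ] K) (hT : ‖T‖ ≤ 1) :
    ‖T - (1 / 2 : ℂ) • (T - T * (star T * T))‖ ≤ 1 := by
  have h1 : T - (1 / 2 : ℂ) • (T - T * (star T * T)) =
      (1 / 2 : ℂ) • T + (1 / 2 : ℂ) • (T * (star T * T)) := by
    module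
  have h2 : ‖T * (star T * T)‖ ≤ 1 := by
    have e1 := norm_mul_le T (star T * T)
    have e2 := norm_mul_le (star T) T
    rw [norm_star] at e2
    have e3 : ‖star T * T‖ ≤ 1 := by nlinarith [norm_nonneg T]
    nlinarith [norm_nonneg T, norm_nonneg (star T * T)]
  rw [h1]
  refine (norm_add_le _ _).trans ?_
  rw [norm_smul, norm_smul]
  simp only [one_div, norm_inv, Complex.norm_ofNat]
  linarith

lemma norm_add_orth (T W : K →L[ℂ] K) (h1 : T * star T * T = T) (h2 : star T * W = 0)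
    (h3 : W * (star T * T) = 0) (h4 : ‖W‖ ≤ 1) : ‖T + W‖ ≤ 1 := by
  refine ContinuousLinearMap.opNorm_le_bound _ zero_le_one fun θ => ?_
  set s := star T (T θ) with hs
  set ζ := θ - s with hζ
  have a1 : T s = T θ := by
    have := congrArg (fun S : K →L[ℂ] K => S θ) h1
    simpa [mul_apply_eq_comp] using this
  have a2 : W s = 0 := by
    have := congrArg (fun S : K →L[ℂ] K => S θ) h3
    simpa [mul_apply_eq_comp] using this
  have a3 : ⟪T θ, W θ⟫_ℂ = 0 := by
    have := congrArg (fun S : K →L[ℂ] K => S θ) h2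
    simp only [mul_apply_eq_comp, zero_apply] at this
    rw [← inner_star_right, this, inner_zero_right]
  have a4 : ⟪s, ζ⟫_ℂ = 0 := by
    rw [hs, inner_star_left, hζ, map_sub, a1, sub_self, inner_zero_right]
  have a5 : ‖T θ‖ ^ 2 = ‖s‖ ^ 2 := by
    have e1 : ⟪T θ, T θ⟫_ℂ = ⟪s, s⟫_ℂ := by
      conv_rhs => rw [hs, inner_star_left, ← hs, a1]
    rw [← inner_self_eq_norm_sq (𝕜 := ℂ), ← inner_self_eq_norm_sq (𝕜 := ℂ), e1]
  have a6 : ‖θ‖ ^ 2 = ‖s‖ ^ 2 + ‖ζ‖ ^ 2 := by
    have e2 : θ = s + ζ := by simp [hζ]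
    conv_lhs => rw [e2]
    rw [norm_add_sq (𝕜 := ℂ), a4]; simp
  have a7 : ‖W θ‖ ≤ ‖ζ‖ := by
    have : W θ = W ζ := by rw [hζ, map_sub, a2, sub_zero]
    rw [this]
    have := W.le_opNorm ζ
    nlinarith [norm_nonneg ζ]
  rw [one_mul, add_apply]
  refine (pow_le_pow_iff_left₀ (norm_nonneg _) (norm_nonneg _) two_ne_zero).mp ?_
  rw [norm_add_sq (𝕜 := ℂ), a3, a5, a6]
  simp only [map_zero, mul_zero, add_zero]
  nlinarith [norm_nonneg (W θ), norm_nonneg ζ]

namespace Rep

variable {R : Rep A K}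

/-- Comparison of projections of the two centralizers through relative eigen-elements. -/
lemma exists_cmp {ξ η : K} {c : ℝ} (hc : c ≠ 0) {p q : A} (hp : IsStarProjection p)
    (hq : IsStarProjection q) (hp' : R.Eig ξ ξ 1 p) (hq' : R.Eig η η 1 q) :
    ∃ u, R.Eig ξ η c u ∧ q * u = u ∧ u * p = u ∧ u * star u * u = u ∧
      ∀ y, R.Eig ξ η c y → (q - u * star u) * y * (p - star u * u) = 0 := by
  obtain ⟨u, ⟨h1, h2, h3⟩, hext⟩ := exists_extreme (R := R) ξ η c p q
  have pp : p * p = p := hp.isIdempotentElem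
  have qq : q * q = q := hq.isIdempotentElem
  have hqu : q * u = u := by rw [← h2, ← mul_assoc, ← mul_assoc, qq]
  have hup : u * p = u := by rw [← h2, mul_assoc, mul_assoc, pp, ← mul_assoc]
  have huq : star u * q = star u := by
    rw [← hq.isSelfAdjoint.star_eq, ← star_mul, hqu]
  have hpu : p * star u = star u := by
    rw [← hp.isSelfAdjoint.star_eq, ← star_mul, hup]
  have ha := h1.star_mul_self hc
  have hb := h1.mul_star_self hc
  have key : ∀ w, R.Eig ξ η c w → q * w * p = w → ‖R.ρ (u + w)‖ ≤ 1 → ‖R.ρ (u - w)‖ ≤ 1 →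
      w = 0 := fun w a1 a2 a3 a4 =>
    hext w ⟨h1.add a1, by rw [mul_add, add_mul, h2, a2], a3⟩
      ⟨h1.sub a1, by rw [mul_sub, sub_mul, h2, a2], a4⟩
  have hiso : u * star u * u = u := by
    have := key ((1 / 2 : ℂ) • (u - u * (star u * u)))
      ((h1.sub ((h1.mul ha).congr (one_mul c))).smul _)
      (by rw [mul_smul_comm, smul_mul_assoc, mul_sub, sub_mul, h2, ← mul_assoc q, hqu,
        mul_assoc u, mul_assoc (star u), hup])
      (by simpa [map_star] using norm_kadison_plus (R.ρ u) h3)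
      (by simpa [map_star] using norm_kadison_minus (R.ρ u) h3)
    rw [smul_eq_zero] at this
    rcases this with h | h
    · norm_num at h
    · rw [mul_assoc]; exact (sub_eq_zero.mp h).symm
  have hiso' : star u * (u * star u) = star u := by
    have := congrArg star hiso
    simpa [mul_assoc] using this
  refine ⟨u, h1, hqu, hup, hiso, fun y hy => ?_⟩
  set w := (q - u * star u) * y * (p - star u * u) with hw
  have hw1 : R.Eig ξ η c w := (((hq'.sub hb).mul hy).mul (hp'.sub ha)).congr (by ring)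
  have hw2 : q * w * p = w := by
    have e1 : q * (q - u * star u) = q - u * star u := by rw [mul_sub, qq, ← mul_assoc, hqu]
    have e2 : (p - star u * u) * p = p - star u * u := by rw [sub_mul, pp, mul_assoc, hup]
    rw [hw, ← mul_assoc, ← mul_assoc, e1, mul_assoc _ _ p, e2]
  have hw3 : star u * w = 0 := by
    have : star u * (q - u * star u) = 0 := by rw [mul_sub, huq, hiso', sub_self]
    rw [hw, ← mul_assoc, ← mul_assoc, this, zero_mul, zero_mul]
  have hw4 : w * (star u * u) = 0 := by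
    have : (p - star u * u) * (star u * u) = 0 := by
      rw [sub_mul, ← mul_assoc, hpu, mul_assoc (star u), ← mul_assoc u, hiso, sub_self]
    rw [hw, mul_assoc _ _ (star u * u), this, mul_zero]
  set r : ℝ := (‖R.ρ w‖ + 1)⁻¹ with hr
  have hr0 : 0 < r := by positivity
  have hb : ∀ s : ℂ, ‖s‖ = r → ‖R.ρ (u + s • w)‖ ≤ 1 := fun s hs => by
    rw [map_add, map_smul]
    refine norm_add_orth _ _ (by rw [← map_star, ← map_mul, ← map_mul, hiso])
      (by rw [mul_smul_comm, ← map_star, ← map_mul, hw3]; simp)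
      (by rw [smul_mul_assoc, ← map_star, ← map_mul, ← map_mul, hw4]; simp) ?_
    rw [norm_smul, hs, hr, inv_mul_le_iff₀ (by positivity)]
    linarith
  have := key ((r : ℂ) • w) (hw1.smul _) (by rw [mul_smul_comm, smul_mul_assoc, hw2])
    (hb _ (by simp [hr0.le])) (by
      have := hb (-(r : ℂ)) (by simp [hr0.le])
      rwa [neg_smul, ← sub_eq_add_neg] at this)
  rw [smul_eq_zero] at this
  exact this.resolve_left (by exact_mod_cast hr0.ne')

end Rep

end Pool.Agent.P.MP_aee195_lc
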