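import Pool.Agent.P.MP_aee195_lc.Graded

set_option autoImplicit false

namespace Pool.Agent.P.MP_aee195_lc

open Filter Topology
open scoped InnerProductSpace

variable {A : Type*} [Ring A] [StarRing A] [Algebra ℂ A]
  {K : Type*} [NormedAddCommGroup K] [InnerProductSpace ℂ K] [CompleteSpace K]

namespace Rep

variable {R : Rep A K} {ξ : K} {lam : ℝ}

lemma block_e {X : K →L[ℂ] K}
    (hX : ∀ θ, (∀ (i : ℤ) a, ⟪R.q ξ (lam ^ i) a, θ⟫_ℂ = 0) → X θ = 0) (θ : K) :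
    X (R.e ξ θ) = X θ := by
  rw [← sub_eq_zero, ← map_sub]
  refine hX _ fun i a => ?_
  rw [inner_sub_right, ← inner_e, e_q, sub_self]

lemma e_star_of {X : K →L[ℂ] K} (hX : ∀ θ, X (R.e ξ θ) = X θ) (θ : K) :
    R.e ξ (star X θ) = star X θ :=
  ext_inner_left ℂ fun a => by rw [← inner_e, inner_star_right, inner_star_right, hX]

/-- Homogeneous components of an element of the commutant are right multiplications. -/
lemma Gr.comp_C (h : R.Gr ξ lam) (h0 : 0 < lam) (h1 : lam < 1) {z : K →L[ℂ] K} (hz : z ∈ R.C)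
    (m : ℤ) : ∃ v z', R.Eig ξ ξ (lam ^ m) v ∧ R.IsR ξ v z' ∧ z' ξ = R.q ξ (lam ^ m) (z ξ) ∧
      star z' ξ = R.q ξ (lam ^ (-m)) (star z ξ) := by
  have ho : ∀ (i j : ℤ) a b, i ≠ j → ⟪R.q ξ (lam ^ i) a, R.q ξ (lam ^ j) b⟫_ℂ = 0 :=
    fun i j a b hij => q_orth (zpow_pos h0 i).ne' (lam_ne h0 h1 hij) a b
  obtain ⟨X, hX1, hX2⟩ := exists_block (fun k : ℤ => R.q ξ (lam ^ k))
    (fun k : ℤ => R.q ξ (lam ^ (k + m)) * z) ho
    (fun i j a b hij => ho _ _ _ _ (by omega)) (norm_nonneg z)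
    (fun i a => (norm_pr_le _ _).trans (z.le_opNorm a))
  have hXe := block_e hX2
  have hXw : ∀ (k : ℤ) w, R.Eig ξ ξ (lam ^ k) w →
      X (R.ρ w ξ) = R.q ξ (lam ^ (k + m)) (z (R.ρ w ξ)) := fun k w hw => by
    have := hX1 k (R.ρ w ξ)
    rwa [mul_apply_eq_comp, hw.q_self] at this
  have hXξ : X ξ = R.q ξ (lam ^ m) (z ξ) := by
    simpa using hXw 0 1 ((Eig.one ξ).congr (zpow_zero lam).symm)
  have hXs : star X ξ = R.q ξ (lam ^ (-m)) (star z ξ) := by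
    rw [← e_star_of hXe, ← e_q]
    refine h.e_eq fun k w hw => ?_
    rw [inner_star_right, hXw k w hw, ← inner_q _ _ _ (R.ρ w ξ), inner_q _ _ _ _ ξ]
    rcases eq_or_ne k (-m) with rfl | hk
    · have := (Eig.one (R := R) ξ).q_self
      rw [map_one, one_apply_eq_self] at this
      rw [hw.q_self, neg_add_cancel, zpow_zero, this, inner_star_right]
    · have := (Eig.one (R := R) ξ).q_ne (zpow_pos h0 (k + m)).ne'
        (by rw [← zpow_zero lam]; exact lam_ne h0 h1 (by omega))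
      rw [map_one, one_apply_eq_self] at this
      rw [hw.q_ne (zpow_pos h0 _).ne' (lam_ne h0 h1 hk.symm), this]
      simp
  have hXC : X ∈ R.C := h.comm fun k w hw θ => by
    rw [← hXe, ← hXe θ, e_ρ]
    refine h.ext (S := X * R.ρ w) (T := R.ρ w * X) (fun j u hu => ?_) θ
    rw [mul_apply_eq_comp, mul_apply_eq_comp, ← ρ_mul_apply,
      hXw (j + k) _ ((hw.mul hu).congr (zpow_add₀ h0.ne' _ _).symm), hXw j u hu,
      hw.ρ_q (zpow_pos h0 k).ne', ← zpow_add₀ h0.ne', ρ_mul_apply, R.C_apply hz w]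
    congr 3; ring
  obtain ⟨v, hv⟩ := exists_of_C h.sep (zpow_pos h0 m) hXC (by rw [hXξ]; exact pr_pr _ _)
    (by rw [hXs, zpow_neg]; exact pr_pr _ _)
  refine ⟨v, X, h.eig_of_q h0 h1 (by rw [hv, hXξ]; exact pr_pr _ _), ⟨fun x => ?_, hXe⟩, hXξ, hXs⟩
  rw [R.C_apply hXC, ← hv, ρ_mul_apply]

/-- Operators commuting with all homogeneous right multiplications are left multiplications. -/
lemma Gr.exists_left (h : R.Gr ξ lam) (h0 : 0 < lam) (h1 : lam < 1) {Y : K →L[ℂ] K}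
    (hY1 : ∀ θ, Y (R.e ξ θ) = Y θ) (hY2 : ∀ θ, R.e ξ (Y θ) = Y θ)
    (hY : ∀ (k : ℤ) v z, R.Eig ξ ξ (lam ^ k) v → R.IsR ξ v z → ∀ θ, Y (z θ) = z (Y θ)) :
    ∃ x, ∀ θ, Y θ = R.ρ x (R.e ξ θ) := by
  have a1 : ∀ z ∈ R.C, ⟪ξ, Y (z ξ)⟫_ℂ = ⟪ξ, z (Y ξ)⟫_ℂ := fun z hz => by
    have s1 := (innerSL ℂ (star Y ξ)).hasSum (h.hasSum h0 h1 (z ξ))
    have s2 := (Equiv.neg ℤ).hasSum_iff.mpr
      ((innerSL ℂ (Y ξ)).hasSum (h.hasSum h0 h1 (star z ξ))).star
    have : (fun k : ℤ => innerSL ℂ (star Y ξ) (R.q ξ (lam ^ k) (z ξ))) =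
        (fun k : ℤ => star (innerSL ℂ (Y ξ) (R.q ξ (lam ^ k) (star z ξ)))) ∘ Equiv.neg ℤ := by
      funext k
      obtain ⟨v, z', hv, hz', e1, e2⟩ := h.comp_C h0 h1 hz k
      simp only [Function.comp, Equiv.neg_apply, innerSL_apply_apply, Complex.star_def,
        inner_conj_symm]
      rw [← e1, ← e2, inner_star_left, inner_star_left, hY k v z' hv hz']
    rw [this] at s1
    have := s1.unique s2
    simp only [innerSL_apply_apply, Complex.star_def, inner_conj_symm] at this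
    rwa [inner_star_left, hY1, inner_e, hY2, inner_star_left] at this
  have a2 : ∀ z ∈ R.C, Y (z ξ) = R.e ξ (z (Y ξ)) := fun z hz => by
    rw [← hY2]
    refine h.e_eq fun k w hw => ?_
    have hk := zpow_pos h0 k
    obtain ⟨r, hr⟩ := hw.exists_isR hk
    obtain ⟨r', hr'⟩ := (hw.adj hk.ne').exists_isR (inv_pos.mpr hk)
    have := a1 (r' * z) (R.C.mul_mem hr'.mem_C hz)
    rw [mul_apply_eq_comp, mul_apply_eq_comp,
      hY (-k) _ r' ((hw.adj hk.ne').congr (zpow_neg _ _).symm) hr'] at this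
    rw [← hr.self, ← inner_star_right, ← inner_star_right r, IsR.star_eq hk.ne' hw hr hr',
      smul_apply, smul_apply, inner_smul_right, inner_smul_right, this]
  obtain ⟨x, hx⟩ := h.sep.exists_of_bound (θ := Y ξ) (norm_nonneg Y) fun y hy => by
    have hT : star (y * R.e ξ) * (y * R.e ξ) ∈ R.C :=
      R.C.mul_mem (star_mem (s := R.C) (R.C.mul_mem hy (R.e_mem ξ))) (R.C.mul_mem hy (R.e_mem ξ))
    obtain ⟨g, g1, g2, g3, -⟩ := exists_sqrt (star_mul_self_nonneg (y * R.e ξ))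
    have gC : g ∈ R.C := fun a => g3 _ (hT a)
    have ge : g * R.e ξ = R.e ξ * g := g3 _ (by
      have ee : R.e ξ * R.e ξ = R.e ξ := (pr_proj _).isIdempotentElem
      rw [star_mul, e_star, mul_assoc, mul_assoc, mul_assoc y, ee, ← mul_assoc (R.e ξ) (R.e ξ * _),
        ← mul_assoc (R.e ξ) (R.e ξ), ee, mul_assoc])
    have gn : ∀ θ, R.e ξ θ = θ → ‖g θ‖ = ‖y θ‖ := fun θ hθ => by
      have : ⟪g θ, g θ⟫_ℂ = ⟪y θ, y θ⟫_ℂ := by
        rw [← inner_star_right, g1, ← mul_apply_eq_comp, g2, mul_apply_eq_comp, inner_star_right,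
          mul_apply_eq_comp, hθ]
      rw [norm_eq_sqrt_re_inner (𝕜 := ℂ), this, ← norm_eq_sqrt_re_inner (𝕜 := ℂ)]
    rw [← gn _ (hY2 ξ), ← gn _ (R.e_self ξ), ← hY2 ξ, ← mul_apply_eq_comp, ge, mul_apply_eq_comp,
      ← a2 g gC]
    exact Y.le_opNorm _
  refine ⟨x, fun θ => ?_⟩
  rw [← hY1]
  refine h.ext (fun k w hw => ?_) θ
  obtain ⟨r, hr⟩ := hw.exists_isR (zpow_pos h0 k)
  rw [← hr.self, hY k w r hw hr, ← hx, hr.1, hr.self, ρ_mul_apply]

/-- Irreducibility of the bimodule. -/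
lemma Gr.irred {E : Type*} [AddCommGroup E] [Module ℂ E] {η : K} (h : R.Gr ξ lam)
    (h' : R.Gr η lam) (h0 : 0 < lam) (h1 : lam < 1) (hF : Fac A) (L : E →ₗ[ℂ] K)
    (hL : ∀ g, R.e ξ (L g) = L g)
    (hl : ∀ (k : ℤ) w, R.Eig η η (lam ^ k) w → ∀ g, ∃ g', R.ρ w (L g) = L g')
    (hr : ∀ (k : ℤ) v z, R.Eig ξ ξ (lam ^ k) v → R.IsR ξ v z → ∀ g, ∃ g', z (L g) = L g') :
    (∀ g, L g = 0) ∨ ∀ θ, (∀ g, ⟪L g, θ⟫_ℂ = 0) → R.e ξ θ = 0 := by
  have hY2 : ∀ θ, R.e ξ (pr L θ) = pr L θ := eq_comp_pr L (S := R.e ξ) (T := 1) hL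
  have hY1 : ∀ θ, pr L (R.e ξ θ) = pr L θ := fun θ => ext_inner_left ℂ fun a => by
    rw [← inner_pr, ← inner_e, hY2, inner_pr]
  obtain ⟨x, hx⟩ := h.exists_left h0 h1 hY1 hY2 fun k v z hv hz θ => by
    have hk := zpow_pos h0 k
    obtain ⟨r', hr'⟩ := (hv.adj hk.ne').exists_isR (inv_pos.mpr hk)
    refine (pr_semiconj L L z (fun g => ?_) (fun g => ?_) θ).symm
    · obtain ⟨g', hg⟩ := hr k v z hv hz g
      exact subset_closure ⟨g', hg.symm⟩
    · obtain ⟨g', hg⟩ := hr (-k) _ r' ((hv.adj hk.ne').congr (zpow_neg _ _).symm) hr' g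
      exact subset_closure ⟨((lam ^ k : ℝ) : ℂ) • g', by
        rw [IsR.star_eq hk.ne' hv hz hr', smul_apply, hg, map_smul]⟩
  obtain ⟨c, hc⟩ := hF x fun a => R.inj (by
    rw [map_mul, map_mul]
    refine h'.comm (fun k w hw θ => ?_) a
    have hk := zpow_pos h0 k
    have e1 := pr_semiconj L L (R.ρ w) (fun g => by
        obtain ⟨g', hg⟩ := hl k w hw g
        exact subset_closure ⟨g', hg.symm⟩)
      (fun g => by
        obtain ⟨g', hg⟩ := hl (-k) _ ((hw.adj hk.ne').congr (zpow_neg _ _).symm) g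
        exact subset_closure ⟨g', by rw [← hg, map_star]⟩) ξ
    rw [hx, hx, e_self, e_orb, ← ρ_mul_apply, ← ρ_mul_apply] at e1
    rw [← ρ_mul_apply, ← ρ_mul_apply, h.sep.eq e1])
  rcases eq_or_ne c 0 with rfl | hc0
  · left
    intro g
    rw [← pr_apply L g, hx, hc]; simp
  · right
    intro θ hθ
    have := pr_eq_zero L hθ
    rw [hx, hc, map_smul, map_one, smul_apply, one_apply_eq_self, smul_eq_zero] at this
    exact this.resolve_left hc0

end Rep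

end Pool.Agent.P.MP_aee195_lc
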