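import Mathlib

set_option autoImplicit false

namespace Pool.Agent.P.MP_aee195_lc

open Filter Topology MeasureTheory

universe u v

variable {A : Type v} [Ring A] [StarRing A] [Algebra ℂ A]
  {H : Type u} [NormedAddCommGroup H] [InnerProductSpace ℂ H]

/-- Faithful normal state on A, where A acts on H through ι. -/
def IsFNState (ι : A → H →L[ℂ] H) (φ : A → ℂ) : Prop :=
  (∃ ξ : ℕ → H, HasSum (fun n => ‖ξ n‖ ^ 2) 1 ∧
    ∀ x, HasSum (fun n => inner ℂ (ξ n) (ι x (ξ n))) (φ x)) ∧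
  ∀ x, φ (star x * x) = 0 → x = 0

/-- σ is the modular automorphism group of φ: the weakly continuous one-parameter group of
star-automorphisms for which φ satisfies the modular (KMS) condition. -/
def IsModularGroup (ι : A → H →L[ℂ] H) (φ : A → ℂ) (σ : ℝ → (A ≃⋆ₐ[ℂ] A)) : Prop :=
  (∀ s t x, σ (s + t) x = σ s (σ t x)) ∧
  (∀ x (ζ η : H), Continuous fun t => inner ℂ η (ι (σ t x) ζ)) ∧
  (∀ t x, φ (σ t x) = φ x) ∧
  ∀ x y, ∃ F : ℂ → ℂ, ContinuousOn F {z | 0 ≤ z.im ∧ z.im ≤ 1} ∧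
    DifferentiableOn ℂ F {z | 0 < z.im ∧ z.im < 1} ∧
    (∃ C : ℝ, ∀ z : ℂ, 0 ≤ z.im → z.im ≤ 1 → ‖F z‖ ≤ C) ∧
    ∀ t : ℝ, F t = φ (σ t x * y) ∧ F (t + Complex.I) = φ (y * σ t x)

/-- Arveson spectrum of σ on the corner e A e. -/
def arvesonSp (ι : A → H →L[ℂ] H) (σ : ℝ → (A ≃⋆ₐ[ℂ] A)) (e : A) : Set ℝ :=
  {p | ∀ f : ℝ → ℂ, Integrable f →
    (∀ x (ζ η : H), ∫ t, f t * inner ℂ η (ι (σ t (e * x * e)) ζ) = 0) →
    ∫ t, f t * Complex.exp (Complex.I * p * t) = 0}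

/-- Connes spectrum of σ. -/
def connesSp (ι : A → H →L[ℂ] H) (σ : ℝ → (A ≃⋆ₐ[ℂ] A)) : Set ℝ :=
  {p | ∀ e, IsStarProjection e → e ≠ 0 → (∀ t, σ t e = e) → p ∈ arvesonSp ι σ e}

/-- A is a factor whose modular (Connes) spectrum is (log lam) Z. -/
def IsFactorIII (ι : A → H →L[ℂ] H) (lam : ℝ) : Prop :=
  (∀ z : A, (∀ x, z * x = x * z) → ∃ c : ℂ, z = c • (1 : A)) ∧
  ∀ ω σ, IsFNState ι ω → IsModularGroup ι ω σ →
    connesSp ι σ = {p | ∃ k : ℤ, p = k * Real.log lam}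

/-- Periodic faithful normal state. -/
def IsPeriodicState (ι : A → H →L[ℂ] H) (lam : ℝ) (φ : A → ℂ) : Prop :=
  IsFNState ι φ ∧ ∃ σ, IsModularGroup ι φ σ ∧ ∀ x, σ (2 * Real.pi / |Real.log lam|) x = x

/-- Bounded sequences tending to 0 star-strongly along U. -/
def Null (ι : A → H →L[ℂ] H) (ψ : A → ℂ) (U : Ultrafilter ℕ) (x : ℕ → A) : Prop :=
  (∃ C : ℝ, ∀ n, ‖ι (x n)‖ ≤ C) ∧
    Tendsto (fun n => ψ (star (x n) * x n + x n * star (x n))) U (𝓝 0)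

/-- The multiplier algebra; the Ocneanu ultrapower is Mult / Null. -/
def Mult (ι : A → H →L[ℂ] H) (ψ : A → ℂ) (U : Ultrafilter ℕ) (x : ℕ → A) : Prop :=
  (∃ C : ℝ, ∀ n, ‖ι (x n)‖ ≤ C) ∧ ∀ y, Null ι ψ U y → Null ι ψ U (x * y) ∧ Null ι ψ U (y * x)

/-- π lifts a unital state preserving star-homomorphism from (A, φ) to the Ocneanu ultrapower of
(A, ψ). -/
def IsUltraHom (ι : A → H →L[ℂ] H) (φ ψ : A → ℂ) (U : Ultrafilter ℕ) (π : A → ℕ → A) : Prop :=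
  (∀ a, Mult ι ψ U (π a)) ∧ Null ι ψ U (π 1 - 1) ∧
  (∀ a b, Null ι ψ U (π (a + b) - (π a + π b))) ∧
  (∀ (c : ℂ) a, Null ι ψ U (π (c • a) - c • π a)) ∧
  (∀ a b, Null ι ψ U (π (a * b) - π a * π b)) ∧
  (∀ a, Null ι ψ U (π (star a) - star (π a))) ∧
  ∀ a, Tendsto (fun n => ψ (π a n)) U (𝓝 (φ a))

/-- π ∘ E is a state preserving conditional expectation of the ultrapower onto π(A). -/
def IsExpectation (ι : A → H →L[ℂ] H) (φ ψ : A → ℂ) (U : Ultrafilter ℕ) (π : A → ℕ → A)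
    (E : (ℕ → A) → A) : Prop :=
  (∀ x, Null ι ψ U x → E x = 0) ∧ E 1 = 1 ∧
  (∀ x y, Mult ι ψ U x → Mult ι ψ U y → E (x + y) = E x + E y) ∧
  (∀ (c : ℂ) x, Mult ι ψ U x → E (c • x) = c • E x) ∧
  (∀ a b x, Mult ι ψ U x → E (π a * x * π b) = a * E x * b) ∧
  (∀ x, Mult ι ψ U x → (ι (E (star x * x))).IsPositive) ∧
  ∀ x, Mult ι ψ U x → Tendsto (fun n => ψ (x n)) U (𝓝 (φ (E x)))

end Pool.Agent.P.MP_aee195_lc
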