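import Pool.Agent.P.MP_aee195_lc.Defs

set_option autoImplicit false

namespace Pool.Agent.P.MP_aee195_lc

open MeasureTheory

universe u v

/-- Terms in n variables: star-algebra operations, the modular automorphisms and their
integrals against integrable functions. -/
inductive Term (n : ℕ) : Type
  | var (i : Fin n) : Term n
  | one : Term n
  | add (s t : Term n) : Term n
  | smul (c : ℂ) (t : Term n) : Term n
  | star (t : Term n) : Term n
  | mul (s t : Term n) : Term n
  | mod (r : ℝ) (t : Term n) : Term n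
  | smear (f : ℝ → ℂ) (hf : Integrable f) (t : Term n) : Term n

variable {A : Type v} [Ring A] [StarRing A] [Algebra ℂ A]
  {H : Type u} [NormedAddCommGroup H] [InnerProductSpace ℂ H]

/-- The weak integral of f(t) σ_t(x). -/
noncomputable def smearOp (ι : A → H →L[ℂ] H) (σ : ℝ → (A ≃⋆ₐ[ℂ] A)) (f : ℝ → ℂ) (x : A) : A :=
  haveI : Nonempty A := ⟨0⟩
  Classical.epsilon fun y => ∀ ζ η : H,
    inner ℂ η (ι y ζ) = ∫ t, f t * inner ℂ η (ι (σ t x) ζ)

/-- Interpretation of terms. -/
noncomputable def evalTerm (ι : A → H →L[ℂ] H) (σ : ℝ → (A ≃⋆ₐ[ℂ] A)) {n : ℕ} (x : Fin n → A)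
    (t : Term n) : A :=
  Term.rec (motive := fun _ => A) x 1 (fun _ _ a b => a + b) (fun c _ a => c • a)
    (fun _ a => star a) (fun _ _ a b => a * b) (fun r _ a => σ r a)
    (fun f _ _ a => smearOp ι σ f a) t

/-- Sorts: the operator norm ball of radius r, or (flag true) the totally r-bounded elements. -/
def InSort (ι : A → H →L[ℂ] H) (φ : A → ℂ) (flag : Bool) (r : ℝ) (a : A) : Prop :=
  ‖ι a‖ ≤ r ∧ (flag = true → ∀ b,
    (φ (star (b * a) * (b * a))).re ≤ r ^ 2 * (φ (star b * b)).re ∧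
    (φ (star (b * star a) * (b * star a))).re ≤ r ^ 2 * (φ (star b * b)).re)

/-- The norm giving the metric of the language. -/
noncomputable def starNorm (φ : A → ℂ) (a : A) : ℝ :=
  ⨅ y : A, Real.sqrt ((φ (star y * y)).re + (φ ((a - y) * star (a - y))).re)

/-- Value of the universal sentence sup_x F(atomic formulas of t_1(x), ..., t_m(x)). -/
noncomputable def univVal (ι : A → H →L[ℂ] H) (φ : A → ℂ) (σ : ℝ → (A ≃⋆ₐ[ℂ] A)) {n m : ℕ}
    (flag : Fin n → Bool) (r : Fin n → ℝ) (t : Fin m → Term n) (F : (Fin m → ℂ × ℝ) → ℝ) : EReal :=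
  ⨆ x ∈ {x : Fin n → A | ∀ i, InSort ι φ (flag i) (r i) (x i)},
    ((F fun j => (φ (evalTerm ι σ x (t j)), starNorm φ (evalTerm ι σ x (t j))) : ℝ) : EReal)

end Pool.Agent.P.MP_aee195_lc
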