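import Mathlib

set_option autoImplicit false

namespace Pool.Agent.P.MP_aee195_lc

open Filter Topology Complex

/-- A bounded analytic function on the strip with constant boundary values. -/
lemma strip_const (G : ℂ → ℂ) (h1 : ContinuousOn G {z | 0 ≤ z.im ∧ z.im ≤ 1})
    (h2 : DifferentiableOn ℂ G {z | 0 < z.im ∧ z.im < 1}) {C : ℝ}
    (h3 : ∀ z : ℂ, 0 ≤ z.im → z.im ≤ 1 → ‖G z‖ ≤ C) {a b : ℂ} (h4 : ∀ t : ℝ, G t = a)
    (h5 : ∀ t : ℝ, G (t + I) = b) : a = b := by
  set f : ℂ → ℂ := fun w => G (I * w) - a with hf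
  have hc : ContinuousOn f (HadamardThreeLines.verticalClosedStrip 0 1) := by
    refine ContinuousOn.sub (h1.comp (by fun_prop) fun w hw => ?_) continuousOn_const
    simpa [HadamardThreeLines.verticalClosedStrip] using hw
  have hd : DiffContOnCl ℂ f (HadamardThreeLines.verticalStrip 0 1) := by
    refine ⟨DifferentiableOn.sub (h2.comp (by fun_prop) fun w hw => ?_)
      (differentiableOn_const _), ?_⟩
    · simpa [HadamardThreeLines.verticalStrip] using hw
    · rw [HadamardThreeLines.verticalStrip, closure_preimage_re, closure_Ioo zero_ne_one]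
      exact hc
  have hb : ∀ w ∈ HadamardThreeLines.verticalClosedStrip 0 1, ‖f w‖ ≤ C + ‖a‖ := fun w hw => by
    have hw' : 0 ≤ w.re ∧ w.re ≤ 1 := by simpa [HadamardThreeLines.verticalClosedStrip] using hw
    exact (norm_sub_le _ _).trans (by
      have := h3 (I * w) (by simpa using hw'.1) (by simpa using hw'.2)
      linarith)
  have hz : ∀ s : ℝ, s ∈ Set.Ico (0 : ℝ) 1 → f s = 0 := fun s hs => by
    have := HadamardThreeLines.norm_le_interp_of_mem_verticalClosedStrip₀₁' f (z := s) (a := 0)
      (b := C + ‖a‖) (by simp [HadamardThreeLines.verticalClosedStrip, hs.1, hs.2.le]) hd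
      ⟨C + ‖a‖, by rintro _ ⟨w, hw, rfl⟩; exact hb w hw⟩
      (fun w hw => by
        have hw' : w.re = 0 := by simpa using hw
        have : I * w = ((-w.im : ℝ) : ℂ) := by
          apply Complex.ext <;> simp [hw']
        simp only [hf, this, h4, sub_self, norm_zero, le_refl])
      (fun w hw => hb w (by
        have hw' : w.re = 1 := by simpa using hw
        simp [HadamardThreeLines.verticalClosedStrip, hw']))
    rw [ofReal_re, Real.zero_rpow (by linarith [hs.2]), zero_mul] at this
    exact norm_le_zero_iff.mp this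
  have hc2 : ContinuousOn (fun s : ℝ => f s) (Set.Icc 0 1) :=
    hc.comp (by fun_prop) fun s hs => by simpa [HadamardThreeLines.verticalClosedStrip] using hs
  have h1' : f (1 : ℝ) = 0 := by
    have := (Set.EqOn.of_subset_closure (f := fun s : ℝ => f s) (g := fun _ => 0)
      (s := Set.Ico 0 1) (t := Set.Icc 0 1) hz hc2 continuousOn_const Set.Ico_subset_Icc_self
      (by rw [closure_Ico zero_ne_one])) (Set.right_mem_Icc.mpr zero_le_one)
    exact this
  have := h5 0
  simp only [hf, ofReal_one, mul_one] at h1'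
  simp only [ofReal_zero, zero_add] at this
  rw [this] at h1'
  exact (sub_eq_zero.mp h1').symm

/-- Uniqueness for Fourier coefficients of continuous periodic functions. -/
lemma fourier_unique {T l : ℝ} (hT : 0 < T) (hl : l * T = -(2 * Real.pi)) (f : ℝ → ℂ)
    (hf : Continuous f) (hp : Function.Periodic f T)
    (h : ∀ k : ℤ, ∫ t in (0 : ℝ)..T, exp (I * (k * l) * t) * f t = 0) : f 0 = 0 := by
  have : Fact (0 < T) := ⟨hT⟩
  let F : C(AddCircle T, ℂ) := ⟨hp.lift, continuous_coinduced_dom.mpr hf⟩
  have hF : ∀ x : ℝ, F x = f x := fun x => rfl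
  have h0 : ∀ n, fourierCoeff F n = 0 := fun n => by
    rw [fourierCoeff_eq_intervalIntegral _ _ 0, zero_add]
    have : ∀ x : ℝ, fourier (-n) (x : AddCircle T) • F x = exp (I * (n * l) * x) * f x := by
      intro x
      rw [fourier_coe_apply, hF, smul_eq_mul]
      congr 2
      have hT' : (T : ℂ) ≠ 0 := by exact_mod_cast hT.ne'
      have hl' : (l : ℂ) * T = -(2 * Real.pi) := by exact_mod_cast hl
      field_simp
      push_cast
      linear_combination (-(n : ℂ) * x) * hl'
    simp only [this, h n, smul_zero]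
  have hs := hasSum_fourier_series_of_summable (f := F) (by
    rw [show fourierCoeff F = 0 from funext h0]; exact summable_zero)
  simp only [h0, zero_smul] at hs
  have := hs.unique hasSum_zero
  rw [← hF, this]; rfl

end Pool.Agent.P.MP_aee195_lc
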