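import Pool.Agent.P.MP_aee195_lc.Cmp
import Pool.Agent.P.MP_aee195_lc.Scal
import Pool.Agent.P.MP_aee195_lc.Defs

set_option autoImplicit false

namespace Pool.Agent.P.MP_aee195_lc

open Filter Topology Complex MeasureTheory
open scoped InnerProductSpace

variable {A : Type*} [Ring A] [StarRing A] [Algebra ℂ A]
  {K : Type*} [NormedAddCommGroup K] [InnerProductSpace ℂ K] [CompleteSpace K]
  {K' : Type*} [NormedAddCommGroup K'] [InnerProductSpace ℂ K'] [CompleteSpace K']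

namespace Rep

/-- Star-homomorphisms are contractive. -/
lemma norm_hom_le (R : Rep A K) (τ : A →⋆ₐ[ℂ] (K' →L[ℂ] K')) (x : A) : ‖τ x‖ ≤ ‖R.ρ x‖ := by
  obtain ⟨g, hg1, hg2, hg3, -⟩ := exists_sqrt (nonneg_norm_sq_sub (R.ρ x))
  obtain ⟨b, rfl⟩ := R.bic g fun y hy => (hg3 y (by
    rw [sub_mul, mul_sub, smul_mul_assoc, mul_smul_comm, one_mul, mul_one, ← map_star,
      ← map_mul, hy])).symm
  have hbs : star b = b := R.inj (by rw [map_star, hg1])
  have hbb : b * b = ((‖R.ρ x‖ ^ 2 : ℝ) : ℂ) • 1 - x * star x :=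
    R.inj (by rw [map_mul, hg2]; simp [map_star])
  rw [← norm_star]
  refine ContinuousLinearMap.opNorm_le_bound _ (norm_nonneg _) fun θ => ?_
  have h1 : ⟪θ, τ (b * b) θ⟫_ℂ = ((‖τ b θ‖ ^ 2 : ℝ) : ℂ) := by
    rw [map_mul, mul_apply_eq_comp, ← inner_star_left, ← map_star, hbs,
      inner_self_eq_norm_sq_to_K]; simp
  have h2 : ⟪θ, τ (x * star x) θ⟫_ℂ = ((‖star (τ x) θ‖ ^ 2 : ℝ) : ℂ) := by
    rw [map_mul, mul_apply_eq_comp, ← inner_star_left, map_star,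
      inner_self_eq_norm_sq_to_K]; simp
  rw [hbb, map_sub, sub_apply, inner_sub_right, h2, map_smul, map_one, smul_apply,
    one_apply_eq_self, inner_smul_right, inner_self_eq_norm_sq_to_K] at h1
  have h3 : ‖R.ρ x‖ ^ 2 * ‖θ‖ ^ 2 - ‖star (τ x) θ‖ ^ 2 = ‖τ b θ‖ ^ 2 := by
    have : ((‖R.ρ x‖ ^ 2 * ‖θ‖ ^ 2 - ‖star (τ x) θ‖ ^ 2 : ℝ) : ℂ) = ((‖τ b θ‖ ^ 2 : ℝ) : ℂ) := by
      rw [← h1]; simp
    exact_mod_cast this
  refine (pow_le_pow_iff_left₀ (norm_nonneg _) (by positivity) two_ne_zero).mp ?_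
  nlinarith [sq_nonneg ‖τ b θ‖]

variable (R : Rep A K)

lemma exists_avg (F : ℝ → A) (hF : ∀ a b, Continuous fun t => ⟪a, R.ρ (F t) b⟫_ℂ) {c : ℝ}
    (hc : 0 ≤ c) (hb : ∀ t, ‖R.ρ (F t)‖ ≤ c) (g : ℝ → ℂ) (hg : Continuous g)
    (hg1 : ∀ t, ‖g t‖ ≤ 1) {T : ℝ} :
    ∃ y, ∀ a b, ⟪a, R.ρ y b⟫_ℂ = ∫ t in (0 : ℝ)..T, g t * ⟪a, R.ρ (F t) b⟫_ℂ := by
  have hi : ∀ a b, IntervalIntegrable (fun t => g t * ⟪a, R.ρ (F t) b⟫_ℂ) volume 0 T :=
    fun a b => (hg.mul (hF a b)).intervalIntegrable _ _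
  have : R.IsForm (c * |T|) fun a b => ∫ t in (0 : ℝ)..T, g t * ⟪a, R.ρ (F t) b⟫_ℂ := by
    refine ⟨fun a b d => ?_, fun a r b => ?_, fun a b d => ?_, fun a r b => ?_, fun a b => ?_,
      fun y hy a b => ?_⟩
    · simp only [map_add, inner_add_right, mul_add]
      exact intervalIntegral.integral_add (hi a b) (hi a d)
    · simp only [map_smul, inner_smul_right]
      rw [← intervalIntegral.integral_const_mul]
      congr 1; funext t; ring
    · simp only [inner_add_left, mul_add]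
      exact intervalIntegral.integral_add (hi a d) (hi b d)
    · simp only [inner_smul_left]
      rw [← intervalIntegral.integral_const_mul]
      congr 1; funext t; ring
    · have := intervalIntegral.norm_integral_le_of_norm_le_const (a := 0) (b := T)
        (C := c * ‖a‖ * ‖b‖) (f := fun t => g t * ⟪a, R.ρ (F t) b⟫_ℂ) (fun t _ => by
          rw [norm_mul]
          have h1 := (R.isForm_form (hb t)).2.2.2.2.1 a b
          have h2 := hg1 t
          simp only [form] at h1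
          nlinarith [norm_nonneg (g t), norm_nonneg ⟪a, R.ρ (F t) b⟫_ℂ])
      rw [sub_zero] at this
      calc _ ≤ _ := this
        _ = _ := by ring
    · simp only [inner_star_left, R.C_apply hy]
  obtain ⟨y, hy, -⟩ := this.exists (by positivity)
  exact ⟨y, fun a b => congrFun (congrFun hy a) b⟩

/-- The graded structure coming from a periodic state. -/
structure Gr (ξ : K) (lam : ℝ) : Prop where
  sep : R.Sep ξ
  dense : ∀ θ₁ ζ₁ θ₂ ζ₂ : K, (∀ (k : ℤ) w, R.Eig ξ ξ (lam ^ k) w →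
    ⟪θ₁, R.ρ w ζ₁⟫_ℂ = ⟪θ₂, R.ρ w ζ₂⟫_ℂ) → ∀ a, ⟪θ₁, R.ρ a ζ₁⟫_ℂ = ⟪θ₂, R.ρ a ζ₂⟫_ℂ
  full : ∀ (k : ℤ) f, IsStarProjection f → f ≠ 0 → R.Eig ξ ξ 1 f →
    ∃ w, R.Eig ξ ξ (lam ^ k) w ∧ f * w * f ≠ 0

variable {R}

lemma Sep.eq_of_vs {ξ : K} (h : R.Sep ξ) {a b : A} (hab : ∀ y, R.vs ξ (y * a) = R.vs ξ (y * b)) :
    a = b := by
  have h1 : R.vs ξ (star (a - b) * (a - b)) = 0 := by rw [mul_sub, vs_sub, hab, sub_self]
  rw [vs_star_self] at h1
  have h2 : ‖R.ρ (a - b) ξ‖ ^ 2 = 0 := by exact_mod_cast h1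
  exact sub_eq_zero.mp (h _ (by simpa using h2))

lemma eig_of_kms {ξ : K} {σ : ℝ → (A ≃⋆ₐ[ℂ] A)} (hσ : IsModularGroup R.ρ (R.vs ξ) σ) {κ : ℝ}
    {x : A} (hx : ∀ t, σ t x = exp (-(I * κ * t)) • x) : R.Eig ξ ξ (Real.exp κ) x := by
  intro y
  obtain ⟨F, h1, h2, ⟨C, h3⟩, h4⟩ := hσ.2.2.2 x y
  have := strip_const (fun z => F z * exp (I * κ * z)) (h1.mul (by fun_prop))
    (h2.mul (by fun_prop)) (C := C * Real.exp |κ|) (fun z hz0 hz1 => by
      rw [norm_mul, norm_exp]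
      have h5 : (I * κ * z).re ≤ |κ| := by
        have : (I * κ * z).re = -κ * z.im := by simp
        rw [this]
        have := neg_le_abs κ
        have := le_abs_self κ
        rcases le_total 0 κ with h | h <;> nlinarith
      exact mul_le_mul (h3 z hz0 hz1) (Real.exp_le_exp.mpr h5) (Real.exp_pos _).le
        ((norm_nonneg _).trans (h3 z hz0 hz1)))
    (a := R.vs ξ (x * y)) (b := exp (-κ) * R.vs ξ (y * x))
    (fun t => by
      rw [(h4 t).1, hx, smul_mul_assoc, vs_smul, mul_comm, ← mul_assoc, ← exp_add]; simp)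
    (fun t => by
      rw [(h4 t).2, hx, mul_smul_comm, vs_smul, mul_comm, ← mul_assoc, ← exp_add]
      congr 2
      linear_combination (κ : ℂ) * I_mul_I)
  rw [this, ← mul_assoc, ofReal_exp, ← exp_add]; simp

theorem gr_of_periodic' {ξ : K} (hs : R.Sep ξ) {lam : ℝ} (h0 : 0 < lam) (h1 : lam < 1)
    {σ : ℝ → (A ≃⋆ₐ[ℂ] A)} (hσ : IsModularGroup R.ρ (R.vs ξ) σ)
    (hper : ∀ x, σ (2 * Real.pi / |Real.log lam|) x = x)
    (hΓ : ∀ k : ℤ, k * Real.log lam ∈ connesSp R.ρ σ) : R.Gr ξ lam ∧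
      ∀ (k : ℤ) w, R.Eig ξ ξ (lam ^ k) w → ∀ t : ℝ,
        σ t w = exp (-(I * ((k * Real.log lam : ℝ) : ℂ) * t)) • w := by
  set l := Real.log lam with hl
  have hl0 : l < 0 := Real.log_neg h0 h1
  set T := 2 * Real.pi / |l| with hT
  have hT0 : 0 < T := div_pos (by positivity) (abs_pos.mpr hl0.ne)
  have hlT : l * T = -(2 * Real.pi) := by
    rw [hT, abs_of_neg hl0]; field_simp [hl0.ne]
  obtain ⟨hg, hw, hinv, -⟩ := id hσ
  have hσ0 : ∀ x, σ 0 x = x := fun x => EquivLike.injective (σ 0) (by rw [← hg, add_zero])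
  have hp : ∀ t x, σ (t + T) x = σ t x := fun t x => by rw [hg, hper]
  have hep : ∀ (k : ℤ) (t : ℝ), exp (I * (k * l) * (t + T : ℝ)) = exp (I * (k * l) * t) := by
    intro k t
    have h : (l : ℂ) * T = -(2 * Real.pi) := by exact_mod_cast hlT
    have : I * (k * l) * (t + T : ℝ) = I * (k * l) * t + (-k : ℤ) * (2 * Real.pi * I) := by
      push_cast; linear_combination (I * k) * h
    rw [this, exp_add, exp_int_mul_two_pi_mul_I, mul_one]
  -- Fourier components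
  have hcomp : ∀ (k : ℤ) x, ∃ y, (∀ a b, ⟪a, R.ρ y b⟫_ℂ =
      ∫ t in (0 : ℝ)..T, exp (I * (k * l) * t) * ⟪a, R.ρ (σ t x) b⟫_ℂ) ∧
      ∀ s, σ s y = exp (-(I * ((k * l : ℝ) : ℂ) * s)) • y := by
    intro k x
    obtain ⟨y, hy⟩ := R.exists_avg (fun t => σ t x) (fun a b => hw x b a) (norm_nonneg _)
      (fun t => R.norm_hom_le (R.ρ.comp (σ t : A →⋆ₐ[ℂ] A)) x)
      (fun t => exp (I * (k * l) * t)) (by fun_prop)
      (fun t => by rw [norm_exp]; simp) (T := T)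
    refine ⟨y, hy, fun s => hs.eq_of_vs fun z => ?_⟩
    have e1 : z * σ s y = σ s (σ (-s) z * y) := by
      rw [map_mul, ← hg, add_neg_cancel, hσ0]
    have e2 : ∀ t, ⟪R.ρ (star (σ (-s) z)) ξ, R.ρ (σ t x) ξ⟫_ℂ =
        ⟪R.ρ (star z) ξ, R.ρ (σ (t + s) x) ξ⟫_ℂ := fun t => by
      rw [← vs_mul, ← vs_mul, ← hinv s, map_mul, ← hg, ← hg, add_neg_cancel, hσ0, add_comm]
    rw [e1, hinv, mul_smul_comm, vs_smul, vs_mul, vs_mul, hy, hy]
    simp only [e2]
    have hper2 : Function.Periodic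
        (fun t : ℝ => exp (I * (k * l) * t) * ⟪R.ρ (star z) ξ, R.ρ (σ t x) ξ⟫_ℂ) T :=
      fun t => by simp only [hep, hp]
    have e3 := hper2.intervalIntegral_add_eq s 0
    rw [zero_add] at e3
    have e4 := intervalIntegral.integral_comp_add_right (a := 0) (b := T)
      (fun t : ℝ => exp (I * (k * l) * t) * ⟪R.ρ (star z) ξ, R.ρ (σ t x) ξ⟫_ℂ) s
    rw [zero_add, add_comm T s, e3] at e4
    rw [← e4, ← intervalIntegral.integral_const_mul]
    congr 1; funext t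
    rw [← mul_assoc (exp _), ← exp_add]
    congr 2
    push_cast; ring
  have heig : ∀ (k : ℤ) y, (∀ s, σ s y = exp (-(I * ((k * l : ℝ) : ℂ) * s)) • y) →
      R.Eig ξ ξ (lam ^ k) y := fun k y hy =>
    (eig_of_kms hσ hy).congr (by rw [hl, ← Real.log_zpow, Real.exp_log (zpow_pos h0 k)])
  have hdense : ∀ θ₁ ζ₁ θ₂ ζ₂ : K, (∀ (k : ℤ) w,
      (∀ s, σ s w = exp (-(I * ((k * l : ℝ) : ℂ) * s)) • w) →
      ⟪θ₁, R.ρ w ζ₁⟫_ℂ = ⟪θ₂, R.ρ w ζ₂⟫_ℂ) → ∀ a, ⟪θ₁, R.ρ a ζ₁⟫_ℂ = ⟪θ₂, R.ρ a ζ₂⟫_ℂ := by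
    intro θ₁ ζ₁ θ₂ ζ₂ h a
    have := fourier_unique hT0 hlT
      (fun t => ⟪θ₁, R.ρ (σ t a) ζ₁⟫_ℂ - ⟪θ₂, R.ρ (σ t a) ζ₂⟫_ℂ) ((hw _ _ _).sub (hw _ _ _))
      (fun t => by simp only [hp]) (fun k => by
        obtain ⟨y, hy1, hy2⟩ := hcomp k a
        have := h k y hy2
        rw [hy1, hy1] at this
        simp only [mul_sub]
        rw [intervalIntegral.integral_sub, this, sub_self]
        · exact (Continuous.mul (by fun_prop) (hw _ _ _)).intervalIntegrable _ _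
        · exact (Continuous.mul (by fun_prop) (hw _ _ _)).intervalIntegrable _ _)
    simpa [hσ0, sub_eq_zero] using this
  have hsig : ∀ (k : ℤ) f, R.Eig ξ ξ (lam ^ k) f → ∀ t : ℝ,
      σ t f = exp (-(I * ((k * l : ℝ) : ℂ) * t)) • f := fun k f hf1 t => hs.eq_of_vs fun z => by
    have := hdense ξ (R.ρ (σ t f) ξ) ξ (R.ρ (exp (-(I * ((k * l : ℝ) : ℂ) * t)) • f) ξ)
      (fun j w hw => by
      rw [← ρ_mul_apply, ← ρ_mul_apply]
      change R.vs ξ _ = R.vs ξ _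
      have e1 : w * σ t f = σ t (σ (-t) w * f) := by
        rw [map_mul, ← hg, add_neg_cancel, hσ0]
      rw [e1, hinv, hw, smul_mul_assoc, vs_smul, mul_smul_comm, vs_smul]
      rcases eq_or_ne j (-k) with rfl | hj
      · congr 2; push_cast; ring
      · have e2 := heig j w hw f
        have e5 := hf1 w
        rw [e2, ← mul_assoc, ← ofReal_mul, ← zpow_add₀ h0.ne'] at e5
        have e3 : (lam ^ (k + j) : ℝ) ≠ 1 := by
          rw [← zpow_zero lam]
          exact fun h => hj (by have := zpow_right_injective₀ h0 h1.ne h; omega)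
        have e4 : R.vs ξ (w * f) = 0 := by
          have : (1 - ((lam ^ (k + j) : ℝ) : ℂ)) * R.vs ξ (w * f) = 0 := by linear_combination e5
          refine (mul_eq_zero.mp this).resolve_left fun h => e3 ?_
          exact_mod_cast (sub_eq_zero.mp h).symm
        rw [e4, mul_zero, mul_zero]) z
    rwa [← ρ_mul_apply, ← ρ_mul_apply] at this
  refine ⟨⟨hs, fun θ₁ ζ₁ θ₂ ζ₂ h => hdense _ _ _ _ fun k w hw => h k w (heig k w hw), ?_⟩, hsig⟩
  intro k f hf hf0 hf1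
  have hfix : ∀ t, σ t f = f := fun t => by
    simpa using hsig 0 f (hf1.congr (zpow_zero lam).symm) t
  by_contra hcon
  push Not at hcon
  have ff : f * f = f := hf.isIdempotentElem
  have := hΓ (-k) f hf hf0 hfix ((Set.Ioc 0 T).indicator fun t => exp (I * (k * l) * t))
    ((integrable_indicator_iff measurableSet_Ioc).mpr
      ((Continuous.integrableOn_Icc (by fun_prop)).mono_set Set.Ioc_subset_Icc_self))
    (fun x a b => by
      obtain ⟨y, hy1, hy2⟩ := hcomp k (f * x * f)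
      have e1 : ⟪b, R.ρ (f * y * f) a⟫_ℂ = ⟪b, R.ρ y a⟫_ℂ := by
        rw [ρ_mul_apply, ρ_mul_apply, ← inner_star_left, hy1, hy1]
        congr 1; funext t
        rw [inner_star_left, ← ρ_mul_apply, ← ρ_mul_apply]
        have : f * σ t (f * x * f) * f = σ t (f * (f * x * f) * f) := by
          rw [map_mul (σ t) (f * (f * x * f)) f, map_mul (σ t) f (f * x * f), hfix]
        rw [this, ← mul_assoc f, ← mul_assoc f, ff, mul_assoc _ f f, ff]
      rw [hcon y (heig k y hy2), hy1, intervalIntegral.integral_of_le hT0.le,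
        ← integral_indicator measurableSet_Ioc] at e1
      simp only [map_zero, zero_apply, inner_zero_right] at e1
      rw [e1]
      congr 1; funext t
      by_cases ht : t ∈ Set.Ioc 0 T <;> simp [ht])
  have e2 : ∫ t, ((Set.Ioc 0 T).indicator fun t => exp (I * (k * l) * t)) t *
      exp (I * (((-k : ℤ) * l : ℝ) : ℂ) * t) = T := by
    have : ∀ t : ℝ, ((Set.Ioc 0 T).indicator fun t => exp (I * (k * l) * t)) t *
        exp (I * (((-k : ℤ) * l : ℝ) : ℂ) * t) = (Set.Ioc 0 T).indicator (fun _ => (1 : ℂ)) t := by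
      intro t
      by_cases ht : t ∈ Set.Ioc 0 T
      · simp only [Set.indicator_of_mem ht]
        rw [← exp_add]; push_cast; ring_nf; exact exp_zero
      · simp [ht]
    simp only [this]
    rw [integral_indicator measurableSet_Ioc]
    simp [hT0.le]
  rw [e2] at this
  exact hT0.ne' (by exact_mod_cast this)

theorem gr_of_periodic {ξ : K} (hs : R.Sep ξ) {lam : ℝ} (h0 : 0 < lam) (h1 : lam < 1)
    {σ : ℝ → (A ≃⋆ₐ[ℂ] A)} (hσ : IsModularGroup R.ρ (R.vs ξ) σ)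
    (hper : ∀ x, σ (2 * Real.pi / |Real.log lam|) x = x)
    (hΓ : ∀ k : ℤ, k * Real.log lam ∈ connesSp R.ρ σ) : R.Gr ξ lam :=
  (gr_of_periodic' hs h0 h1 hσ hper hΓ).1

end Rep

end Pool.Agent.P.MP_aee195_lc
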