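import Pool.Agent.P.MP_aee195_lc.Hilb

set_option autoImplicit false

namespace Pool.Agent.P.MP_aee195_lc

open Filter Topology
open scoped InnerProductSpace

variable {E : Type*} [AddCommGroup E] [Module ℂ E] {E' : Type*} [AddCommGroup E'] [Module ℂ E']
  {K : Type*} [NormedAddCommGroup K] [InnerProductSpace ℂ K] [CompleteSpace K]

omit [CompleteSpace K] in
lemma map_closure' (L : E →ₗ[ℂ] K) (L' : E' →ₗ[ℂ] K) (S : K →L[ℂ] K)
    (h : ∀ x, S (L x) ∈ closure (Set.range L')) {w : K} (hw : w ∈ closure (Set.range L)) :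
    S w ∈ closure (Set.range L') := by
  have : closure (Set.range L) ⊆ S ⁻¹' closure (Set.range L') :=
    closure_minimal (by rintro _ ⟨x, rfl⟩; exact h x) (isClosed_closure.preimage S.continuous)
  exact this hw

lemma pr_semiconj (L : E →ₗ[ℂ] K) (L' : E' →ₗ[ℂ] K) (S : K →L[ℂ] K)
    (h : ∀ x, S (L x) ∈ closure (Set.range L'))
    (h' : ∀ x, star S (L' x) ∈ closure (Set.range L)) (θ : K) : S (pr L θ) = pr L' (S θ) := by
  symm
  apply pr_eq_of L' (map_closure' L L' S h (pr_mem L θ))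
  intro x
  rw [← map_sub, ← inner_star_left]
  exact inner_sub_pr L θ (h' x)

lemma inner_pr (L : E →ₗ[ℂ] K) (a b : K) : ⟪pr L a, b⟫_ℂ = ⟪a, pr L b⟫_ℂ := by
  rw [← inner_star_left, pr_star]

omit [CompleteSpace K] in
lemma norm_le_of_inner (L : E →ₗ[ℂ] K) {b : K} (hb : b ∈ closure (Set.range L)) {D : ℝ}
    (hD : 0 ≤ D) (h : ∀ x, ‖⟪L x, b⟫_ℂ‖ ≤ D * ‖L x‖) : ‖b‖ ≤ D := by
  have : closure (Set.range L) ⊆ {w | ‖⟪w, b⟫_ℂ‖ ≤ D * ‖w‖} :=
    closure_minimal (by rintro _ ⟨x, rfl⟩; exact h x) (isClosed_le (by fun_prop) (by fun_prop))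
  have h2 := this hb
  simp only [Set.mem_ofPred_eq, inner_self_eq_norm_sq_to_K, norm_pow, norm_algebraMap',
    norm_norm] at h2
  rcases eq_or_lt_of_le (norm_nonneg b) with h0 | h0
  · rw [← h0]; exact hD
  · nlinarith

omit [CompleteSpace K] in
lemma eq_zero_of_le_closure (L : E →ₗ[ℂ] K) {θ : K} (hθ : θ ∈ closure (Set.range L)) {u : ℂ}
    {D : ℝ} (h : ∀ x, ‖u‖ ≤ D * ‖L x - θ‖) : u = 0 := by
  have : closure (Set.range L) ⊆ {w | ‖u‖ ≤ D * ‖w - θ‖} :=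
    closure_minimal (by rintro _ ⟨x, rfl⟩; exact h x) (isClosed_le (by fun_prop) (by fun_prop))
  simpa using this hθ

omit [CompleteSpace K] in
lemma inner_closure (L : E →ₗ[ℂ] K) (L' : E' →ₗ[ℂ] K) (h : ∀ x y, ⟪L x, L' y⟫_ℂ = 0) {a b : K}
    (ha : a ∈ closure (Set.range L)) (hb : b ∈ closure (Set.range L')) : ⟪a, b⟫_ℂ = 0 := by
  refine inner_zero_of_closure L (fun x => ?_) ha
  rw [← inner_conj_symm, inner_zero_of_closure L' (fun y => ?_) hb, map_zero]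
  rw [← inner_conj_symm, h, map_zero]

omit [CompleteSpace K] in
lemma norm_sum_sq {ι : Type*} (s : Finset ι) (a : ι → K)
    (h : ∀ i j, i ≠ j → ⟪a i, a j⟫_ℂ = 0) : ‖∑ i ∈ s, a i‖ ^ 2 = ∑ i ∈ s, ‖a i‖ ^ 2 := by
  classical
  induction s using Finset.induction_on with
  | empty => simp
  | insert i s hi ih =>
    rw [Finset.sum_insert hi, Finset.sum_insert hi, norm_add_sq (𝕜 := ℂ), ih, inner_sum,
      Finset.sum_eq_zero fun j hj => h i j (by rintro rfl; exact hi hj)]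
    simp

lemma exists_block {ι : Type*} (q B : ι → K →L[ℂ] K)
    (hq : ∀ i j a b, i ≠ j → ⟪q i a, q j b⟫_ℂ = 0) (hB : ∀ i j a b, i ≠ j → ⟪B i a, B j b⟫_ℂ = 0)
    {C : ℝ} (hC : 0 ≤ C) (hn : ∀ i a, ‖B i a‖ ≤ C * ‖a‖) :
    ∃ X : K →L[ℂ] K, (∀ i a, X (q i a) = B i (q i a)) ∧
      ∀ θ, (∀ i a, ⟪q i a, θ⟫_ℂ = 0) → X θ = 0 := by
  let L : (ι →₀ K) →ₗ[ℂ] K := Finsupp.lsum ℂ fun i => (q i : K →ₗ[ℂ] K)
  let L' : (ι →₀ K) →ₗ[ℂ] K := Finsupp.lsum ℂ fun i => (B i * q i : K →L[ℂ] K)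
  have hL : ∀ f, L f = ∑ i ∈ f.support, q i (f i) := fun f => rfl
  have hL' : ∀ f, L' f = ∑ i ∈ f.support, B i (q i (f i)) := fun f => rfl
  obtain ⟨X, h1, h2, -⟩ := exists_ext L L' hC fun f => by
    refine (pow_le_pow_iff_left₀ (norm_nonneg _) (by positivity) two_ne_zero).mp ?_
    rw [mul_pow, hL, hL', norm_sum_sq _ _ fun i j h => hq i j _ _ h,
      norm_sum_sq _ _ fun i j h => hB i j _ _ h, Finset.mul_sum]
    refine Finset.sum_le_sum fun i _ => ?_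
    rw [← mul_pow]
    exact pow_le_pow_left₀ (norm_nonneg _) (hn i _) 2
  refine ⟨X, fun i a => ?_, fun θ hθ => ?_⟩
  · simpa [L, L', mul_apply_eq_comp] using h1 (Finsupp.single i a)
  · rw [← h2, pr_eq_zero L fun f => ?_, map_zero]
    rw [hL, sum_inner, Finset.sum_eq_zero fun i _ => hθ i _]

lemma summable_proj {ι : Type*} (q : ι → K →L[ℂ] K)
    (hq : ∀ i j a b, i ≠ j → ⟪q i a, q j b⟫_ℂ = 0) (hq' : ∀ i a, ⟪q i a, a⟫_ℂ = ⟪q i a, q i a⟫_ℂ)
    (b : K) : Summable fun i => q i b := by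
  have h1 : Summable fun i => ‖q i b‖ ^ 2 := by
    refine summable_of_sum_le (c := ‖b‖ ^ 2) (fun i => by positivity) fun s => ?_
    have e1 := norm_sum_sq s (fun i => q i b) fun i j h => hq i j _ _ h
    have e2 : ⟪∑ i ∈ s, q i b, b⟫_ℂ = ((∑ i ∈ s, ‖q i b‖ ^ 2 : ℝ) : ℂ) := by
      rw [sum_inner]; simp [hq']
    have e3 := norm_inner_le_norm (𝕜 := ℂ) (∑ i ∈ s, q i b) b
    rw [e2, ← e1, Complex.norm_real, Real.norm_of_nonneg (by positivity)] at e3
    rw [← e1]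
    nlinarith [norm_nonneg (∑ i ∈ s, q i b), norm_nonneg b,
      sq_nonneg (‖∑ i ∈ s, q i b‖ - ‖b‖)]
  rw [summable_iff_vanishing_norm] at h1 ⊢
  intro ε hε
  obtain ⟨s, hs⟩ := h1 (ε ^ 2) (by positivity)
  refine ⟨s, fun t ht => ?_⟩
  have := hs t ht
  rw [← norm_sum_sq t (fun i => q i b) fun i j h => hq i j _ _ h,
    Real.norm_of_nonneg (by positivity)] at this
  exact lt_of_pow_lt_pow_left₀ 2 hε.le this

universe w

/-- Hilbert space completion of a positive form. -/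
lemma exists_hilbert {E : Type w} [AddCommGroup E] [Module ℂ E] (B : E → E → ℂ)
    (h1 : ∀ x y, (starRingEnd ℂ) (B y x) = B x y) (h2 : ∀ x, 0 ≤ (B x x).re)
    (h3 : ∀ x y z, B (x + y) z = B x z + B y z)
    (h4 : ∀ x y (r : ℂ), B (r • x) y = (starRingEnd ℂ) r * B x y) :
    ∃ (G : Type w) (_ : NormedAddCommGroup G) (_ : InnerProductSpace ℂ G) (_ : CompleteSpace G)
      (L : E →ₗ[ℂ] G), (∀ g, g ∈ closure (Set.range L)) ∧ ∀ x y, ⟪L x, L y⟫_ℂ = B x y := by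
  let _ : Inner ℂ E := ⟨B⟩
  let c : PreInnerProductSpace.Core ℂ E :=
    { conj_inner_symm := h1, re_inner_nonneg := h2, add_left := h3, smul_left := h4 }
  let _ : SeminormedAddCommGroup E := InnerProductSpace.Core.toSeminormedAddCommGroup (c := c)
  let _ : InnerProductSpace ℂ E := InnerProductSpace.ofCore c
  refine ⟨UniformSpace.Completion E, inferInstance, inferInstance, inferInstance,
    (UniformSpace.Completion.toComplL (𝕜 := ℂ) (E := E)).toLinearMap, fun g => ?_, fun x y => ?_⟩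
  · exact UniformSpace.Completion.denseRange_coe g
  · exact UniformSpace.Completion.inner_coe x y

end Pool.Agent.P.MP_aee195_lc
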