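import Pool.Agent.P.MP_aee195_lc.Fourier
import Pool.Agent.P.MP_aee195_lc.Hilb2

set_option autoImplicit false

namespace Pool.Agent.P.MP_aee195_lc

open Filter Topology
open scoped InnerProductSpace

variable {A : Type*} [Ring A] [StarRing A] [Algebra ℂ A]
  {K : Type*} [NormedAddCommGroup K] [InnerProductSpace ℂ K] [CompleteSpace K]

namespace Rep

variable (R : Rep A K)

/-- Eigen-elements as a subspace. -/
def Esub (ξ η : K) (c : ℝ) : Submodule ℂ A where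
  carrier := {x | R.Eig ξ η c x}
  add_mem' := Eig.add
  zero_mem' := Eig.zero ξ η c
  smul_mem' := fun r _ h => h.smul r

/-- Orbit map on eigen-elements. -/
noncomputable def eorb (ξ : K) (c : ℝ) : R.Esub ξ ξ c →ₗ[ℂ] K :=
  R.orb ξ ∘ₗ (R.Esub ξ ξ c).subtype

@[simp] lemma eorb_apply (ξ : K) (c : ℝ) (x : R.Esub ξ ξ c) : R.eorb ξ c x = R.ρ x.1 ξ := rfl

/-- Spectral projections of the modular operator. -/
noncomputable def q (ξ : K) (c : ℝ) : K →L[ℂ] K := pr (R.eorb ξ c)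

/-- The commutant as a representation. -/
noncomputable def comm : Rep R.C K where
  ρ := R.C.subtype
  inj := Subtype.val_injective
  bic := fun T hT => ⟨⟨T, fun a => (hT (R.ρ a) fun y => (y.2 a).symm).symm⟩, rfl⟩

/-- z is right multiplication by v. -/
def IsR (ξ : K) (v : A) (z : K →L[ℂ] K) : Prop :=
  (∀ x, z (R.ρ x ξ) = R.ρ (x * v) ξ) ∧ ∀ θ, z (R.e ξ θ) = z θ

lemma e_mem_closure (ξ θ : K) : R.e ξ θ ∈ closure (Set.range (R.orb ξ)) := pr_mem _ θ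

lemma e_ρ (ξ : K) (a : A) (θ : K) : R.e ξ (R.ρ a θ) = R.ρ a (R.e ξ θ) :=
  R.C_apply (R.e_mem ξ) a θ

lemma inner_q (ξ : K) (c : ℝ) (a b : K) : ⟪R.q ξ c a, b⟫_ℂ = ⟪a, R.q ξ c b⟫_ℂ := inner_pr _ a b

lemma e_q (ξ : K) (c : ℝ) (a : K) : R.e ξ (R.q ξ c a) = R.q ξ c a :=
  eq_comp_pr (R.eorb ξ c) (S := R.e ξ) (T := 1) (fun x => by simp) a

variable {R}

lemma Eig.mem {ξ : K} {c : ℝ} {x : A} (hx : R.Eig ξ ξ c x) :
    R.ρ x ξ ∈ closure (Set.range (R.eorb ξ c)) := subset_closure ⟨⟨x, hx⟩, rfl⟩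

lemma Eig.q_self {ξ : K} {c : ℝ} {x : A} (hx : R.Eig ξ ξ c x) : R.q ξ c (R.ρ x ξ) = R.ρ x ξ :=
  pr_of_mem _ hx.mem

lemma Eig.orth {ξ : K} {c d : ℝ} (hc : c ≠ 0) (hcd : c ≠ d) {x y : A} (hx : R.Eig ξ ξ c x)
    (hy : R.Eig ξ ξ d y) : ⟪R.ρ x ξ, R.ρ y ξ⟫_ℂ = 0 := by
  have h1 := hy (star x)
  rw [hx.adj hc y, vs_star_mul] at h1
  have h2 : (1 - (d : ℂ) * ((c⁻¹ : ℝ) : ℂ)) * ⟪R.ρ x ξ, R.ρ y ξ⟫_ℂ = 0 := by
    linear_combination h1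
  refine (mul_eq_zero.mp h2).resolve_left fun h => hcd ?_
  have h3 : 1 - d * c⁻¹ = 0 := by exact_mod_cast h
  field_simp at h3
  linarith

lemma q_orth {ξ : K} {c d : ℝ} (hc : c ≠ 0) (hcd : c ≠ d) (a b : K) :
    ⟪R.q ξ c a, R.q ξ d b⟫_ℂ = 0 :=
  inner_closure _ _ (fun x y => Eig.orth hc hcd x.2 y.2) (pr_mem _ a) (pr_mem _ b)

lemma Eig.q_ne {ξ : K} {c d : ℝ} (hc : c ≠ 0) (hcd : c ≠ d) {y : A} (hy : R.Eig ξ ξ d y) :
    R.q ξ c (R.ρ y ξ) = 0 := pr_eq_zero _ fun x => Eig.orth hc hcd x.2 hy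

lemma Eig.ρ_q {ξ : K} {c d : ℝ} (hd : d ≠ 0) {w : A} (hw : R.Eig ξ ξ d w) (θ : K) :
    R.ρ w (R.q ξ c θ) = R.q ξ (c * d) (R.ρ w θ) :=
  pr_semiconj _ _ _ (fun x => by
      simpa [mul_apply_eq_comp] using (hw.mul x.2).mem)
    (fun x => by
      simpa [mul_apply_eq_comp, map_star] using
        (((hw.adj hd).mul x.2).congr (mul_inv_cancel_right₀ hd c)).mem) θ

lemma IsR.ext {ξ : K} {S T : K →L[ℂ] K} (h : ∀ x, S (R.ρ x ξ) = T (R.ρ x ξ)) (θ : K) :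
    S (R.e ξ θ) = T (R.e ξ θ) := eq_comp_pr (R.orb ξ) h θ

lemma Eig.exists_isR {ξ : K} {c : ℝ} (hc : 0 < c) {v : A} (hv : R.Eig ξ ξ c v) :
    ∃ z, R.IsR ξ v z := by
  obtain ⟨z, h1, h2, -⟩ := exists_ext (R.orb ξ) (R.orb ξ ∘ₗ LinearMap.mulRight ℂ v)
    (C := Real.sqrt c * ‖R.ρ v‖) (by positivity) fun y => hv.right_bound hc y
  exact ⟨z, h1, h2⟩

lemma IsR.self {ξ : K} {v : A} {z : K →L[ℂ] K} (h : R.IsR ξ v z) : z ξ = R.ρ v ξ := by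
  simpa using h.1 1

lemma IsR.e_apply {ξ : K} {v : A} {z : K →L[ℂ] K} (h : R.IsR ξ v z) (θ : K) :
    R.e ξ (z θ) = z θ := by
  rw [← h.2]
  exact IsR.ext (S := R.e ξ * z) (fun x => by rw [mul_apply_eq_comp, h.1, e_orb]) θ

lemma IsR.mem_C {ξ : K} {v : A} {z : K →L[ℂ] K} (h : R.IsR ξ v z) : z ∈ R.C := fun a => by
  ext θ
  rw [mul_apply_eq_comp, mul_apply_eq_comp, ← h.2, ← h.2 θ, e_ρ]
  exact IsR.ext (S := z * R.ρ a) (T := R.ρ a * z) (fun x => by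
    rw [mul_apply_eq_comp, mul_apply_eq_comp, ← ρ_mul_apply, h.1, h.1, ← ρ_mul_apply,
      mul_assoc]) θ

lemma IsR.star_eq {ξ : K} {c : ℝ} (hc : c ≠ 0) {v : A} (hv : R.Eig ξ ξ c v) {z z' : K →L[ℂ] K}
    (h : R.IsR ξ v z) (h' : R.IsR ξ (star v) z') : star z = (c : ℂ) • z' := by
  ext θ
  refine ext_inner_left ℂ fun a => ?_
  rw [inner_star_right, smul_apply, ← h.2, ← h'.2, ← h'.e_apply, ← h.e_apply, inner_e]
  have e1 : ∀ x, ⟪z (R.ρ x ξ), R.e ξ θ⟫_ℂ = ⟪R.ρ x ξ, (c : ℂ) • z' (R.e ξ θ)⟫_ℂ := by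
    intro x
    have := eq_comp_pr (R.orb ξ) (S := innerSL ℂ (z (R.ρ x ξ)))
      (T := innerSL ℂ (R.ρ x ξ) ∘L ((c : ℂ) • z')) (fun y => by
        simp only [orb_apply, innerSL_apply_apply, ContinuousLinearMap.comp_apply, smul_apply,
          inner_smul_right]
        rw [h.1, h'.1, ← vs_star_mul, ← vs_star_mul, ← mul_assoc, hv.adj hc, star_mul,
          ← mul_assoc, ← mul_assoc]
        push_cast
        rw [mul_inv_cancel₀ (Complex.ofReal_ne_zero.mpr hc), one_mul]) θ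
    exact this
  have e2 := eq_comp_pr (R.orb ξ) (S := innerSL ℂ (R.e ξ θ) ∘L z)
    (T := innerSL ℂ ((c : ℂ) • z' (R.e ξ θ))) (fun y => by
      simp only [orb_apply, innerSL_apply_apply, ContinuousLinearMap.comp_apply]
      rw [← inner_conj_symm, e1, inner_conj_symm]) a
  simp only [innerSL_apply_apply, ContinuousLinearMap.comp_apply] at e2
  rw [← inner_conj_symm]
  change (starRingEnd ℂ) ⟪R.e ξ θ, z (pr (R.orb ξ) a)⟫_ℂ = _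
  rw [e2, inner_conj_symm, ← map_smul (R.e ξ), ← inner_e]; rfl

lemma IsR.q {ξ : K} {c d : ℝ} (hd : 0 < d) {v : A} (hv : R.Eig ξ ξ d v) {z : K →L[ℂ] K}
    (h : R.IsR ξ v z) (θ : K) : z (R.q ξ c θ) = R.q ξ (c * d) (z θ) := by
  obtain ⟨z', h'⟩ := (hv.adj hd.ne').exists_isR (inv_pos.mpr hd)
  refine pr_semiconj _ _ _ (fun x => ?_) (fun x => ?_) θ
  · rw [eorb_apply, h.1]
    exact ((Eig.mul x.2 hv).congr (mul_comm _ _)).mem
  · rw [eorb_apply, IsR.star_eq hd.ne' hv h h', smul_apply, h'.1, ← smul_apply, ← map_smul]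
    exact (((Eig.mul x.2 (hv.adj hd.ne')).congr (by field_simp)).smul _).mem

lemma lam_ne {lam : ℝ} (h0 : 0 < lam) (h1 : lam < 1) {i j : ℤ} (h : i ≠ j) : lam ^ i ≠ lam ^ j :=
  fun h' => h (zpow_right_injective₀ h0 h1.ne h')

section Gr

variable {ξ : K} {lam : ℝ}

lemma Gr.ext (h : R.Gr ξ lam) {S T : K →L[ℂ] K}
    (hST : ∀ (k : ℤ) w, R.Eig ξ ξ (lam ^ k) w → S (R.ρ w ξ) = T (R.ρ w ξ)) (θ : K) :
    S (R.e ξ θ) = T (R.e ξ θ) :=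
  IsR.ext (fun x => ext_inner_left ℂ fun a => by
    rw [← inner_star_left S, ← inner_star_left T]
    exact h.dense _ _ _ _ (fun k w hw => by rw [inner_star_left, inner_star_left, hST k w hw]) x) θ

lemma Gr.e_eq (h : R.Gr ξ lam) {a b : K}
    (hab : ∀ (k : ℤ) w, R.Eig ξ ξ (lam ^ k) w → ⟪R.ρ w ξ, a⟫_ℂ = ⟪R.ρ w ξ, b⟫_ℂ) :
    R.e ξ a = R.e ξ b := by
  rw [← sub_eq_zero, ← map_sub]
  refine pr_eq_zero _ fun x => ?_
  rw [inner_sub_right, sub_eq_zero, ← inner_conj_symm, ← inner_conj_symm _ b, orb_apply,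
    h.dense a ξ b ξ (fun k w hw => by rw [← inner_conj_symm, hab k w hw, inner_conj_symm]) x]

lemma Gr.comm (h : R.Gr ξ lam) {S : K →L[ℂ] K}
    (hS : ∀ (k : ℤ) w, R.Eig ξ ξ (lam ^ k) w → ∀ θ, S (R.ρ w θ) = R.ρ w (S θ)) : S ∈ R.C := by
  intro a
  ext θ
  refine ext_inner_left ℂ fun b => ?_
  rw [mul_apply_eq_comp, mul_apply_eq_comp, ← inner_star_left]
  exact h.dense _ _ _ _ (fun k w hw => by rw [inner_star_left, hS k w hw]) a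

lemma Gr.eig_of_q (h : R.Gr ξ lam) (h0 : 0 < lam) (h1 : lam < 1) {m : ℤ} {v : A}
    (hv : R.q ξ (lam ^ m) (R.ρ v ξ) = R.ρ v ξ) : R.Eig ξ ξ (lam ^ m) v := by
  intro y
  have := h.dense ξ (R.ρ v ξ) (R.ρ (star v) ξ) (((lam ^ m : ℝ) : ℂ) • ξ) (fun k w hw => by
    have hk := (zpow_pos h0 k).ne'
    rw [map_smul, inner_smul_right, ← vs_mul, hw v, ← ρ_mul_apply]
    change R.vs ξ _ = _
    rcases eq_or_ne k (-m) with rfl | hne
    · rw [← mul_assoc, ← Complex.ofReal_mul, ← zpow_add₀ h0.ne']; simp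
    · rw [vs_mul, ← hv, ← inner_q, (hw.adj hk).q_ne (zpow_pos h0 m).ne' (by
        rw [← zpow_neg]; exact lam_ne h0 h1 (by omega))]
      simp) y
  rwa [map_smul, inner_smul_right, ← vs_mul, ← ρ_mul_apply] at this

lemma Gr.hasSum (h : R.Gr ξ lam) (h0 : 0 < lam) (h1 : lam < 1) (b : K) :
    HasSum (fun k : ℤ => R.q ξ (lam ^ k) b) (R.e ξ b) := by
  have ho : ∀ (i j : ℤ) a b, i ≠ j → ⟪R.q ξ (lam ^ i) a, R.q ξ (lam ^ j) b⟫_ℂ = 0 :=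
    fun i j a b hij => q_orth (zpow_pos h0 i).ne' (lam_ne h0 h1 hij) a b
  obtain ⟨s, hs⟩ := summable_proj (fun k : ℤ => R.q ξ (lam ^ k)) ho
    (fun i a => by unfold q; conv_rhs => rw [inner_pr, pr_pr, ← inner_pr]) b
  have e1 : R.e ξ s = s := by
    have := (R.e ξ).hasSum hs
    simp only [e_q] at this
    exact this.unique hs
  rw [h.e_eq (b := s) fun k w hw => ?_, e1]
  · exact hs
  · have := (innerSL ℂ (R.ρ w ξ)).hasSum hs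
    refine (this.unique ?_).symm
    convert hasSum_single k fun j hj => ?_
    · rw [innerSL_apply_apply, ← inner_q, hw.q_self]
    · rw [innerSL_apply_apply, ← hw.q_self, ho _ _ _ _ hj.symm]

end Gr

/-- The modular condition on the commutant. -/
lemma exists_of_C {ξ : K} (hs : R.Sep ξ) {c : ℝ} (hc : 0 < c) {z : K →L[ℂ] K} (hz : z ∈ R.C)
    (h1 : R.q ξ c (z ξ) = z ξ) (h2 : R.q ξ c⁻¹ (star z ξ) = star z ξ) : ∃ v, R.ρ v ξ = z ξ := by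
  have hc' : (c : ℂ) ≠ 0 := Complex.ofReal_ne_zero.mpr hc.ne'
  have key : ∀ x : R.Esub ξ ξ c, ‖R.ρ (star x.1) ξ - ((c⁻¹ : ℝ) : ℂ) • star z ξ‖ ≤
      c⁻¹ * Real.sqrt c * ‖R.ρ x.1 ξ - z ξ‖ := fun x => by
    refine norm_le_of_inner (R.eorb ξ c⁻¹) ?_ (by positivity) fun w => ?_
    · have : R.q ξ c⁻¹ (R.ρ (star x.1) ξ - ((c⁻¹ : ℝ) : ℂ) • star z ξ) =
          R.ρ (star x.1) ξ - ((c⁻¹ : ℝ) : ℂ) • star z ξ := by
        rw [map_sub, map_smul, h2, (Eig.adj hc.ne' x.2).q_self]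
      rw [← this]; exact pr_mem _ _
    · have e1 : ⟪R.ρ w.1 ξ, R.ρ (star x.1) ξ - ((c⁻¹ : ℝ) : ℂ) • star z ξ⟫_ℂ =
          ((c⁻¹ : ℝ) : ℂ) * ⟪R.ρ x.1 ξ - z ξ, R.ρ (star w.1) ξ⟫_ℂ := by
        rw [inner_sub_right, inner_sub_left, inner_smul_right, ← vs_star_mul, ← vs_star_mul,
          Eig.adj hc.ne' x.2, mul_sub, ← inner_star_right z, R.C_apply (star_mem (s := R.C) hz),
          map_star, inner_star_right, inner_star_right, inner_star_right, R.C_apply hz]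
      have e2 : ‖R.ρ (star w.1) ξ‖ = Real.sqrt c * ‖R.ρ w.1 ξ‖ := by
        have := (Eig.adj (inv_pos.mpr hc).ne' w.2).norm_sq
        rw [star_star, inv_inv] at this
        rw [← Real.sqrt_sq (norm_nonneg (R.ρ (star w.1) ξ)), this, Real.sqrt_mul hc.le,
          Real.sqrt_sq (norm_nonneg _)]
      rw [eorb_apply, e1, norm_mul, Complex.norm_real, Real.norm_of_nonneg (by positivity)]
      have := norm_inner_le_norm (𝕜 := ℂ) (R.ρ x.1 ξ - z ξ) (R.ρ (star w.1) ξ)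
      rw [e2] at this
      calc _ ≤ c⁻¹ * (‖R.ρ x.1 ξ - z ξ‖ * (Real.sqrt c * ‖R.ρ w.1 ξ‖)) := by gcongr
        _ = _ := by ring
  have heig : R.comm.Eig ξ ξ c⁻¹ ⟨z, hz⟩ := fun y => by
    change ⟪ξ, y.1 (z ξ)⟫_ℂ = _ * ⟪ξ, z (y.1 ξ)⟫_ℂ
    rw [← sub_eq_zero]
    refine eq_zero_of_le_closure (R.eorb ξ c) (θ := z ξ) (by rw [← h1]; exact pr_mem _ _)
      (D := ‖star y.1 ξ‖ + c⁻¹ * Real.sqrt c * ‖y.1 ξ‖) fun x => ?_
    have e1 : ⟪ξ, y.1 (z ξ)⟫_ℂ - ((c⁻¹ : ℝ) : ℂ) * ⟪ξ, z (y.1 ξ)⟫_ℂ =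
        ⟪R.ρ (star x.1) ξ - ((c⁻¹ : ℝ) : ℂ) • star z ξ, y.1 ξ⟫_ℂ -
          ⟪star y.1 ξ, R.ρ x.1 ξ - z ξ⟫_ℂ := by
      rw [inner_sub_left, inner_sub_right, inner_smul_left, inner_star_left, inner_star_left,
        inner_star_left, map_star, inner_star_left, R.C_apply y.2, Complex.conj_ofReal]
      ring
    rw [e1, eorb_apply]
    refine (norm_sub_le _ _).trans ?_
    have e2 := norm_inner_le_norm (𝕜 := ℂ) (star y.1 ξ) (R.ρ x.1 ξ - z ξ)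
    have e3 := norm_inner_le_norm (𝕜 := ℂ) (R.ρ (star x.1) ξ - ((c⁻¹ : ℝ) : ℂ) • star z ξ) (y.1 ξ)
    have e4 := mul_le_mul_of_nonneg_right (key x) (norm_nonneg (y.1 ξ))
    nlinarith
  exact hs.exists_of_bound (c := Real.sqrt c⁻¹ * ‖z‖) (by positivity) fun y hy =>
    heig.right_bound (inv_pos.mpr hc) ⟨y, hy⟩

end Rep

end Pool.Agent.P.MP_aee195_lc
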