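import Mathlib

set_option autoImplicit false

namespace Pool.Agent.P.MP_aee195_lc

open Filter Topology
open scoped InnerProductSpace

section Hilb

variable {E : Type*} [AddCommGroup E] [Module ℂ E]
  {K : Type*} [NormedAddCommGroup K] [InnerProductSpace ℂ K] [CompleteSpace K]
  {K' : Type*} [NormedAddCommGroup K'] [InnerProductSpace ℂ K'] [CompleteSpace K']

/-- Orthogonal projection onto the closure of the range of a linear map. -/
noncomputable def pr (L : E →ₗ[ℂ] K) : K →L[ℂ] K :=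
  (LinearMap.range L).topologicalClosure.starProjection

lemma pr_mem (L : E →ₗ[ℂ] K) (θ : K) : pr L θ ∈ closure (Set.range L) := by
  have := (LinearMap.range L).topologicalClosure.starProjection_apply_mem θ
  exact this

lemma pr_of_mem (L : E →ₗ[ℂ] K) {θ : K} (h : θ ∈ closure (Set.range L)) : pr L θ = θ :=
  Submodule.starProjection_eq_self_iff.mpr h

lemma pr_apply (L : E →ₗ[ℂ] K) (x : E) : pr L (L x) = L x :=
  pr_of_mem L (subset_closure ⟨x, rfl⟩)

lemma pr_proj (L : E →ₗ[ℂ] K) : IsStarProjection (pr L) := isStarProjection_starProjection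

lemma pr_star (L : E →ₗ[ℂ] K) : star (pr L) = pr L := (pr_proj L).isSelfAdjoint.star_eq

lemma pr_pr (L : E →ₗ[ℂ] K) (θ : K) : pr L (pr L θ) = pr L θ := pr_of_mem L (pr_mem L θ)

lemma inner_sub_pr (L : E →ₗ[ℂ] K) (θ : K) {w : K} (hw : w ∈ closure (Set.range L)) :
    ⟪w, θ - pr L θ⟫_ℂ = 0 := by
  have := (LinearMap.range L).topologicalClosure.starProjection_inner_eq_zero θ w hw
  rw [← inner_conj_symm]; simp only [pr]; rw [this]; simp

omit [CompleteSpace K] in
lemma inner_zero_of_closure (L : E →ₗ[ℂ] K) {θ : K} (h : ∀ x, ⟪L x, θ⟫_ℂ = 0) {w : K}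
    (hw : w ∈ closure (Set.range L)) : ⟪w, θ⟫_ℂ = 0 := by
  have : closure (Set.range L) ⊆ {w | ⟪w, θ⟫_ℂ = 0} :=
    closure_minimal (by rintro _ ⟨x, rfl⟩; exact h x) (isClosed_eq (by fun_prop) (by fun_prop))
  exact this hw

lemma pr_eq_of (L : E →ₗ[ℂ] K) {u v : K} (hv : v ∈ closure (Set.range L))
    (ho : ∀ x, ⟪L x, u - v⟫_ℂ = 0) : pr L u = v := by
  apply Submodule.eq_starProjection_of_mem_of_inner_eq_zero hv
  intro w hw
  rw [← inner_conj_symm, inner_zero_of_closure L ho hw]; simp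

lemma pr_eq_zero (L : E →ₗ[ℂ] K) {θ : K} (h : ∀ x, ⟪L x, θ⟫_ℂ = 0) : pr L θ = 0 :=
  pr_eq_of L (subset_closure ⟨0, by simp⟩) (by simpa using h)

lemma norm_pr_le (L : E →ₗ[ℂ] K) (θ : K) : ‖pr L θ‖ ≤ ‖θ‖ :=
  Submodule.norm_starProjection_apply_le _ θ

omit [CompleteSpace K] [CompleteSpace K'] in
lemma eq_on_closure (L : E →ₗ[ℂ] K) {S T : K →L[ℂ] K'} (h : ∀ x, S (L x) = T (L x)) {w : K}
    (hw : w ∈ closure (Set.range L)) : S w = T w := by
  have : closure (Set.range L) ⊆ {w | S w = T w} :=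
    closure_minimal (by rintro _ ⟨x, rfl⟩; exact h x) (isClosed_eq (by fun_prop) (by fun_prop))
  exact this hw

omit [CompleteSpace K'] in
lemma eq_comp_pr (L : E →ₗ[ℂ] K) {S T : K →L[ℂ] K'} (h : ∀ x, S (L x) = T (L x)) (θ : K) :
    S (pr L θ) = T (pr L θ) := eq_on_closure L h (pr_mem L θ)

/-- Extension of a dominated linear map. -/
lemma exists_ext (L : E →ₗ[ℂ] K) (L' : E →ₗ[ℂ] K') {C : ℝ} (hC : 0 ≤ C)
    (h : ∀ x, ‖L' x‖ ≤ C * ‖L x‖) :
    ∃ T : K →L[ℂ] K', (∀ x, T (L x) = L' x) ∧ (∀ θ, T (pr L θ) = T θ) ∧ ‖T‖ ≤ C := by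
  set W := (LinearMap.range L).topologicalClosure with hW
  let e : E →ₗ[ℂ] W := L.codRestrict W (fun x => subset_closure ⟨x, rfl⟩)
  have hd : DenseRange e := by
    intro w
    rw [closure_subtype]
    have : (Subtype.val '' Set.range e) = Set.range L := by
      ext y; simp [e]
    rw [this]; exact w.2
  have hn : ∀ x, ‖L' x‖ ≤ C * ‖e x‖ := fun x => h x
  refine ⟨(L'.extendOfNorm e).comp W.orthogonalProjectionOnto, fun x => ?_, fun θ => ?_, ?_⟩
  · have : W.orthogonalProjectionOnto (L x) = e x := Subtype.ext (pr_apply L x)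
    simp only [ContinuousLinearMap.comp_apply, this]
    exact LinearMap.extendOfNorm_eq hd ⟨C, hn⟩ x
  · have : W.orthogonalProjectionOnto (pr L θ) = W.orthogonalProjectionOnto θ :=
      Subtype.ext (pr_pr L θ)
    simp only [ContinuousLinearMap.comp_apply, this]
  · refine ContinuousLinearMap.opNorm_le_bound _ hC fun θ => ?_
    refine (LinearMap.norm_extendOfNorm_apply_le hd C hn _).trans ?_
    exact mul_le_mul_of_nonneg_left (norm_pr_le L θ) hC

omit [CompleteSpace K] in
lemma map_closure (L : E →ₗ[ℂ] K) (S : K →L[ℂ] K) (h : ∀ x, S (L x) ∈ closure (Set.range L))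
    {w : K} (hw : w ∈ closure (Set.range L)) : S w ∈ closure (Set.range L) := by
  have : closure (Set.range L) ⊆ S ⁻¹' closure (Set.range L) :=
    closure_minimal (by rintro _ ⟨x, rfl⟩; exact h x) (isClosed_closure.preimage S.continuous)
  exact this hw

lemma inner_star_left (S : K →L[ℂ] K) (a b : K) : ⟪star S a, b⟫_ℂ = ⟪a, S b⟫_ℂ :=
  ContinuousLinearMap.adjoint_inner_left S b a

lemma inner_star_right (S : K →L[ℂ] K) (a b : K) : ⟪a, star S b⟫_ℂ = ⟪S a, b⟫_ℂ :=
  ContinuousLinearMap.adjoint_inner_right S a b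

/-- An operator leaving the closed range invariant together with its adjoint commutes with the
projection. -/
lemma pr_comm (L : E →ₗ[ℂ] K) (S : K →L[ℂ] K) (h : ∀ x, S (L x) ∈ closure (Set.range L))
    (h' : ∀ x, star S (L x) ∈ closure (Set.range L)) : S * pr L = pr L * S := by
  ext θ
  simp only [mul_apply_eq_comp]
  symm
  apply pr_eq_of L (map_closure L S h (pr_mem L θ))
  intro x
  rw [← map_sub, ← inner_star_left]
  exact inner_sub_pr L θ (h' x)

/-- A bounded sesquilinear form comes from an operator. -/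
lemma exists_of_form (B : K → K → ℂ) {C : ℝ} (hC : 0 ≤ C)
    (h1 : ∀ a b c, B a (b + c) = B a b + B a c) (h2 : ∀ a (r : ℂ) b, B a (r • b) = r * B a b)
    (h3 : ∀ a b c, B (a + b) c = B a c + B b c)
    (h4 : ∀ a (r : ℂ) b, B (r • a) b = (starRingEnd ℂ) r * B a b)
    (h5 : ∀ a b, ‖B a b‖ ≤ C * ‖a‖ * ‖b‖) :
    ∃ T : K →L[ℂ] K, (∀ a b, ⟪a, T b⟫_ℂ = B a b) ∧ ‖T‖ ≤ C := by
  let f : K → K →L[ℂ] ℂ := fun a => LinearMap.mkContinuous
    { toFun := B a, map_add' := h1 a, map_smul' := fun r b => by simpa using h2 a r b }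
    (C * ‖a‖) (fun b => h5 a b)
  have hf : ∀ a b, f a b = B a b := fun a b => rfl
  let g : K →ₗ[ℂ] K :=
    { toFun := fun a => (InnerProductSpace.toDual ℂ K).symm (f a)
      map_add' := fun a b => by
        rw [← map_add]; congr 1; ext c; simp [hf, h3]
      map_smul' := fun r a => by
        apply ext_inner_right ℂ
        intro c
        simp [InnerProductSpace.toDual_symm_apply, hf, h4, inner_smul_left] }
  have hg : ∀ a b, ⟪g a, b⟫_ℂ = B a b := fun a b => by
    simp [g, InnerProductSpace.toDual_symm_apply, hf]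
  have hn : ∀ a, ‖g a‖ ≤ C * ‖a‖ := fun a => by
    have := h5 a (g a)
    rw [← hg, inner_self_eq_norm_sq_to_K] at this
    simp only [norm_pow, norm_algebraMap', norm_norm] at this
    rcases eq_or_lt_of_le (norm_nonneg (g a)) with h0 | h0
    · rw [← h0]; positivity
    · nlinarith
  refine ⟨star (g.mkContinuous C hn), fun a b => ?_, ?_⟩
  · rw [inner_star_right]; exact hg a b
  · rw [norm_star]; exact LinearMap.mkContinuous_norm_le _ hC _

end Hilb

end Pool.Agent.P.MP_aee195_lc
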