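import Pool.Agent.P.MP_aee195_lc.Rel

set_option autoImplicit false

namespace Pool.Agent.P.MP_aee195_lc

open Filter Topology
open scoped InnerProductSpace

variable {A : Type*} [Ring A] [StarRing A] [Algebra ℂ A]
  {K : Type*} [NormedAddCommGroup K] [InnerProductSpace ℂ K] [CompleteSpace K]

namespace Rep

variable {R : Rep A K} {ξ η : K} {lam : ℝ}

lemma Gr.exists_ne (h : R.Gr ξ lam) (hF : Fac A) {s p : A} (hs : s ≠ 0) (hp : p ≠ 0) :
    ∃ (k : ℤ) (w : A), R.Eig ξ ξ (lam ^ k) w ∧ s * w * p ≠ 0 := by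
  obtain ⟨a, ha⟩ := Fac.exists_mul_ne R hF hs hp
  by_contra hcon
  push Not at hcon
  apply ha
  apply R.inj
  ext θ
  refine ext_inner_left ℂ fun b => ?_
  have := h.dense (star (R.ρ s) b) (R.ρ p θ) 0 0 (fun k w hw => by
    rw [inner_star_left, ← ρ_mul_apply, ← ρ_mul_apply, hcon k w hw]; simp) a
  rw [inner_star_left, ← ρ_mul_apply, ← ρ_mul_apply] at this
  rw [this]; simp

omit [Algebra ℂ A] in
lemma proj_left {u : A} (h : u * star u * u = u) : IsStarProjection (star u * u) :=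
  ⟨by rw [IsIdempotentElem, mul_assoc, ← mul_assoc u, h], by simp [IsSelfAdjoint]⟩

omit [Algebra ℂ A] in
lemma proj_right {u : A} (h : u * star u * u = u) : IsStarProjection (u * star u) :=
  ⟨by rw [IsIdempotentElem, ← mul_assoc, h], by simp [IsSelfAdjoint]⟩

lemma full_rel (h : R.Gr ξ lam) (h' : R.Gr η lam) (h0 : 0 < lam) (hF : Fac A) {c : ℝ}
    (hc : 0 < c) {x : A} (hx0 : x ≠ 0) (hx : R.Eig ξ η c x) (m : ℤ) {p q : A}
    (hp : IsStarProjection p) (hq : IsStarProjection q) (hp' : R.Eig ξ ξ 1 p)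
    (hq' : R.Eig η η 1 q) (hp0 : p ≠ 0) (hq0 : q ≠ 0) :
    ∃ y, R.Eig ξ η (c * lam ^ m) y ∧ q * y * p ≠ 0 := by
  obtain ⟨i, a, ha, ha'⟩ := h'.exists_ne hF hq0 hx0
  obtain ⟨j, b, hb, hb'⟩ := h.exists_ne hF ha' hp0
  have hy := (ha.mul hx).mul hb
  have hc' : lam ^ j * (c * lam ^ i) ≠ 0 := by positivity
  obtain ⟨u, h1, h2, h3, h4, h5⟩ := exists_cmp hc' hp hq hp' hq'
  have hu : u ≠ 0 := by
    rintro rfl
    apply hb'
    simpa [mul_assoc] using h5 _ hy
  have hf : star u * u ≠ 0 := fun hf => hu (by rw [← h4, mul_assoc, hf, mul_zero])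
  obtain ⟨w, hw, hw'⟩ := h.full (m - i - j) _ (proj_left h4) hf (h1.star_mul_self hc')
  refine ⟨u * w * (star u * u), ((h1.mul hw).mul (h1.star_mul_self hc')).congr ?_, fun hz => hw' ?_⟩
  · rw [zpow_sub₀ h0.ne', zpow_sub₀ h0.ne']; field_simp
  · rw [← mul_assoc, ← mul_assoc q, h2, mul_assoc _ (star u * u), mul_assoc (star u), h3] at hz
    rw [mul_assoc (star u), mul_assoc (star u), hz, mul_zero]

lemma exists_isoms (h : R.Gr ξ lam) (h' : R.Gr η lam) (h0 : 0 < lam) (hF : Fac A) {c : ℝ}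
    (hc : 0 < c) {x : A} (hx0 : x ≠ 0) (hx : R.Eig ξ η c x) (m : ℤ) (hξ : R.vs ξ 1 = 1)
    (hη : R.vs η 1 = 1) (k : ℕ) (hk : (k : ℝ) < c * lam ^ m) :
    ∃ u : ℕ → A, (∀ i < k, R.Eig ξ η (c * lam ^ m) (u i)) ∧
      ∀ i < k, ∀ j < k, star (u i) * u j = if i = j then 1 else 0 := by
  have hd : 0 < c * lam ^ m := by positivity
  induction k with
  | zero => exact ⟨0, by simp, by simp⟩
  | succ k ih =>
    obtain ⟨u, hu1, hu2⟩ := ih (by push_cast at hk; linarith)
    set P := ∑ i ∈ Finset.range k, u i * star (u i) with hP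
    have hPu : ∀ i < k, star (u i) * P = star (u i) := fun i hi => by
      rw [hP, Finset.mul_sum, Finset.sum_eq_single i]
      · rw [← mul_assoc, hu2 i hi i hi, if_pos rfl, one_mul]
      · intro j hj hji
        rw [← mul_assoc, hu2 i hi j (Finset.mem_range.mp hj), if_neg hji.symm, zero_mul]
      · intro h; exact absurd (Finset.mem_range.mpr hi) h
    have hPp : IsStarProjection P := ⟨by
      rw [IsIdempotentElem]
      conv_lhs => rw [hP, Finset.sum_mul]
      exact Finset.sum_congr rfl fun i hi => by rw [mul_assoc, hPu i (Finset.mem_range.mp hi)],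
      by simp [IsSelfAdjoint, hP, star_sum]⟩
    have hPe : R.Eig η η 1 P := Eig.sum _ fun i hi =>
      (hu1 i (Finset.mem_range.mp hi)).mul_star_self hd.ne'
    have hPv : ((c * lam ^ m : ℝ) : ℂ) * R.vs η P = k := by
      rw [hP, vs_sum, Finset.mul_sum, Finset.sum_congr rfl fun i hi => by
        rw [← hu1 i (Finset.mem_range.mp hi), hu2 i (Finset.mem_range.mp hi) i
          (Finset.mem_range.mp hi), if_pos rfl, hξ]]
      simp
    obtain ⟨v, h1, h2, -, h4, h5⟩ := exists_cmp hd.ne' (IsStarProjection.one A) hPp.one_sub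
      (Eig.one ξ) ((Eig.one η).sub hPe)
    have hv : star v * v = 1 := by
      by_contra hv
      have hq : 1 - P - v * star v = 0 := by
        by_contra hq
        obtain ⟨y, hy, hy'⟩ := full_rel h h' h0 hF hc hx0 hx m (proj_left h4).one_sub
          ((proj_right h4).sub_of_mul_eq_right hPp.one_sub (by rw [← mul_assoc, h2]))
          ((Eig.one ξ).sub (h1.star_mul_self hd.ne'))
          (((Eig.one η).sub hPe).sub (h1.mul_star_self hd.ne'))
          (fun h => hv (sub_eq_zero.mp h).symm) hq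
        exact hy' (h5 y hy)
      have e1 := congrArg (fun t => ((c * lam ^ m : ℝ) : ℂ) * R.vs η t) hq
      simp only [vs_sub, mul_sub, hPv, ← h1 (star v), hη, vs_zero, mul_zero, mul_one] at e1
      have e2 := R.vs_star_self ξ (1 - star v * v)
      rw [(proj_left h4).one_sub.isSelfAdjoint.star_eq, (proj_left h4).one_sub.isIdempotentElem,
        vs_sub, hξ] at e2
      have e3 : ((c * lam ^ m - k - 1 + ‖R.ρ (1 - star v * v) ξ‖ ^ 2 : ℝ) : ℂ) = 0 := by
        rw [Complex.ofReal_add, ← e2]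
        push_cast at e1 ⊢
        linear_combination e1
      have e4 : c * lam ^ m - k - 1 + ‖R.ρ (1 - star v * v) ξ‖ ^ 2 = 0 := by exact_mod_cast e3
      push_cast at hk
      nlinarith [sq_nonneg ‖R.ρ (1 - star v * v) ξ‖]
    have hvu : ∀ i < k, star (u i) * v = 0 := fun i hi => by
      rw [← h2, ← mul_assoc, mul_sub, hPu i hi, mul_one, sub_self, zero_mul]
    refine ⟨Function.update u k v, fun i hi => ?_, fun i hi j hj => ?_⟩
    · rcases Nat.lt_succ_iff_lt_or_eq.mp hi with hi | rfl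
      · rw [Function.update_of_ne hi.ne]; exact hu1 i hi
      · rw [Function.update_self]; exact h1
    · rcases Nat.lt_succ_iff_lt_or_eq.mp hi with hi | rfl <;>
        rcases Nat.lt_succ_iff_lt_or_eq.mp hj with hj | rfl
      · rw [Function.update_of_ne hi.ne, Function.update_of_ne hj.ne]; exact hu2 i hi j hj
      · rw [Function.update_of_ne hi.ne, Function.update_self, if_neg hi.ne]; exact hvu i hi
      · rw [Function.update_of_ne hj.ne, Function.update_self, if_neg hj.ne']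
        simpa using congrArg star (hvu j hj)
      · rw [Function.update_self, if_pos rfl]; exact hv

theorem exists_seq (h : R.Gr ξ lam) (h' : R.Gr η lam) (h0 : 0 < lam) (h1 : lam < 1) (hF : Fac A)
    (hξ : R.vs ξ 1 = 1) (hη : R.vs η 1 = 1) :
    ∃ (c : ℕ → ℝ) (k : ℕ → ℕ) (u : ℕ → ℕ → A), (∀ n, 0 < k n) ∧ (∀ n, (k n : ℝ) < c n) ∧
      Tendsto (fun n => (k n : ℝ) / c n) atTop (𝓝 1) ∧
      (∀ n, ∀ i < k n, R.Eig ξ η (c n) (u n i)) ∧
      ∀ n, ∀ i < k n, ∀ j < k n, star (u n i) * u n j = if i = j then 1 else 0 := by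
  obtain ⟨c, x, hc, hx0, hx⟩ := exists_rel h h' h0 h1 hF (by
    rintro rfl; simp [vs] at hη)
  have : ∀ n : ℕ, ∃ m : ℤ, (n : ℝ) + 2 < c * lam ^ m := fun n => by
    obtain ⟨m, hm⟩ := pow_unbounded_of_one_lt ((n + 2) / c) (one_lt_inv₀ h0 |>.mpr h1)
    refine ⟨-m, ?_⟩
    rw [zpow_neg, zpow_natCast, ← inv_pow, mul_comm]
    rwa [div_lt_iff₀ hc] at hm
  choose m hm using this
  have hk : ∀ n, ((⌈c * lam ^ m n⌉₊ - 1 : ℕ) : ℝ) = ⌈c * lam ^ m n⌉₊ - 1 := fun n => by
    rw [Nat.cast_sub (Nat.one_le_ceil_iff.mpr (by positivity)), Nat.cast_one]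
  have hk1 : ∀ n, ((⌈c * lam ^ m n⌉₊ - 1 : ℕ) : ℝ) < c * lam ^ m n := fun n => by
    rw [hk]; linarith [Nat.ceil_lt_add_one (show 0 ≤ c * lam ^ m n by positivity)]
  have hk2 : ∀ n, c * lam ^ m n - 1 ≤ ((⌈c * lam ^ m n⌉₊ - 1 : ℕ) : ℝ) := fun n => by
    rw [hk]; linarith [Nat.le_ceil (c * lam ^ m n)]
  choose u hu1 hu2 using fun n => exists_isoms h h' h0 hF hc hx0 hx (m n) hξ hη _ (hk1 n)
  refine ⟨fun n => c * lam ^ m n, fun n => ⌈c * lam ^ m n⌉₊ - 1, u, fun n => ?_, hk1, ?_, hu1, hu2⟩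
  · have := hk2 n
    have h2 := hm n
    have : (0 : ℝ) < ((⌈c * lam ^ m n⌉₊ - 1 : ℕ) : ℝ) := by
      have : (0 : ℝ) ≤ n := n.cast_nonneg
      linarith
    exact_mod_cast this
  · have ht : Tendsto (fun n : ℕ => 1 - 1 / ((n : ℝ) + 1)) atTop (𝓝 1) := by
      simpa using tendsto_one_div_add_atTop_nhds_zero_nat.const_sub (1 : ℝ)
    refine tendsto_of_tendsto_of_tendsto_of_le_of_le ht tendsto_const_nhds (fun n => ?_) fun n => ?_
    · have hd : 0 < c * lam ^ m n := by positivity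
      rw [le_div_iff₀ hd]
      refine le_trans ?_ (hk2 n)
      have : 1 ≤ 1 / ((n : ℝ) + 1) * (c * lam ^ m n) := by
        rw [one_div, inv_mul_eq_div, le_div_iff₀ (by positivity)]; linarith [hm n]
      nlinarith
    · exact (div_le_one (by positivity)).mpr (hk1 n).le

end Rep

end Pool.Agent.P.MP_aee195_lc
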