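import Mathlib

set_option autoImplicit false

namespace Pool.Agent.P.MP_aee195_lc

open Filter Topology

variable {G : Type*} [NormedAddCommGroup G] [InnerProductSpace ℂ G] [CompleteSpace G]

lemma cfc_intertwine {a a' W : G →L[ℂ] G} (ha : IsSelfAdjoint a) (ha' : IsSelfAdjoint a')
    (hs : spectrum ℝ a ⊆ Set.Icc 0 1) (hs' : spectrum ℝ a' ⊆ Set.Icc 0 1) (h : a * W = W * a')
    {f : ℝ → ℝ} (hf : Continuous f) : cfc f a * W = W * cfc f a' := by
  have key : ∀ g : C(Set.Icc (0 : ℝ) 1, ℝ),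
      cfcHomSuperset ha hs g * W = W * cfcHomSuperset ha' hs' g := by
    intro g
    induction g using ContinuousMap.induction_on_of_compact with
    | const r =>
      have : ContinuousMap.const (Set.Icc (0 : ℝ) 1) r = algebraMap ℝ _ r := rfl
      rw [this, AlgHomClass.commutes, AlgHomClass.commutes]
      exact Algebra.commutes r W
    | id => simpa only [cfcHomSuperset_id] using h
    | star_id => simpa only [star_trivial, cfcHomSuperset_id] using h
    | add f g hf hg => rw [map_add, map_add, add_mul, mul_add, hf, hg]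
    | mul f g hf hg => rw [map_mul, map_mul, mul_assoc, hg, ← mul_assoc, hf, mul_assoc]
    | frequently f hf =>
      have hc : IsClosed {g : C(Set.Icc (0 : ℝ) 1, ℝ) |
          cfcHomSuperset ha hs g * W = W * cfcHomSuperset ha' hs' g} :=
        isClosed_eq ((cfcHomSuperset_continuous ha hs).mul continuous_const)
          (continuous_const.mul (cfcHomSuperset_continuous ha' hs'))
      exact hc.closure_subset (mem_closure_iff_frequently.mpr hf)
  have := key ⟨fun x => f x, by fun_prop⟩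
  rw [cfcHomSuperset_apply, cfcHomSuperset_apply] at this
  rw [cfc_apply f a, cfc_apply f a']
  exact this

/-- Damped functions of the logarithm of the modular operator. -/
noncomputable def damp (P : ℝ → ℝ) (s : ℝ) : ℝ := s * (1 - s) * P (Real.log (s / (1 - s)))

lemma damp_cont {P : ℝ → ℝ} (hP : Continuous P) {M : ℝ} (hM : ∀ u, |P u| ≤ M) :
    Continuous (damp P) := by
  refine continuous_iff_continuousAt.mpr fun s => ?_
  by_cases hs : s * (1 - s) = 0
  · have h0 : damp P s = 0 := by rw [damp, hs, zero_mul]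
    rw [ContinuousAt, h0]
    refine squeeze_zero_norm (a := fun t => |t * (1 - t)| * M) (fun t => ?_) ?_
    · rw [damp, norm_mul]
      exact mul_le_mul_of_nonneg_left (hM _) (abs_nonneg _)
    · have : Continuous fun t : ℝ => |t * (1 - t)| * M := by fun_prop
      have := this.tendsto s
      rwa [hs, abs_zero, zero_mul] at this
  · obtain ⟨h1, h2⟩ := mul_ne_zero_iff.mp hs
    refine ContinuousAt.mul (by fun_prop) (hP.continuousAt.comp ?_)
    exact ContinuousAt.log (ContinuousAt.div (by fun_prop) (by fun_prop) h2) (div_ne_zero h1 h2)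

lemma spec_subset {a : G →L[ℂ] G} (h0 : 0 ≤ a) (h1 : a ≤ 1) : spectrum ℝ a ⊆ Set.Icc 0 1 :=
  fun x hx => ⟨spectrum_nonneg_of_nonneg h0 hx,
    (CFC.le_one_iff (R := ℝ) a (IsSelfAdjoint.of_nonneg h0)).mp h1 x hx⟩

lemma damp_range {a W : G →L[ℂ] G} (h0 : 0 ≤ a) (h1 : a ≤ 1) {μ : ℝ} (hμ : 0 < μ)
    (h : a * W * (1 - a) = μ • ((1 - a) * W * a)) {P : ℝ → ℝ} (hP : Continuous P) {M : ℝ}
    (hM : ∀ u, |P u| ≤ M) (hper : ∀ u, P (u + Real.log μ) = P u) :
    ∃ m, W * cfc (damp P) a = cfc (damp P) a * m := by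
  have ha := IsSelfAdjoint.of_nonneg h0
  have hs := spec_subset h0 h1
  have hn : ∀ s ∈ spectrum ℝ a, 1 - s + μ * s ≠ 0 := fun s hs' => by
    obtain ⟨a1, a2⟩ := hs hs'
    rcases eq_or_lt_of_le a1 with rfl | a1
    · simp
    · nlinarith [mul_pos hμ a1]
  have hc : ContinuousOn (fun s : ℝ => μ * s / (1 - s + μ * s)) (spectrum ℝ a) :=
    ContinuousOn.div (by fun_prop) (by fun_prop) hn
  have hc' : ContinuousOn (fun s : ℝ => (1 - s + μ * s)⁻¹) (spectrum ℝ a) :=
    ContinuousOn.inv₀ (by fun_prop) hn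
  have e0 : cfc (fun s : ℝ => 1 - s + μ * s) a = 1 - a + μ • a := by
    rw [cfc_add a _ _, cfc_sub _ _ a, cfc_const_mul μ _ a, cfc_id' ℝ a, cfc_const_one ℝ a]
  have e1 : (1 - a + μ • a) * cfc (fun s : ℝ => (1 - s + μ * s)⁻¹) a = 1 := by
    rw [← e0, ← cfc_mul _ _ a (by fun_prop) hc', ← cfc_const_one ℝ a]
    exact cfc_congr fun s hs' => mul_inv_cancel₀ (hn s hs')
  have e2 : (μ • a) * cfc (fun s : ℝ => (1 - s + μ * s)⁻¹) a =
      cfc (fun s : ℝ => μ * s / (1 - s + μ * s)) a := by
    have : μ • a = cfc (fun s : ℝ => μ * s) a := by rw [cfc_const_mul μ _ a, cfc_id' ℝ a]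
    rw [this, ← cfc_mul _ _ a (by fun_prop) hc']
    rfl
  have e3 : a * W = W * cfc (fun s : ℝ => μ * s / (1 - s + μ * s)) a := by
    have : a * W * (1 - a + μ • a) = W * (μ • a) := by
      rw [mul_add, h]
      simp only [sub_mul, one_mul, smul_sub, mul_smul_comm]
      abel
    rw [← e2, ← mul_assoc, ← this, mul_assoc (a * W), e1, mul_one]
  have e4 := cfc_intertwine ha (cfc_predicate _ a) hs (by
    rw [cfc_map_spectrum _ a ha hc]
    rintro _ ⟨s, hs', rfl⟩
    obtain ⟨a1, a2⟩ := hs hs'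
    have : 0 < 1 - s + μ * s := lt_of_le_of_ne (by nlinarith [mul_nonneg hμ.le a1]) (hn s hs').symm
    exact ⟨by positivity, (div_le_one this).mpr (by linarith)⟩) e3 (damp_cont hP hM)
  have hd := damp_cont hP hM
  rw [← cfc_comp' _ _ a hd.continuousOn hc] at e4
  refine ⟨W * cfc (fun s : ℝ => (1 - s + μ * s) ^ 2 / μ) a, ?_⟩
  rw [← mul_assoc, e4, mul_assoc, ← cfc_mul _ _ a (hd.comp_continuousOn' hc) (by fun_prop)]
  congr 1
  refine cfc_congr fun s hs' => ?_
  have hn' := hn s hs'
  have e5 : 1 - μ * s / (1 - s + μ * s) = (1 - s) / (1 - s + μ * s) := by field_simp; ring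
  simp only [damp, e5]
  by_cases hz : s * (1 - s) = 0
  · rcases mul_eq_zero.mp hz with h | h <;> simp [h]
  · obtain ⟨b1, b2⟩ := mul_ne_zero_iff.mp hz
    have e6 : μ * s / (1 - s + μ * s) / ((1 - s) / (1 - s + μ * s)) = s / (1 - s) * μ := by
      field_simp
    rw [e6, Real.log_mul (div_ne_zero b1 b2) hμ.ne', hper]
    generalize 1 - s + μ * s = n at hn'
    field_simp

lemma exists_eigen {a : G →L[ℂ] G} (h0 : 0 ≤ a) (h1 : a ≤ 1) {l : ℝ} (hl : l ≠ 0)
    (hne : a * (1 - a) ≠ 0)
    (h : ∀ P Q : ℝ → ℝ, Continuous P → Continuous Q → (∀ u, |P u| ≤ 2) → (∀ u, |Q u| ≤ 2) →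
      Function.Periodic P l → Function.Periodic Q l → (∀ u, P u * Q u = 0) →
      a * cfc (damp P) a = 0 ∨ a * cfc (damp Q) a = 0) :
    ∃ (s : ℝ) (g : G), 0 < s ∧ s < 1 ∧ g ≠ 0 ∧ a g = (s : ℂ) • g := by
  have ha := IsSelfAdjoint.of_nonneg h0
  have hs := spec_subset h0 h1
  obtain ⟨s, hs1, hs2⟩ : ∃ s ∈ spectrum ℝ a, s * (1 - s) ≠ 0 := by
    by_contra hcon
    push Not at hcon
    apply hne
    have : cfc (fun s : ℝ => s * (1 - s)) a = a * (1 - a) := by
      rw [cfc_mul _ _ a, cfc_sub _ _ a, cfc_id' ℝ a, cfc_const_one ℝ a]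
    rw [← this, ← cfc_zero ℝ a]
    exact cfc_congr hcon
  have hz : ∀ P : ℝ → ℝ, Continuous P → (∀ u, |P u| ≤ 2) → a * cfc (damp P) a = 0 →
      ∀ t ∈ spectrum ℝ a, t * (1 - t) ≠ 0 → P (Real.log (t / (1 - t))) = 0 := by
    intro P hP hP2 h t ht ht'
    have hd := damp_cont hP hP2
    have : cfc (fun s : ℝ => s * damp P s) a = cfc (0 : ℝ → ℝ) a := by
      rw [cfc_mul _ _ a, cfc_id' ℝ a, h, cfc_zero]
    have := eqOn_of_cfc_eq_cfc this (by fun_prop) continuousOn_const ha ht
    simp only [damp, Pi.zero_apply] at this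
    exact (mul_eq_zero.mp ((mul_eq_zero.mp this).resolve_left
      (left_ne_zero_of_mul ht'))).resolve_left ht'
  set l0 := Real.log (s / (1 - s)) with hl0
  have horb : ∀ t ∈ spectrum ℝ a, t * (1 - t) ≠ 0 → ∃ k : ℤ, Real.log (t / (1 - t)) - l0 = k * l := by
    intro t ht ht'
    set c : ℝ → ℝ := fun u => Real.cos (2 * Real.pi * (u - l0) / l) with hc
    have hcp : Function.Periodic c l := fun u => by
      simp only [hc]
      rw [← Real.cos_add_two_pi (2 * Real.pi * (u - l0) / l)]
      congr 1; field_simp; ring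
    have hc1 : ∀ u, -1 ≤ c u ∧ c u ≤ 1 := fun u => ⟨Real.neg_one_le_cos _, Real.cos_le_one _⟩
    set γ := c (Real.log (t / (1 - t))) with hγ
    have hγ1 : γ = 1 := by
      by_contra hγ'
      have hγ2 : γ < 1 := lt_of_le_of_ne (hc1 _).2 hγ'
      have hγ3 : -1 ≤ γ := (hc1 _).1
      have p1 : ∀ u, |max (c u - (1 + γ) / 2) 0| ≤ 2 := fun u => by
        rw [abs_of_nonneg (le_max_right _ _)]
        exact max_le (by linarith [hc1 u]) (by norm_num)
      have p2 : ∀ u, |max ((1 + γ) / 2 - c u) 0| ≤ 2 := fun u => by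
        rw [abs_of_nonneg (le_max_right _ _)]
        exact max_le (by linarith [hc1 u]) (by norm_num)
      rcases h (fun u => max (c u - (1 + γ) / 2) 0) (fun u => max ((1 + γ) / 2 - c u) 0)
        (by fun_prop) (by fun_prop) p1 p2 (fun u => by simp only [hcp u])
        (fun u => by simp only [hcp u]) (fun u => by
          rcases le_total (c u) ((1 + γ) / 2) with h | h
          · rw [max_eq_right (by linarith), zero_mul]
          · rw [max_eq_right (a := (1 + γ) / 2 - c u) (by linarith), mul_zero]) with h | h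
      · have := hz _ (by fun_prop) p1 h s hs1 hs2
        have e : c l0 = 1 := by simp [hc]
        simp only [← hl0, e] at this
        have := le_max_left (1 - (1 + γ) / 2) 0
        linarith
      · have := hz _ (by fun_prop) p2 h t ht ht'
        simp only [← hγ] at this
        have := le_max_left ((1 + γ) / 2 - γ) 0
        linarith
    obtain ⟨k, hk⟩ := (Real.cos_eq_one_iff _).mp hγ1
    refine ⟨k, ?_⟩
    field_simp at hk
    linarith
  have hpos : ∀ t ∈ spectrum ℝ a, t * (1 - t) ≠ 0 → 0 < t ∧ t < 1 := fun t ht ht' => by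
    obtain ⟨b1, b2⟩ := mul_ne_zero_iff.mp ht'
    exact ⟨lt_of_le_of_ne (hs ht).1 b1.symm, lt_of_le_of_ne (hs ht).2 fun h => b2 (by linarith)⟩
  set β : ℝ → ℝ := fun u => max (|l| - |u - l0|) 0 with hβ
  have hd : Continuous (damp β) := damp_cont (by fun_prop) (M := |l|) fun u => by
    rw [abs_of_nonneg (le_max_right _ _)]
    exact max_le (by linarith [abs_nonneg (u - l0)]) (abs_nonneg _)
  have e1 : a * cfc (damp β) a = s • cfc (damp β) a := by
    conv_lhs => rw [← cfc_id' ℝ a, cfc_id' ℝ a]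
    rw [← cfc_const_mul s _ a]
    have : cfc (fun t : ℝ => t * damp β t) a = a * cfc (damp β) a := by
      rw [cfc_mul _ _ a, cfc_id' ℝ a]
    rw [← this]
    refine cfc_congr fun t ht => ?_
    by_cases ht' : t * (1 - t) = 0
    · simp [damp, ht']
    · obtain ⟨k, hk⟩ := horb t ht ht'
      rcases eq_or_ne k 0 with rfl | hk0
      · obtain ⟨b1, b2⟩ := hpos t ht ht'
        obtain ⟨b3, b4⟩ := hpos s hs1 hs2
        have b5 : t / (1 - t) = s / (1 - s) :=
          Real.log_injOn_pos (div_pos b1 (by linarith)) (div_pos b3 (by linarith))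
            (by simpa [sub_eq_zero] using hk)
        rw [div_eq_div_iff (by linarith) (by linarith)] at b5
        have : t = s := by linarith
        simp only [this]
      · have : β (Real.log (t / (1 - t))) = 0 := by
          simp only [hβ, hk, abs_mul]
          have : (1 : ℝ) ≤ |(k : ℝ)| := by exact_mod_cast Int.one_le_abs hk0
          exact max_eq_right (by nlinarith [abs_nonneg l])
        simp [damp, this]
  have e2 : cfc (damp β) a ≠ 0 := fun h => by
    rw [← cfc_zero ℝ a] at h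
    have := eqOn_of_cfc_eq_cfc h (by fun_prop) continuousOn_const ha hs1
    simp only [damp, ← hl0, hβ, sub_self, abs_zero, sub_zero, Pi.zero_apply] at this
    rw [max_eq_left (abs_nonneg l)] at this
    exact mul_ne_zero hs2 (abs_ne_zero.mpr hl) this
  obtain ⟨g, hg⟩ : ∃ g, cfc (damp β) a g ≠ 0 := by
    by_contra hcon
    push Not at hcon
    exact e2 (ContinuousLinearMap.ext hcon)
  refine ⟨s, _, (hpos s hs1 hs2).1, (hpos s hs1 hs2).2, hg, ?_⟩
  have := congrArg (fun S : G →L[ℂ] G => S g) e1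
  simpa [mul_apply_eq_comp] using this

end Pool.Agent.P.MP_aee195_lc
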