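import Pool.Agent.P.MP_aee195_lc.Comm
import Pool.Agent.P.MP_aee195_lc.Spec

set_option autoImplicit false

namespace Pool.Agent.P.MP_aee195_lc

open Filter Topology
open scoped InnerProductSpace

variable {A : Type*} [Ring A] [StarRing A] [Algebra ℂ A]
  {K : Type*} [NormedAddCommGroup K] [InnerProductSpace ℂ K] [CompleteSpace K]
  {G : Type*} [NormedAddCommGroup G] [InnerProductSpace ℂ G] [CompleteSpace G]

omit [CompleteSpace G] in
lemma ext_dense {E : Type*} [AddCommGroup E] [Module ℂ E] {L : E →ₗ[ℂ] G}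
    (hd : ∀ g, g ∈ closure (Set.range L)) {S T : G →L[ℂ] G}
    (h : ∀ x y, ⟪L x, S (L y)⟫_ℂ = ⟪L x, T (L y)⟫_ℂ) : S = T := by
  ext g
  refine eq_on_closure L (fun y => ?_) (hd g)
  rw [← sub_eq_zero, ← inner_self_eq_zero (𝕜 := ℂ)]
  exact inner_zero_of_closure L (fun x => by rw [inner_sub_right, h, sub_self]) (hd _)

omit [CompleteSpace G] in
lemma rel_of {a W V : G →L[ℂ] G} {α β : ℝ} (h1 : a * W = (α : ℂ) • (V * a))
    (h2 : (β : ℂ) • ((1 - a) * W) = V * (1 - a)) :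
    a * W * (1 - a) = (α * β) • ((1 - a) * W * a) := by
  have h3 : (β : ℂ) • ((1 - a) * W * a) = V * a * (1 - a) := by
    rw [← smul_mul_assoc, h2]; noncomm_ring
  rw [h1, smul_mul_assoc, ← h3, smul_smul, ← Complex.ofReal_mul, Complex.coe_smul]

omit [CompleteSpace G] in
lemma eigen_shift {a W : G →L[ℂ] G} {μ c : ℝ} (hμ : 0 < μ) (hc : 0 < c)
    (h : a * W * (1 - a) = μ • ((1 - a) * W * a)) {g : G}
    (hg : a g = ((c / (1 + c) : ℝ) : ℂ) • g) :
    a (W g) = ((c * μ / (1 + c * μ) : ℝ) : ℂ) • W g := by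
  have := congrArg (fun S : G →L[ℂ] G => S g) h
  simp only [mul_apply_eq_comp, smul_apply, sub_apply, one_apply_eq_self, hg, map_sub,
    map_smul, ← Complex.coe_smul] at this
  have h1 : ((1 + c : ℝ) : ℂ) ≠ 0 := Complex.ofReal_ne_zero.mpr (by positivity)
  have h2 : ((1 + c * μ : ℝ) : ℂ) ≠ 0 := Complex.ofReal_ne_zero.mpr (by positivity)
  push_cast at h1 h2 this ⊢
  have h3 : ((1 + c * μ) / (1 + c) : ℂ) • a (W g) = (c * μ / (1 + c) : ℂ) • W g := by
    have e1 : ((1 + c * μ) / (1 + c) : ℂ) = 1 - c / (1 + c) + μ * (c / (1 + c)) := by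
      field_simp; ring
    have e2 : (c * μ / (1 + c) : ℂ) = μ * (c / (1 + c)) := by ring
    rw [e1, e2]
    linear_combination (norm := module) this
  have h4 := congrArg (fun v => ((1 + c) / (1 + c * μ) : ℂ) • v) h3
  simp only [smul_smul] at h4
  rw [show ((1 + c) / (1 + c * μ) * ((1 + c * μ) / (1 + c)) : ℂ) = 1 by field_simp,
    one_smul] at h4
  rw [h4]; congr 1; field_simp

namespace Rep

variable {R : Rep A K} {ξ η : K} {lam : ℝ}

/-- The graph of the relative Tomita operator. -/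
structure Graph (R : Rep A K) (ξ η : K) (L : A →ₗ[ℂ] G) (T : G →L[ℂ] K) : Prop where
  dense : ∀ g, g ∈ closure (Set.range L)
  inner : ∀ x y, ⟪L x, L y⟫_ℂ = R.vs ξ (star x * y) + R.vs η (y * star x)
  T_L : ∀ x, T (L x) = R.ρ x ξ

variable {L : A →ₗ[ℂ] G} {T : G →L[ℂ] K}

omit [CompleteSpace G] in
lemma Graph.norm_sq (h : R.Graph ξ η L T) (x : A) :
    ‖L x‖ ^ 2 = ‖R.ρ x ξ‖ ^ 2 + ‖R.ρ (star x) η‖ ^ 2 := by
  have := h.inner x x
  have h2 := R.vs_star_self η (star x)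
  rw [star_star] at h2
  rw [vs_star_self, h2, inner_self_eq_norm_sq_to_K] at this
  apply Complex.ofReal_injective
  simpa using this

lemma Graph.inner_a (h : R.Graph ξ η L T) (x y : A) :
    ⟪L x, (T.adjoint ∘L T) (L y)⟫_ℂ = R.vs ξ (star x * y) := by
  rw [ContinuousLinearMap.comp_apply, ContinuousLinearMap.adjoint_inner_right, h.T_L, h.T_L,
    vs_star_mul]

lemma Graph.inner_b (h : R.Graph ξ η L T) (x y : A) :
    ⟪L x, (1 - T.adjoint ∘L T : G →L[ℂ] G) (L y)⟫_ℂ = R.vs η (y * star x) := by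
  rw [sub_apply, inner_sub_right, h.inner_a, one_apply_eq_self, h.inner]; ring

lemma Graph.exists_op (h : R.Graph ξ η L T) (m : A →ₗ[ℂ] A) {c d : ℝ} (hc : 0 ≤ c) (hd : 0 ≤ d)
    (h1 : ∀ x, ‖R.ρ (m x) ξ‖ ≤ c * ‖R.ρ x ξ‖)
    (h2 : ∀ x, ‖R.ρ (star (m x)) η‖ ≤ d * ‖R.ρ (star x) η‖) :
    ∃ W : G →L[ℂ] G, ∀ x, W (L x) = L (m x) := by
  obtain ⟨W, hW, -⟩ := exists_ext L (L ∘ₗ m) (C := c + d) (by positivity) fun x => by
    refine (pow_le_pow_iff_left₀ (norm_nonneg _) (by positivity) two_ne_zero).mp ?_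
    rw [LinearMap.comp_apply, mul_pow, h.norm_sq, h.norm_sq]
    have e1 := pow_le_pow_left₀ (norm_nonneg _) (h1 x) 2
    have e2 := pow_le_pow_left₀ (norm_nonneg _) (h2 x) 2
    rw [mul_pow] at e1 e2
    nlinarith [mul_nonneg hc hd, sq_nonneg ‖R.ρ x ξ‖, sq_nonneg ‖R.ρ (star x) η‖,
      mul_nonneg (sq_nonneg d) (sq_nonneg ‖R.ρ x ξ‖),
      mul_nonneg (sq_nonneg c) (sq_nonneg ‖R.ρ (star x) η‖),
      mul_nonneg (mul_nonneg hc hd) (sq_nonneg ‖R.ρ x ξ‖),
      mul_nonneg (mul_nonneg hc hd) (sq_nonneg ‖R.ρ (star x) η‖)]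
  exact ⟨W, hW⟩

lemma Graph.left (h : R.Graph ξ η L T) {μ : ℝ} (hμ : 0 < μ) {w : A} (hw : R.Eig η η μ w) :
    ∃ W : G →L[ℂ] G, (∀ g, T (W g) = R.ρ w (T g)) ∧
      T.adjoint ∘L T * W * (1 - T.adjoint ∘L T) = μ • ((1 - T.adjoint ∘L T) * W * T.adjoint ∘L T) := by
  have key : ∀ {μ : ℝ} {w : A}, 0 < μ → R.Eig η η μ w →
      ∃ W : G →L[ℂ] G, ∀ x, W (L x) = L (w * x) := fun {μ w} hμ hw =>
    h.exists_op (LinearMap.mulLeft ℂ w) (norm_nonneg (R.ρ w))
      (d := Real.sqrt μ⁻¹ * ‖R.ρ (star w)‖) (by positivity)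
      (fun x => by rw [LinearMap.mulLeft_apply, ρ_mul_apply]; exact (R.ρ w).le_opNorm _)
      (fun x => by
        rw [LinearMap.mulLeft_apply, star_mul]
        exact (hw.adj hμ.ne').right_bound (inv_pos.mpr hμ) _)
  obtain ⟨W, hW⟩ := key hμ hw
  obtain ⟨W', hW'⟩ := key (inv_pos.mpr hμ) (hw.adj hμ.ne')
  refine ⟨W, fun g => eq_on_closure L (S := T ∘L W) (T := R.ρ w ∘L T)
    (fun x => by simp [hW, h.T_L]) (h.dense g), ?_⟩
  have := rel_of (a := T.adjoint ∘L T) (W := W) (V := star W') (α := 1) (β := μ)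
    (ext_dense h.dense fun x y => by
      rw [mul_apply_eq_comp, hW, h.inner_a, smul_apply, mul_apply_eq_comp, inner_smul_right,
        inner_star_right, hW', h.inner_a, star_mul, star_star, mul_assoc]; simp)
    (ext_dense h.dense fun x y => by
      rw [smul_apply, mul_apply_eq_comp, hW, inner_smul_right, h.inner_b, mul_apply_eq_comp,
        inner_star_right, hW', h.inner_b, star_mul, star_star, ← mul_assoc y, hw, mul_assoc w])
  rwa [one_mul] at this

lemma Graph.right (h : R.Graph ξ η L T) {μ : ℝ} (hμ : 0 < μ) {v : A} (hv : R.Eig ξ ξ μ v)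
    {z : K →L[ℂ] K} (hz : R.IsR ξ v z) :
    ∃ W : G →L[ℂ] G, (∀ g, T (W g) = z (T g)) ∧
      T.adjoint ∘L T * W * (1 - T.adjoint ∘L T) = μ • ((1 - T.adjoint ∘L T) * W * T.adjoint ∘L T) := by
  have key : ∀ {μ : ℝ} {v : A}, 0 < μ → R.Eig ξ ξ μ v →
      ∃ W : G →L[ℂ] G, ∀ x, W (L x) = L (x * v) := fun {μ v} hμ hv =>
    h.exists_op (LinearMap.mulRight ℂ v) (c := Real.sqrt μ * ‖R.ρ v‖) (by positivity)
      (norm_nonneg (R.ρ (star v))) (fun x => hv.right_bound hμ x)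
      (fun x => by
        rw [LinearMap.mulRight_apply, star_mul, ρ_mul_apply]; exact (R.ρ (star v)).le_opNorm _)
  obtain ⟨W, hW⟩ := key hμ hv
  obtain ⟨W', hW'⟩ := key (inv_pos.mpr hμ) (hv.adj hμ.ne')
  refine ⟨W, fun g => eq_on_closure L (S := T ∘L W) (T := z ∘L T)
    (fun x => by simp only [ContinuousLinearMap.comp_apply, hW, h.T_L, hz.1]) (h.dense g), ?_⟩
  have := rel_of (a := T.adjoint ∘L T) (W := W) (V := star W') (α := μ) (β := 1)
    (ext_dense h.dense fun x y => by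
      rw [mul_apply_eq_comp, hW, h.inner_a, smul_apply, mul_apply_eq_comp, inner_smul_right,
        inner_star_right, hW', h.inner_a, star_mul, star_star, ← mul_assoc (star x), hv,
        mul_assoc v])
    (ext_dense h.dense fun x y => by
      rw [smul_apply, mul_apply_eq_comp, hW, inner_smul_right, h.inner_b, mul_apply_eq_comp,
        inner_star_right, hW', h.inner_b, star_mul, star_star, mul_assoc y]; simp)
  rwa [mul_one] at this

omit [CompleteSpace G] in
lemma Graph.e_T (h : R.Graph ξ η L T) (g : G) : R.e ξ (T g) = T g :=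
  eq_on_closure L (S := R.e ξ ∘L T) (fun x => by simp [h.T_L]) (h.dense g)

lemma Graph.inj (h : R.Graph ξ η L T) (hs : R.Sep ξ) {g : G} (hg : T g = 0) : g = 0 := by
  have key : ∀ x', ∀ y ∈ R.C, ‖⟪L x', (1 - T.adjoint ∘L T : G →L[ℂ] G) g⟫_ℂ‖ ≤
      ‖star y η‖ * ‖T g‖ + ‖g‖ * ‖y ξ - R.ρ (star x') η‖ := fun x' y hy => by
    have : closure (Set.range L) ⊆ {g | ‖⟪L x', (1 - T.adjoint ∘L T : G →L[ℂ] G) g⟫_ℂ‖ ≤
        ‖star y η‖ * ‖T g‖ + ‖g‖ * ‖y ξ - R.ρ (star x') η‖} := by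
      refine closure_minimal ?_ (isClosed_le (by fun_prop) (by fun_prop))
      rintro _ ⟨x, rfl⟩
      have e1 : R.vs η (x * star x') =
          ⟪star y η, R.ρ x ξ⟫_ℂ - ⟪R.ρ (star x) η, y ξ - R.ρ (star x') η⟫_ℂ := by
        rw [vs_mul, inner_sub_right, inner_star_left, R.C_apply hy, map_star _ x,
          inner_star_left (R.ρ x) η (y ξ)]
        ring
      have e2 : ‖R.ρ (star x) η‖ ≤ ‖L x‖ := by
        refine (pow_le_pow_iff_left₀ (norm_nonneg _) (by positivity) two_ne_zero).mp ?_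
        rw [h.norm_sq]; nlinarith [sq_nonneg ‖R.ρ x ξ‖]
      rw [Set.mem_ofPred_eq, h.inner_b, e1, h.T_L]
      refine (norm_sub_le _ _).trans (add_le_add (norm_inner_le_norm _ _)
        ((norm_inner_le_norm _ _).trans ?_))
      gcongr
    exact this (h.dense g)
  have e1 : (1 - T.adjoint ∘L T : G →L[ℂ] G) g = g := by simp [hg]
  rw [e1, hg] at key
  rw [← inner_self_eq_zero (𝕜 := ℂ)]
  refine inner_zero_of_closure L (fun x => ?_) (h.dense g)
  refine eq_zero_of_le_closure (R.corb ξ) (θ := R.ρ (star x) η) (D := ‖g‖) ?_ fun y => ?_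
  · rw [← hs.pr_corb (R.ρ (star x) η)]; exact pr_mem _ _
  · simpa using key x y.1 y.2

theorem Graph.exists_rel (hg : R.Graph ξ η L T) (h : R.Gr ξ lam) (h' : R.Gr η lam) (h0 : 0 < lam)
    (h1 : lam < 1) (hF : Fac A) (hη : η ≠ 0) : ∃ c x, 0 < c ∧ x ≠ 0 ∧ R.Eig ξ η c x := by
  set a : G →L[ℂ] G := T.adjoint ∘L T with ha
  have haa : ∀ g g', ⟪g, a g'⟫_ℂ = ⟪T g, T g'⟫_ℂ := fun g g' =>
    ContinuousLinearMap.adjoint_inner_right T g (T g')
  have a0 : 0 ≤ a := (ContinuousLinearMap.nonneg_iff_isPositive _).mpr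
    (ContinuousLinearMap.isPositive_adjoint_comp_self T)
  have asa := IsSelfAdjoint.of_nonneg a0
  have hTn : ∀ g, ‖T g‖ ≤ ‖g‖ := fun g => by
    have : closure (Set.range L) ⊆ {g | ‖T g‖ ≤ ‖g‖} := by
      refine closure_minimal ?_ (isClosed_le (by fun_prop) (by fun_prop))
      rintro _ ⟨x, rfl⟩
      refine (pow_le_pow_iff_left₀ (norm_nonneg _) (by positivity) two_ne_zero).mp ?_
      rw [hg.norm_sq, hg.T_L]; nlinarith [sq_nonneg ‖R.ρ (star x) η‖]
    exact this (hg.dense g)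
  have a1 : a ≤ 1 := by
    rw [← sub_nonneg, ContinuousLinearMap.nonneg_iff_isPositive,
      ContinuousLinearMap.isPositive_iff_complex]
    intro g
    have e : ⟪(1 - a : G →L[ℂ] G) g, g⟫_ℂ = ((‖g‖ ^ 2 - ‖T g‖ ^ 2 : ℝ) : ℂ) := by
      rw [← inner_conj_symm, sub_apply, inner_sub_right, haa, one_apply_eq_self,
        inner_self_eq_norm_sq_to_K, inner_self_eq_norm_sq_to_K]
      simp
    rw [e]
    refine ⟨by rw [RCLike.re_to_complex, Complex.ofReal_re], ?_⟩
    simp only [RCLike.re_to_complex, Complex.ofReal_re]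
    nlinarith [hTn g, norm_nonneg (T g)]
  have ainj : ∀ g, a g = 0 → g = 0 := fun g hg0 => hg.inj h.sep (by
    rw [← inner_self_eq_zero (𝕜 := ℂ), ← haa, hg0, inner_zero_right])
  have hl : Real.log lam ≠ 0 := (Real.log_neg h0 h1).ne
  obtain ⟨s, g0, s0, s1, hg0, hg1⟩ := exists_eigen a0 a1 hl (fun hz => by
      have e1 : (1 - a : G →L[ℂ] G) (L 1) = 0 := ainj _ (by
        rw [← mul_apply_eq_comp, hz, zero_apply])
      have := hg.inner_b 1 1
      rw [e1, inner_zero_right] at this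
      apply hη
      simpa [vs] using this.symm)
    (fun P Q hP hQ hP2 hQ2 hP3 hQ3 hPQ => by
      have hper : ∀ (k : ℤ) u, P (u + Real.log (lam ^ k)) = P u := fun k u => by
        rw [Real.log_zpow]; exact hP3.int_mul k u
      have hPQ' : cfc (damp P) a * a * cfc (damp Q) a = 0 := by
        have e1 := damp_cont hP hP2
        have e2 := damp_cont hQ hQ2
        conv_lhs => rw [← cfc_id' ℝ a, cfc_id' ℝ a]
        have : cfc (fun t : ℝ => damp P t * t * damp Q t) a =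
            cfc (damp P) a * a * cfc (damp Q) a := by
          rw [cfc_mul _ _ a, cfc_mul _ _ a, cfc_id' ℝ a]
        rw [← this, ← cfc_zero ℝ a]
        refine cfc_congr fun t _ => ?_
        simp only [damp, Pi.zero_apply]
        linear_combination (t * (1 - t) * t * (t * (1 - t))) * hPQ (Real.log (t / (1 - t)))
      rcases h.irred h' h0 h1 hF (T ∘L cfc (damp P) a).toLinearMap (fun g => hg.e_T _)
        (fun k w hw g => by
          obtain ⟨W, hW1, hW2⟩ := hg.left (zpow_pos h0 k) hw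
          obtain ⟨m, hm⟩ := damp_range a0 a1 (zpow_pos h0 k) hW2 hP hP2 (hper k)
          refine ⟨m g, ?_⟩
          change R.ρ w (T (cfc (damp P) a g)) = T (cfc (damp P) a (m g))
          rw [← hW1, ← mul_apply_eq_comp, hm, mul_apply_eq_comp])
        (fun k v z hv hz g => by
          obtain ⟨W, hW1, hW2⟩ := hg.right (zpow_pos h0 k) hv hz
          obtain ⟨m, hm⟩ := damp_range a0 a1 (zpow_pos h0 k) hW2 hP hP2 (hper k)
          refine ⟨m g, ?_⟩
          change z (T (cfc (damp P) a g)) = T (cfc (damp P) a (m g))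
          rw [← hW1, ← mul_apply_eq_comp, hm, mul_apply_eq_comp]) with hh | hh
      · left
        ext g
        have : T (cfc (damp P) a g) = 0 := hh g
        change T.adjoint (T (cfc (damp P) a g)) = 0
        rw [this, map_zero]
      · right
        ext g
        have := hh (T (cfc (damp Q) a g)) fun g' => by
          change ⟪T (cfc (damp P) a g'), _⟫_ℂ = 0
          have e1 : star (cfc (damp P) a) = cfc (damp P) a :=
            (cfc_predicate (damp P) a : IsSelfAdjoint _).star_eq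
          rw [← haa, ← inner_star_right, e1, ← mul_apply_eq_comp, ← mul_apply_eq_comp, hPQ']
          simp
        rw [hg.e_T] at this
        change T.adjoint (T (cfc (damp Q) a g)) = 0
        rw [this, map_zero])
  -- eigenspaces on K
  let N : ℝ → Submodule ℂ K := fun c =>
    LinearMap.ker (T ∘L T.adjoint - ((c / (1 + c) : ℝ) : ℂ) • (1 : K →L[ℂ] K) : K →L[ℂ] K).toLinearMap
  have hN : ∀ c θ, θ ∈ N c ↔ T (T.adjoint θ) = ((c / (1 + c) : ℝ) : ℂ) • θ := fun c θ => by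
    simp [N, sub_eq_zero]
  have hNc : ∀ c θ, θ ∈ closure (Set.range (N c).subtype) → θ ∈ N c := fun c θ hθ =>
    (hN c θ).mpr (eq_on_closure (N c).subtype (S := T ∘L T.adjoint)
      (T := ((c / (1 + c) : ℝ) : ℂ) • 1) (fun x => (hN c _).mp x.2) hθ)
  have hNg : ∀ c, 0 < c → ∀ θ ∈ N c, ∃ g, T g = θ ∧ a g = ((c / (1 + c) : ℝ) : ℂ) • g := by
    intro c hc θ hθ
    have hs : ((c / (1 + c) : ℝ) : ℂ) ≠ 0 := Complex.ofReal_ne_zero.mpr (by positivity)
    have e1 : T (((c / (1 + c) : ℝ) : ℂ)⁻¹ • T.adjoint θ) = θ := by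
      rw [map_smul, (hN c θ).mp hθ, smul_smul, inv_mul_cancel₀ hs, one_smul]
    refine ⟨_, e1, ?_⟩
    rw [ha, ContinuousLinearMap.comp_apply, e1, smul_smul, mul_inv_cancel₀ hs, one_smul]
  have hgN : ∀ c g, a g = ((c / (1 + c) : ℝ) : ℂ) • g → T g ∈ N c := fun c g hg' => by
    rw [hN, ← map_smul, ← hg']; rfl
  have hsh : ∀ c μ, 0 < c → 0 < μ → ∀ v z, R.Eig ξ ξ μ v → R.IsR ξ v z → ∀ θ ∈ N c,
      z θ ∈ N (c * μ) := fun c μ hc hμ v z hv hz θ hθ => by
    obtain ⟨g, rfl, hg'⟩ := hNg c hc θ hθ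
    obtain ⟨W, hW1, hW2⟩ := hg.right hμ hv hz
    rw [← hW1]
    exact hgN _ _ (eigen_shift hμ hc hW2 hg')
  have hp : ∀ c μ, 0 < c → 0 < μ → ∀ v z, R.Eig ξ ξ μ v → R.IsR ξ v z → ∀ θ,
      z (pr (N c).subtype θ) = pr (N (c * μ)).subtype (z θ) := fun c μ hc hμ v z hv hz θ => by
    obtain ⟨z', hz'⟩ := (hv.adj hμ.ne').exists_isR (inv_pos.mpr hμ)
    refine pr_semiconj _ _ _ (fun x => subset_closure ⟨⟨_, hsh c μ hc hμ v z hv hz _ x.2⟩, rfl⟩)
      (fun x => subset_closure ⟨⟨star z x.1, ?_⟩, rfl⟩) θ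
    have := hsh _ _ (mul_pos hc hμ) (inv_pos.mpr hμ) _ _ (hv.adj hμ.ne') hz' _ x.2
    rw [mul_inv_cancel_right₀ hμ.ne'] at this
    rw [IsR.star_eq hμ.ne' hv hz hz', smul_apply]
    exact (N c).smul_mem _ this
  have horth : ∀ c d, 0 < c → 0 < d → c ≠ d → ∀ u v,
      ⟪pr (N c).subtype u, pr (N d).subtype v⟫_ℂ = 0 := fun c d hc hd hcd u v => by
    refine inner_closure _ _ (fun x y => ?_) (pr_mem _ u) (pr_mem _ v)
    have e1 : ⟪T (T.adjoint x.1), y.1⟫_ℂ = ⟪x.1, T (T.adjoint y.1)⟫_ℂ := by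
      rw [← ContinuousLinearMap.adjoint_inner_right, ContinuousLinearMap.adjoint_inner_left]
    rw [(hN c _).mp x.2, (hN d _).mp y.2, inner_smul_left, inner_smul_right,
      Complex.conj_ofReal] at e1
    have e2 : ((c / (1 + c) - d / (1 + d) : ℝ) : ℂ) * ⟪x.1, y.1⟫_ℂ = 0 := by
      rw [Complex.ofReal_sub, sub_mul, e1, sub_self]
    refine (mul_eq_zero.mp e2).resolve_left (Complex.ofReal_ne_zero.mpr fun h => hcd ?_)
    rw [sub_eq_zero, div_eq_div_iff (by positivity) (by positivity)] at h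
    linarith
  obtain ⟨c, hc, hcξ⟩ : ∃ c, 0 < c ∧ pr (N c).subtype ξ ≠ 0 := by
    by_contra hcon
    push Not at hcon
    have hc0 : 0 < s / (1 - s) := div_pos s0 (by linarith)
    have e1 : T g0 ∈ N (s / (1 - s)) := hgN _ _ (by
      rw [hg1]; congr 2
      have : 1 - s ≠ 0 := by linarith
      field_simp; ring)
    have e2 : R.e ξ (T g0) = R.e ξ 0 := h.e_eq fun k w hw => by
      have hk := zpow_pos h0 k
      obtain ⟨z, hz⟩ := hw.exists_isR hk
      have := hp (s / (1 - s) * (lam ^ k)⁻¹) _ (by positivity) hk w z hw hz ξ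
      rw [hcon _ (by positivity), map_zero, inv_mul_cancel_right₀ hk.ne', hz.self] at this
      have e3 : pr (N (s / (1 - s))).subtype (T g0) = T g0 :=
        pr_apply (N (s / (1 - s))).subtype ⟨_, e1⟩
      rw [← e3, ← inner_pr, ← this]
      simp
    rw [hg.e_T, map_zero] at e2
    exact hg0 (hg.inj h.sep e2)
  obtain ⟨X, hX1, hX2⟩ := exists_block (fun k : ℤ => R.q ξ (lam ^ k))
    (fun k : ℤ => pr (N (c * lam ^ k)).subtype)
    (fun i j a b hij => q_orth (zpow_pos h0 i).ne' (lam_ne h0 h1 hij) a b)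
    (fun i j a b hij => horth _ _ (by positivity) (by positivity)
      (fun h => lam_ne h0 h1 hij (mul_left_cancel₀ hc.ne' h)) a b) zero_le_one
    (fun i a => by rw [one_mul]; exact norm_pr_le _ _)
  have hXe := block_e hX2
  have hXw : ∀ (k : ℤ) w, R.Eig ξ ξ (lam ^ k) w →
      X (R.ρ w ξ) = pr (N (c * lam ^ k)).subtype (R.ρ w ξ) := fun k w hw => by
    have := hX1 k (R.ρ w ξ)
    rwa [hw.q_self] at this
  have hXξ : X ξ = pr (N c).subtype ξ := by
    have := hXw 0 1 ((Eig.one ξ).congr (zpow_zero lam).symm)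
    rwa [zpow_zero, mul_one, map_one, one_apply_eq_self] at this
  obtain ⟨x, hx⟩ := h.exists_left h0 h1 hXe
    (fun θ => by
      rw [← hXe]
      refine h.ext (S := R.e ξ * X) (fun k w hw => ?_) θ
      obtain ⟨g, hg', -⟩ := hNg _ (by positivity) _
        (hNc (c * lam ^ k) _ (pr_mem _ (R.ρ w ξ)))
      rw [mul_apply_eq_comp, hXw k w hw, ← hg', hg.e_T])
    (fun k v z hv hz θ => by
      rw [← hz.2, ← hXe θ]
      refine h.ext (S := X * z) (T := z * X) (fun j w hw => ?_) θ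
      rw [mul_apply_eq_comp, mul_apply_eq_comp, hXw j w hw,
        hp _ _ (by positivity) (zpow_pos h0 k) v z hv hz, hz.1,
        hXw (j + k) _ ((hw.mul hv).congr (by rw [zpow_add₀ h0.ne', mul_comm])),
        zpow_add₀ h0.ne', mul_assoc])
  have hxξ : R.ρ x ξ = pr (N c).subtype ξ := by rw [← hXξ, hx, e_self]
  obtain ⟨g, hg2, hg3⟩ := hNg c hc _ (hNc c _ (pr_mem _ ξ))
  have hLx : L x = g := sub_eq_zero.mp (hg.inj h.sep (by rw [map_sub, hg.T_L, hg2, hxξ, sub_self]))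
  refine ⟨c, x, hc, fun hx0 => hcξ (by rw [← hxξ, hx0]; simp), fun y => ?_⟩
  have e1 := hg.inner_a (star y) x
  have e2 := hg.inner_b (star y) x
  rw [star_star] at e1 e2
  rw [← e1, ← e2, sub_apply, ← ha, hLx, hg3, one_apply_eq_self, inner_sub_right, inner_smul_right]
  have : ((1 + c : ℝ) : ℂ) ≠ 0 := Complex.ofReal_ne_zero.mpr (by positivity)
  push_cast at this ⊢
  field_simp; ring

theorem exists_rel (h : R.Gr ξ lam) (h' : R.Gr η lam) (h0 : 0 < lam)
    (h1 : lam < 1) (hF : Fac A) (hη : η ≠ 0) : ∃ c x, 0 < c ∧ x ≠ 0 ∧ R.Eig ξ η c x := by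
  obtain ⟨G, _, _, _, L, hd, hL⟩ := exists_hilbert
    (fun x y : A => R.vs ξ (star x * y) + R.vs η (y * star x))
    (fun x y => by simp only [map_add, ← vs_star, star_mul, star_star])
    (fun x => by
      have h2 := R.vs_star_self η (star x)
      rw [star_star] at h2
      rw [vs_star_self, h2, Complex.add_re, Complex.ofReal_re, Complex.ofReal_re]; positivity)
    (fun x y z => by simp only [star_add, add_mul, mul_add, vs_add]; ring)
    (fun x y r => by
      have : star (r • x) = (starRingEnd ℂ) r • star x := R.inj (by simp [map_star])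
      rw [this, smul_mul_assoc, mul_smul_comm, vs_smul, vs_smul]; ring)
  obtain ⟨T, hT, -⟩ := exists_ext L (R.orb ξ) zero_le_one fun x => by
    refine (pow_le_pow_iff_left₀ (norm_nonneg _) (by positivity) two_ne_zero).mp ?_
    have := hL x x
    have h2 := R.vs_star_self η (star x)
    rw [star_star] at h2
    rw [vs_star_self, h2, inner_self_eq_norm_sq_to_K] at this
    have h3 : ‖L x‖ ^ 2 = ‖R.ρ x ξ‖ ^ 2 + ‖R.ρ (star x) η‖ ^ 2 := by
      apply Complex.ofReal_injective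
      simpa using this
    rw [one_mul, h3, orb_apply]
    nlinarith [sq_nonneg ‖R.ρ (star x) η‖]
  exact Graph.exists_rel ⟨hd, hL, hT⟩ h h' h0 h1 hF hη

end Rep

end Pool.Agent.P.MP_aee195_lc
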