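import Pool.Agent.P.MP_aee195_lc.Iso

set_option autoImplicit false

namespace Pool.Agent.P.MP_aee195_lc

open Filter Topology
open scoped InnerProductSpace

variable {A : Type*} [Ring A] [StarRing A] [Algebra ℂ A]
  {K : Type*} [NormedAddCommGroup K] [InnerProductSpace ℂ K] [CompleteSpace K]

/-- Diagonal embedding through isometries. -/
def dg (k : ℕ) (u : ℕ → A) (a : A) : A := ∑ i ∈ Finset.range k, u i * a * star (u i)

/-- Averaged compression. -/
noncomputable def av (k : ℕ) (u : ℕ → A) (x : A) : A :=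
  (k : ℂ)⁻¹ • ∑ i ∈ Finset.range k, star (u i) * x * u i

section Fin

variable {k : ℕ} {u : ℕ → A}

omit [Algebra ℂ A] in
lemma star_mul_dg (hu : ∀ i < k, ∀ j < k, star (u i) * u j = if i = j then 1 else 0) {i : ℕ}
    (hi : i < k) (a : A) : star (u i) * dg k u a = a * star (u i) := by
  rw [dg, Finset.mul_sum, Finset.sum_eq_single i]
  · rw [← mul_assoc, ← mul_assoc, hu i hi i hi, if_pos rfl, one_mul]
  · intro j hj hji
    rw [← mul_assoc, ← mul_assoc, hu i hi j (Finset.mem_range.mp hj), if_neg hji.symm, zero_mul,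
      zero_mul]
  · intro h; exact absurd (Finset.mem_range.mpr hi) h

omit [Algebra ℂ A] in
lemma dg_star (a : A) : dg k u (star a) = star (dg k u a) := by
  simp [dg, star_sum, mul_assoc]

omit [Algebra ℂ A] in
lemma dg_mul_u (hu : ∀ i < k, ∀ j < k, star (u i) * u j = if i = j then 1 else 0) {i : ℕ}
    (hi : i < k) (a : A) : dg k u a * u i = u i * a := by
  have := congrArg star (star_mul_dg hu hi (star a))
  rwa [star_mul, star_mul, star_star, star_star, ← dg_star, star_star] at this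

omit [Algebra ℂ A] in
lemma dg_mul (hu : ∀ i < k, ∀ j < k, star (u i) * u j = if i = j then 1 else 0) (a b : A) :
    dg k u (a * b) = dg k u a * dg k u b := by
  conv_rhs => rw [dg, Finset.sum_mul]
  refine Finset.sum_congr rfl fun i hi => ?_
  rw [mul_assoc _ (star (u i)), star_mul_dg hu (Finset.mem_range.mp hi)]
  simp only [mul_assoc]

omit [Algebra ℂ A] in
lemma dg_add (a b : A) : dg k u (a + b) = dg k u a + dg k u b := by
  simp [dg, mul_add, add_mul, Finset.sum_add_distrib]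

omit [Algebra ℂ A] in
lemma dg_sub (a b : A) : dg k u (a - b) = dg k u a - dg k u b := by
  simp [dg, mul_sub, sub_mul, Finset.sum_sub_distrib]

lemma dg_smul (r : ℂ) (a : A) : dg k u (r • a) = r • dg k u a := by
  simp [dg, Finset.smul_sum]

omit [Algebra ℂ A] in
lemma dg_proj (hu : ∀ i < k, ∀ j < k, star (u i) * u j = if i = j then 1 else 0) :
    IsStarProjection (dg k u 1) :=
  ⟨by rw [IsIdempotentElem, ← dg_mul hu, one_mul], by rw [IsSelfAdjoint, ← dg_star, star_one]⟩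

lemma av_mul (hu : ∀ i < k, ∀ j < k, star (u i) * u j = if i = j then 1 else 0) (a x b : A) :
    av k u (dg k u a * x * dg k u b) = a * av k u x * b := by
  rw [av, av, mul_smul_comm, smul_mul_assoc, Finset.mul_sum, Finset.sum_mul]
  congr 1
  refine Finset.sum_congr rfl fun i hi => ?_
  rw [← mul_assoc, ← mul_assoc, star_mul_dg hu (Finset.mem_range.mp hi), mul_assoc _ _ (u i),
    dg_mul_u hu (Finset.mem_range.mp hi)]
  simp only [mul_assoc]

lemma av_one (hu : ∀ i < k, ∀ j < k, star (u i) * u j = if i = j then 1 else 0) (hk : 0 < k) :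
    av k u 1 = 1 := by
  rw [av, Finset.sum_congr rfl fun i hi => by
    rw [mul_one, hu i (Finset.mem_range.mp hi) i (Finset.mem_range.mp hi), if_pos rfl]]
  rw [Finset.sum_const, Finset.card_range, ← Nat.cast_smul_eq_nsmul ℂ, smul_smul,
    inv_mul_cancel₀ (by exact_mod_cast hk.ne'), one_smul]

lemma av_add (a b : A) : av k u (a + b) = av k u a + av k u b := by
  simp [av, mul_add, add_mul, Finset.sum_add_distrib]

lemma av_smul (r : ℂ) (a : A) : av k u (r • a) = r • av k u a := by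
  simp only [av, mul_smul_comm, smul_mul_assoc, ← Finset.smul_sum, smul_comm r]

namespace Rep

variable (R : Rep A K)

lemma norm_isom {v : A} (hv : star v * v = 1) (θ : K) : ‖R.ρ v θ‖ = ‖θ‖ := by
  have : ⟪R.ρ v θ, R.ρ v θ⟫_ℂ = ⟪θ, θ⟫_ℂ := by
    rw [← inner_star_right, ← map_star, ← ρ_mul_apply, hv]; simp
  rw [norm_eq_sqrt_re_inner (𝕜 := ℂ), this, ← norm_eq_sqrt_re_inner (𝕜 := ℂ)]

lemma norm_dg_sq (hu : ∀ i < k, ∀ j < k, star (u i) * u j = if i = j then 1 else 0) (a : A)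
    (θ : K) : ‖R.ρ (dg k u a) θ‖ ^ 2 =
      ∑ i ∈ Finset.range k, ‖R.ρ a (R.ρ (star (u i)) θ)‖ ^ 2 := by
  have e : R.ρ (dg k u a) θ = ∑ i : Finset.range k, R.ρ (u i) (R.ρ a (R.ρ (star (u i)) θ)) := by
    rw [Finset.sum_coe_sort (Finset.range k) fun i => R.ρ (u i) (R.ρ a (R.ρ (star (u i)) θ))]
    simp [dg, mul_apply_eq_comp]
  rw [e, norm_sum_sq, ← Finset.sum_coe_sort (Finset.range k)]
  · refine Finset.sum_congr rfl fun i _ => ?_
    rw [R.norm_isom (by
      rw [hu i (Finset.mem_range.mp i.2) i (Finset.mem_range.mp i.2), if_pos rfl])]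
  · intro i j hij
    rw [← inner_star_right, ← map_star, ← ρ_mul_apply _ (star (u i)) (u j),
      hu i (Finset.mem_range.mp i.2) j (Finset.mem_range.mp j.2),
      if_neg fun h => hij (Subtype.ext h)]
    simp

lemma norm_dg (hu : ∀ i < k, ∀ j < k, star (u i) * u j = if i = j then 1 else 0) (a : A) :
    ‖R.ρ (dg k u a)‖ ≤ ‖R.ρ a‖ := by
  refine ContinuousLinearMap.opNorm_le_bound _ (norm_nonneg _) fun θ => ?_
  refine (pow_le_pow_iff_left₀ (norm_nonneg _) (by positivity) two_ne_zero).mp ?_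
  have h1 := R.norm_dg_sq hu 1 θ
  have h2 : ‖R.ρ (dg k u 1) θ‖ ≤ ‖θ‖ := by
    have := (R.ρ (dg k u 1)).le_opNorm θ
    have h3 := IsStarProjection.norm_le _ ((dg_proj hu).map R.ρ)
    nlinarith [norm_nonneg θ]
  simp only [map_one, one_apply_eq_self] at h1
  calc _ = _ := R.norm_dg_sq hu a θ
    _ ≤ ∑ i ∈ Finset.range k, ‖R.ρ a‖ ^ 2 * ‖R.ρ (star (u i)) θ‖ ^ 2 :=
      Finset.sum_le_sum fun i _ => by
        rw [← mul_pow]; exact pow_le_pow_left₀ (norm_nonneg _) ((R.ρ a).le_opNorm _) 2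
    _ ≤ _ := by rw [← Finset.mul_sum, ← h1, mul_pow]; gcongr

lemma norm_av (hu : ∀ i < k, ∀ j < k, star (u i) * u j = if i = j then 1 else 0) (hk : 0 < k)
    (x : A) : ‖R.ρ (av k u x)‖ ≤ ‖R.ρ x‖ := by
  have h1 : ∀ i ∈ Finset.range k, ‖R.ρ (star (u i) * x * u i)‖ ≤ ‖R.ρ x‖ := fun i hi => by
    have h2 : ‖R.ρ (u i)‖ ≤ 1 := ContinuousLinearMap.opNorm_le_bound _ zero_le_one fun θ => by
      rw [R.norm_isom (by
        rw [hu i (Finset.mem_range.mp hi) i (Finset.mem_range.mp hi), if_pos rfl]), one_mul]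
    rw [map_mul, map_mul, map_star]
    calc _ ≤ ‖star (R.ρ (u i))‖ * ‖R.ρ x‖ * ‖R.ρ (u i)‖ := norm_mul₃_le
      _ ≤ 1 * ‖R.ρ x‖ * 1 := by rw [norm_star]; gcongr
      _ = _ := by ring
  rw [av, map_smul, map_sum, norm_smul, norm_inv, Complex.norm_natCast,
    inv_mul_le_iff₀ (by exact_mod_cast hk)]
  refine (norm_sum_le _ _).trans ((Finset.sum_le_sum h1).trans ?_)
  simp

lemma inner_av (x : A) (θ : K) : ∃ r : ℝ, 0 ≤ r ∧ ⟪θ, R.ρ (av k u (star x * x)) θ⟫_ℂ = r := by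
  refine ⟨(k : ℝ)⁻¹ * ∑ i ∈ Finset.range k, ‖R.ρ (x * u i) θ‖ ^ 2, by positivity, ?_⟩
  change R.vs θ _ = _
  rw [av, vs_smul, vs_sum, Finset.sum_congr rfl fun i _ => by
    rw [← mul_assoc, ← star_mul, mul_assoc, vs_star_self]]
  push_cast; rfl

variable {R} {ξ η : K} {c : ℝ}

lemma vs_dg (hu : ∀ i < k, ∀ j < k, star (u i) * u j = if i = j then 1 else 0) (hc : c ≠ 0)
    (he : ∀ i < k, R.Eig ξ η c (u i)) (a : A) :
    R.vs η (dg k u a) = ((k / c : ℝ) : ℂ) * R.vs ξ a := by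
  have : (c : ℂ) * R.vs η (dg k u a) = k * R.vs ξ a := by
    rw [dg, vs_sum, Finset.mul_sum, Finset.sum_congr rfl fun i hi => by
      rw [mul_assoc, ← he i (Finset.mem_range.mp hi), mul_assoc,
        hu i (Finset.mem_range.mp hi) i (Finset.mem_range.mp hi), if_pos rfl, mul_one]]
    simp
  have hc' : (c : ℂ) ≠ 0 := Complex.ofReal_ne_zero.mpr hc
  push_cast
  field_simp
  linear_combination this

lemma vs_av (hk : 0 < k) (hc : c ≠ 0) (he : ∀ i < k, R.Eig ξ η c (u i)) (x : A) :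
    R.vs η (dg k u 1 * x) = ((k / c : ℝ) : ℂ) * R.vs ξ (av k u x) := by
  rw [av, vs_smul, vs_sum, dg, Finset.sum_mul, vs_sum,
    Finset.sum_congr rfl fun i hi => he i (Finset.mem_range.mp hi) (star (u i) * x),
    ← Finset.mul_sum]
  have hc' : (c : ℂ) ≠ 0 := Complex.ofReal_ne_zero.mpr hc
  have hk' : (k : ℂ) ≠ 0 := by exact_mod_cast hk.ne'
  simp only [mul_one, mul_assoc]
  push_cast
  field_simp

lemma eig_dg (hc : c ≠ 0) (he : ∀ i < k, R.Eig ξ η c (u i)) {d : ℝ} {b : A}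
    (hb : R.Eig ξ ξ d b) : R.Eig η η d (dg k u b) :=
  Eig.sum _ fun i hi => (((he i (Finset.mem_range.mp hi)).mul hb).mul
    ((he i (Finset.mem_range.mp hi)).adj hc)).congr (by field_simp)

lemma norm_dg_vec (hu : ∀ i < k, ∀ j < k, star (u i) * u j = if i = j then 1 else 0) (hc : 0 < c)
    (hk : (k : ℝ) < c) (he : ∀ i < k, R.Eig ξ η c (u i)) (a : A) :
    ‖R.ρ (dg k u a) η‖ ≤ ‖R.ρ a ξ‖ := by
  have := vs_dg hu hc.ne' he (star a * a)
  rw [dg_mul hu, dg_star, vs_star_self, vs_star_self] at this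
  have h2 : ‖R.ρ (dg k u a) η‖ ^ 2 = k / c * ‖R.ρ a ξ‖ ^ 2 := by exact_mod_cast this
  refine (pow_le_pow_iff_left₀ (norm_nonneg _) (by positivity) two_ne_zero).mp ?_
  rw [h2]
  exact mul_le_of_le_one_left (by positivity) ((div_le_one hc).mpr hk.le)

end Rep

end Fin

namespace Rep

variable {R : Rep A K} {ξ η : K} {lam : ℝ}

lemma Gr.approx (h : R.Gr ξ lam) (S : Submodule ℂ A)
    (hS : ∀ (k : ℤ) w, R.Eig ξ ξ (lam ^ k) w → w ∈ S) (a : A) {ε : ℝ} (hε : 0 < ε) :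
    ∃ b ∈ S, ‖R.ρ (a - b) ξ‖ < ε := by
  let L := R.orb ξ ∘ₗ S.subtype
  have e1 : R.e ξ (R.ρ a ξ) = R.e ξ (pr L (R.ρ a ξ)) := h.e_eq fun k w hw => by
    have : pr L (R.ρ w ξ) = R.ρ w ξ := pr_apply L ⟨w, hS k w hw⟩
    rw [← inner_pr, this]
  have e2 : R.e ξ (pr L (R.ρ a ξ)) = pr L (R.ρ a ξ) :=
    eq_comp_pr L (S := R.e ξ) (T := 1) (fun x => by simp [L]) _
  rw [e2, e_orb] at e1
  have e3 := pr_mem L (R.ρ a ξ)
  rw [← e1, Metric.mem_closure_iff] at e3
  obtain ⟨_, ⟨b, rfl⟩, hb⟩ := e3 ε hε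
  exact ⟨b, b.2, by rw [map_sub, sub_apply, ← dist_eq_norm]; exact hb⟩

lemma null_iff (U : Ultrafilter ℕ) (x : ℕ → A) : Null R.ρ (R.vs η) U x ↔
    (∃ C : ℝ, ∀ n, ‖R.ρ (x n)‖ ≤ C) ∧ Tendsto (fun n => ‖R.ρ (x n) η‖) U (𝓝 0) ∧
      Tendsto (fun n => ‖R.ρ (star (x n)) η‖) U (𝓝 0) := by
  have e : ∀ n, R.vs η (star (x n) * x n + x n * star (x n)) =
      ((‖R.ρ (x n) η‖ ^ 2 + ‖R.ρ (star (x n)) η‖ ^ 2 : ℝ) : ℂ) := fun n => by
    have h2 := R.vs_star_self η (star (x n))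
    rw [star_star] at h2
    rw [vs_add, vs_star_self, h2, Complex.ofReal_add]
  refine and_congr_right fun _ => ?_
  simp only [e]
  rw [← Complex.ofReal_zero, Filter.tendsto_ofReal_iff]
  constructor
  · intro h
    have h' := h.sqrt
    rw [Real.sqrt_zero] at h'
    exact ⟨squeeze_zero (fun _ => norm_nonneg _)
        (fun n => Real.le_sqrt_of_sq_le (by nlinarith [sq_nonneg ‖R.ρ (star (x n)) η‖])) h',
      squeeze_zero (fun _ => norm_nonneg _)
        (fun n => Real.le_sqrt_of_sq_le (by nlinarith [sq_nonneg ‖R.ρ (x n) η‖])) h'⟩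
  · rintro ⟨h1, h2⟩
    simpa using (h1.pow 2).add (h2.pow 2)

theorem ultra (h : R.Gr ξ lam) (h' : R.Gr η lam) (h0 : 0 < lam) (h1 : lam < 1) (hF : Fac A)
    (hξ : R.vs ξ 1 = 1) (hη : R.vs η 1 = 1) (U : Ultrafilter ℕ) (hU : (U : Filter ℕ) ≤ cofinite) :
    ∃ π E, IsUltraHom R.ρ (R.vs ξ) (R.vs η) U π ∧ IsExpectation R.ρ (R.vs ξ) (R.vs η) U π E := by
  classical
  obtain ⟨c, k, u, hk, hkc, hlim, he, hu⟩ := exists_seq h h' h0 h1 hF hξ hη
  have hc : ∀ n, 0 < c n := fun n => lt_of_le_of_lt (Nat.cast_nonneg _) (hkc n)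
  rw [Nat.cofinite_eq_atTop] at hU
  have hl : Tendsto (fun n => ((k n / c n : ℝ) : ℂ)) U (𝓝 1) := by
    rw [← Complex.ofReal_one, Filter.tendsto_ofReal_iff]; exact hlim.mono_left hU
  set π : A → ℕ → A := fun a n => dg (k n) (u n) a with hπ
  have hlft : ∀ (a : A) (y : ℕ → A), Tendsto (fun n => ‖R.ρ (y n) η‖) U (𝓝 0) →
      Tendsto (fun n => ‖R.ρ (π a n * y n) η‖) U (𝓝 0) := fun a y hy => by
    have := hy.const_mul ‖R.ρ a‖
    rw [mul_zero] at this
    refine squeeze_zero (fun _ => norm_nonneg _) (fun n => ?_) this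
    rw [ρ_mul_apply]
    exact (R.ρ _).le_of_opNorm_le (R.norm_dg (hu n) a) _
  have hrt : ∀ (a : A) (y : ℕ → A) (C : ℝ), (∀ n, ‖R.ρ (y n)‖ ≤ C) →
      Tendsto (fun n => ‖R.ρ (y n) η‖) U (𝓝 0) →
      Tendsto (fun n => ‖R.ρ (y n * π a n) η‖) U (𝓝 0) := fun a y C hC hy => by
    let S : Submodule ℂ A :=
      { carrier := {a | Tendsto (fun n => R.ρ (y n * π a n) η) U (𝓝 0)}
        add_mem' := fun {a b} ha hb => by
          simpa [hπ, dg_add, mul_add] using Tendsto.add ha hb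
        zero_mem' := by simp [hπ, dg]
        smul_mem' := fun r a ha => by
          simpa [hπ, dg_smul] using Tendsto.const_smul ha r }
    have hS : ∀ (j : ℤ) w, R.Eig ξ ξ (lam ^ j) w → w ∈ S := fun j w hw => by
      have := hy.const_mul (Real.sqrt (lam ^ j) * ‖R.ρ w‖)
      rw [mul_zero] at this
      refine squeeze_zero_norm (fun n => ?_) this
      refine ((eig_dg (hc n).ne' (he n) hw).right_bound (zpow_pos h0 j) (y n)).trans ?_
      gcongr
      exact R.norm_dg (hu n) w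
    have hC0 : 0 ≤ C := (norm_nonneg _).trans (hC 0)
    rw [Metric.tendsto_nhds]
    intro ε hε
    obtain ⟨b, hb, hb'⟩ := h.approx S hS a (ε := ε / 2 / (C + 1)) (by positivity)
    filter_upwards [Metric.tendsto_nhds.mp hb (ε / 2) (by positivity)] with n hn
    rw [dist_zero_right] at hn ⊢
    have e1 : R.ρ (y n * π a n) η = R.ρ (y n * π b n) η + R.ρ (y n) (R.ρ (π (a - b) n) η) := by
      simp [hπ, dg_sub, mul_apply_eq_comp]
    have e2 := (R.ρ (y n)).le_of_opNorm_le (hC n) (R.ρ (π (a - b) n) η)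
    have e3 := norm_dg_vec (hu n) (hc n) (hkc n) (he n) (a - b)
    rw [lt_div_iff₀ (by positivity)] at hb'
    rw [norm_norm, e1]
    refine (norm_add_le _ _).trans_lt ?_
    have e4 : C * ‖R.ρ (π (a - b) n) η‖ ≤ C * ‖R.ρ (a - b) ξ‖ := by gcongr
    nlinarith [norm_nonneg (R.ρ (a - b) ξ)]
  have hbd : ∀ (x y : ℕ → A) (C D : ℝ), (∀ n, ‖R.ρ (x n)‖ ≤ C) → (∀ n, ‖R.ρ (y n)‖ ≤ D) →
      ∀ n, ‖R.ρ ((x * y) n)‖ ≤ C * D := fun x y C D hx hy n => by
    rw [Pi.mul_apply, map_mul]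
    exact (norm_mul_le _ _).trans
      (mul_le_mul (hx n) (hy n) (norm_nonneg _) ((norm_nonneg _).trans (hx n)))
  have hn0 : Null R.ρ (R.vs η) U 0 := (null_iff U _).mpr ⟨⟨0, by simp⟩, by simp, by simp⟩
  have hP : Tendsto (fun n => ‖R.ρ (π 1 n - 1) η‖) U (𝓝 0) := by
    have e : ∀ n, ‖R.ρ (π 1 n - 1) η‖ = Real.sqrt (1 - k n / c n) := fun n => by
      have e1 := R.vs_star_self η (1 - π 1 n)
      rw [(dg_proj (hu n)).one_sub.isSelfAdjoint.star_eq, (dg_proj (hu n)).one_sub.isIdempotentElem,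
        vs_sub, hη, vs_dg (hu n) (hc n).ne' (he n), hξ] at e1
      have e2 : 1 - k n / c n = ‖R.ρ (1 - π 1 n) η‖ ^ 2 := by
        apply Complex.ofReal_injective
        rw [← e1]; push_cast; ring
      rw [e2, Real.sqrt_sq (norm_nonneg _), ← neg_sub, map_neg, neg_apply, norm_neg]
    simp only [e]
    simpa using ((hlim.mono_left hU).const_sub 1).sqrt
  let Lim : (ℕ → A) → A → Prop := fun x y => ∀ a b,
    Tendsto (fun n => ⟪a, R.ρ (av (k n) (u n) (x n)) b⟫_ℂ) U (𝓝 ⟪a, R.ρ y b⟫_ℂ)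
  let E : (ℕ → A) → A := fun x => if h : ∃ y, Lim x y then h.choose else 0
  have hE : ∀ x y, Lim x y → E x = y := fun x y hy => by
    have hx : ∃ y, Lim x y := ⟨y, hy⟩
    simp only [E, dif_pos hx]
    refine R.form_inj (funext fun a => funext fun b => ?_)
    exact tendsto_nhds_unique (hx.choose_spec a b) (hy a b)
  have hE' : ∀ (x : ℕ → A) (C : ℝ), (∀ n, ‖R.ρ (x n)‖ ≤ C) → Lim x (E x) := fun x C hC => by
    obtain ⟨B, hB, hB'⟩ := (R.isForm_compact C).ultrafilter_le_nhds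
      (U.map fun n => R.form (av (k n) (u n) (x n))) (by
        rw [Ultrafilter.coe_map, le_principal_iff, mem_map]
        exact univ_mem' fun n => R.isForm_form ((R.norm_av (hu n) (hk n) _).trans (hC n)))
    obtain ⟨y, rfl, -⟩ := IsForm.exists ((norm_nonneg _).trans (hC 0)) hB
    have : Lim x y := fun a b => tendsto_pi_nhds.mp (tendsto_pi_nhds.mp hB' a) b
    rwa [hE x y this]
  have hψ : ∀ (x : ℕ → A) (C : ℝ), (∀ n, ‖R.ρ (x n)‖ ≤ C) →
      Tendsto (fun n => R.vs η (x n)) U (𝓝 (R.vs ξ (E x))) := fun x C hC => by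
    have e1 := hl.mul (hE' x C hC ξ ξ)
    have e2 : Tendsto (fun n => R.vs η ((π 1 n - 1) * x n)) U (𝓝 0) := by
      have := hP.mul_const (C * ‖η‖)
      rw [zero_mul] at this
      refine squeeze_zero_norm (fun n => ?_) this
      rw [vs_mul, star_sub, star_one, (dg_proj (hu n)).isSelfAdjoint.star_eq]
      refine (norm_inner_le_norm _ _).trans ?_
      gcongr
      exact (R.ρ _).le_of_opNorm_le (hC n) _
    have := e1.sub e2
    rw [one_mul, sub_zero] at this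
    refine this.congr fun n => ?_
    rw [sub_mul, one_mul, vs_sub, vs_av (hk n) (hc n).ne' (he n)]
    simp [vs]
  have hbi : ∀ a b (x : ℕ → A) (C : ℝ), (∀ n, ‖R.ρ (x n)‖ ≤ C) →
      E (π a * x * π b) = a * E x * b := fun a b x C hC => hE _ _ fun v w => by
    simp only [Pi.mul_apply, hπ, av_mul (hu _), ρ_mul_apply, ← inner_star_left (R.ρ a)]
    exact hE' x C hC _ _
  refine ⟨π, E, ⟨fun a => ⟨⟨_, fun n => R.norm_dg (hu n) a⟩, fun y hy => ?_⟩, ?_, fun a b => ?_,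
    fun r a => ?_, fun a b => ?_, fun a => ?_, fun a => ?_⟩, fun x hx => ?_, ?_,
    fun x y hx hy => ?_, fun r x hx => ?_, fun a b x hx => ?_, fun x hx => ?_, fun x hx => ?_⟩
  · obtain ⟨⟨C, hC⟩, y1, y2⟩ := (null_iff U y).mp hy
    refine ⟨(null_iff U _).mpr ⟨⟨_, hbd _ _ _ _ (fun n => R.norm_dg (hu n) a) hC⟩, hlft a y y1, ?_⟩,
      (null_iff U _).mpr ⟨⟨_, hbd _ _ _ _ hC fun n => R.norm_dg (hu n) a⟩, hrt a y C hC y1, ?_⟩⟩
    · simpa only [Pi.mul_apply, star_mul, hπ, dg_star] using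
        hrt (star a) (fun n => star (y n)) C (fun n => by rw [map_star, norm_star]; exact hC n) y2
    · simpa only [Pi.mul_apply, star_mul, hπ, dg_star] using hlft (star a) (fun n => star (y n)) y2
  · refine (null_iff U _).mpr ⟨⟨‖R.ρ 1‖ + ‖R.ρ 1‖, fun n => ?_⟩, hP, ?_⟩
    · rw [Pi.sub_apply, map_sub]
      exact (norm_sub_le _ _).trans (add_le_add (R.norm_dg (hu n) 1) le_rfl)
    · simpa only [Pi.sub_apply, Pi.one_apply, star_sub, star_one, hπ, ← dg_star] using hP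
  · convert hn0 using 1; funext n; simp [hπ, dg_add]
  · convert hn0 using 1; funext n; simp [hπ, dg_smul]
  · convert hn0 using 1; funext n; simp [hπ, dg_mul (hu n)]
  · convert hn0 using 1; funext n; simp [hπ, dg_star]
  · simpa only [hπ, vs_dg (hu _) (hc _).ne' (he _), one_mul] using hl.mul_const (R.vs ξ a)
  · obtain ⟨⟨C, hC⟩, x1, -⟩ := (null_iff U x).mp hx
    refine h.sep.eq_of_vs fun y => ?_
    have e1 := hψ _ _ (hbd _ _ _ _ (hbd _ _ _ _ (fun n => R.norm_dg (hu n) y) hC)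
      fun n => R.norm_dg (hu n) 1)
    rw [hbi y 1 x C hC, mul_one] at e1
    rw [mul_zero, vs_zero]
    refine tendsto_nhds_unique e1 ?_
    have e2 := (hrt 1 _ _ (hbd _ _ _ _ (fun n => R.norm_dg (hu n) y) hC) (hlft y x x1)).const_mul ‖η‖
    rw [mul_zero] at e2
    exact squeeze_zero_norm (fun n => norm_inner_le_norm _ _) e2
  · exact hE _ _ fun a b => by simp only [Pi.one_apply, av_one (hu _) (hk _), tendsto_const_nhds]
  · obtain ⟨⟨C, hC⟩, -⟩ := hx
    obtain ⟨⟨D, hD⟩, -⟩ := hy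
    exact hE _ _ fun a b => by
      simpa only [Pi.add_apply, av_add, map_add, add_apply, inner_add_right] using
        (hE' x C hC a b).add (hE' y D hD a b)
  · obtain ⟨⟨C, hC⟩, -⟩ := hx
    exact hE _ _ fun a b => by
      simpa only [Pi.smul_apply, av_smul, map_smul, smul_apply, inner_smul_right] using
        (hE' x C hC a b).const_mul r
  · obtain ⟨⟨C, hC⟩, -⟩ := hx
    exact hbi a b x C hC
  · obtain ⟨⟨C, hC⟩, -⟩ := hx
    have e1 := hE' _ _ (hbd (star x) x C C (fun n => by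
      rw [Pi.star_apply, map_star, norm_star]; exact hC n) hC)
    rw [ContinuousLinearMap.isPositive_iff_complex]
    intro θ
    choose r hr1 hr2 using fun n => R.inner_av (k := k n) (u := u n) (x n) θ
    have e2 := e1 θ θ
    simp only [Pi.mul_apply, Pi.star_apply, hr2] at e2
    have e3 := (Complex.continuous_re.tendsto _).comp e2
    have e4 := (Complex.continuous_im.tendsto _).comp e2
    simp only [Function.comp_def, Complex.ofReal_re, Complex.ofReal_im] at e3 e4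
    have e5 := ge_of_tendsto' e3 hr1
    have e6 := tendsto_nhds_unique e4 tendsto_const_nhds
    rw [← inner_conj_symm]
    generalize ⟪θ, R.ρ (E (star x * x)) θ⟫_ℂ = z at e5 e6
    exact ⟨Complex.ext (by simp) (by simp [e6]), by simpa using e5⟩
  · obtain ⟨⟨C, hC⟩, -⟩ := hx
    exact hψ x C hC

end Rep

end Pool.Agent.P.MP_aee195_lc
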