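import Pool.Agent.P.MP_aee195_lc.Ultra
import Pool.Agent.P.MP_aee195_lc.Amp
import Pool.Agent.P.MP_aee195_lc.Defs2

set_option autoImplicit false

namespace Pool.Agent.P.MP_aee195_lc

open Filter Topology MeasureTheory
open scoped InnerProductSpace

variable {A : Type*} [Ring A] [StarRing A] [Algebra ℂ A]
  {H : Type*} [NormedAddCommGroup H] [InnerProductSpace ℂ H] [CompleteSpace H]
  {K : Type*} [NormedAddCommGroup K] [InnerProductSpace ℂ K] [CompleteSpace K]

namespace Rep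

lemma integrable_smear (R : Rep A H) {σ : ℝ → (A ≃⋆ₐ[ℂ] A)} {x : A}
    (hw : ∀ a b, Continuous fun t => ⟪a, R.ρ (σ t x) b⟫_ℂ) {f : ℝ → ℂ} (hf : Integrable f)
    (a b : H) : Integrable fun t => f t * ⟪a, R.ρ (σ t x) b⟫_ℂ :=
  hf.mul_bdd (c := ‖R.ρ x‖ * ‖a‖ * ‖b‖) (hw a b).aestronglyMeasurable
    (Eventually.of_forall fun t =>
      (R.isForm_form (R.norm_hom_le (R.ρ.comp (σ t : A →⋆ₐ[ℂ] A)) x)).2.2.2.2.1 a b)

lemma smear_spec (R : Rep A H) {σ : ℝ → (A ≃⋆ₐ[ℂ] A)} {x : A}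
    (hw : ∀ a b, Continuous fun t => ⟪a, R.ρ (σ t x) b⟫_ℂ) {f : ℝ → ℂ} (hf : Integrable f)
    (a b : H) : ⟪a, R.ρ (smearOp R.ρ σ f x) b⟫_ℂ = ∫ t, f t * ⟪a, R.ρ (σ t x) b⟫_ℂ := by
  have hi := R.integrable_smear hw hf
  have : R.IsForm ((∫ t, ‖f t‖) * ‖R.ρ x‖) fun a b => ∫ t, f t * ⟪a, R.ρ (σ t x) b⟫_ℂ := by
    refine ⟨fun a b d => ?_, fun a r b => ?_, fun a b d => ?_, fun a r b => ?_, fun a b => ?_,
      fun y hy a b => ?_⟩
    · simp only [map_add, inner_add_right, mul_add]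
      exact integral_add (hi a b) (hi a d)
    · simp only [map_smul, inner_smul_right]
      rw [← integral_const_mul]
      congr 1; funext t; ring
    · simp only [inner_add_left, mul_add]
      exact integral_add (hi a d) (hi b d)
    · simp only [inner_smul_left]
      rw [← integral_const_mul]
      congr 1; funext t; ring
    · rw [mul_assoc, mul_assoc, ← integral_mul_const]
      refine norm_integral_le_of_norm_le (hf.norm.mul_const _) (Eventually.of_forall fun t => ?_)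
      rw [norm_mul, ← mul_assoc ‖R.ρ x‖]
      exact mul_le_mul_of_nonneg_left
        ((R.isForm_form (R.norm_hom_le (R.ρ.comp (σ t : A →⋆ₐ[ℂ] A)) x)).2.2.2.2.1 a b)
        (norm_nonneg _)
    · simp only [inner_star_left, R.C_apply hy]
  obtain ⟨y, hy, -⟩ := this.exists (mul_nonneg (integral_nonneg fun _ => norm_nonneg _)
    (norm_nonneg _))
  exact Classical.epsilon_spec (p := fun y => ∀ ζ η : H,
    ⟪η, R.ρ y ζ⟫_ℂ = ∫ t, f t * ⟪η, R.ρ (σ t x) ζ⟫_ℂ)
    ⟨y, fun a b => congrFun (congrFun hy b) a⟩ b a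

variable {R : Rep A K} {ξ η : K} {lam c : ℝ} {k : ℕ} {u : ℕ → A} {σ τ : ℝ → (A ≃⋆ₐ[ℂ] A)}

lemma norm_sigma (hσ : IsModularGroup R.ρ (R.vs ξ) σ) (t : ℝ) (a : A) :
    ‖R.ρ (σ t a) ξ‖ = ‖R.ρ a ξ‖ := by
  have := hσ.2.2.1 t (star a * a)
  rw [map_mul, map_star, vs_star_self, vs_star_self] at this
  exact (pow_left_inj₀ (norm_nonneg _) (norm_nonneg _) two_ne_zero).mp (by exact_mod_cast this)

lemma dg_sigma (h : R.Gr ξ lam) (hs : R.Sep η) (hσ : IsModularGroup R.ρ (R.vs ξ) σ)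
    (hτ : IsModularGroup R.ρ (R.vs η) τ) {g : ℤ → ℝ → ℂ}
    (h1 : ∀ (j : ℤ) w, R.Eig ξ ξ (lam ^ j) w → ∀ t : ℝ, σ t w = g j t • w)
    (h2 : ∀ (j : ℤ) w, R.Eig η η (lam ^ j) w → ∀ t : ℝ, τ t w = g j t • w)
    (hu : ∀ i < k, ∀ j < k, star (u i) * u j = if i = j then 1 else 0) (hc : 0 < c)
    (hk : (k : ℝ) < c) (he : ∀ i < k, R.Eig ξ η c (u i)) (t : ℝ) (a : A) :
    τ t (dg k u a) = dg k u (σ t a) := by
  let S : Submodule ℂ A :=
    { carrier := {a | τ t (dg k u a) = dg k u (σ t a)}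
      add_mem' := fun {a b} ha hb => by
        simp only [Set.mem_ofPred_eq, dg_add, map_add] at ha hb ⊢; rw [ha, hb]
      zero_mem' := by simp [dg]
      smul_mem' := fun r a ha => by
        simp only [Set.mem_ofPred_eq, dg_smul, map_smul] at ha ⊢; rw [ha] }
  have hS : ∀ (j : ℤ) w, R.Eig ξ ξ (lam ^ j) w → w ∈ S := fun j w hw => by
    change τ t (dg k u w) = dg k u (σ t w)
    rw [h1 j w hw, h2 j _ (eig_dg hc.ne' he hw), dg_smul]
  refine hs.eq (sub_eq_zero.mp (norm_le_zero_iff.mp (le_of_forall_pos_le_add fun ε hε => ?_)))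
  obtain ⟨b, hb, hb'⟩ := h.approx S hS a (ε := ε / 2) (by positivity)
  have hb2 : τ t (dg k u b) = dg k u (σ t b) := hb
  have e1 : R.ρ (τ t (dg k u a)) η - R.ρ (dg k u (σ t a)) η =
      R.ρ (τ t (dg k u (a - b))) η - R.ρ (dg k u (σ t (a - b))) η := by
    simp only [dg_sub, map_sub, sub_apply, hb2]; abel
  have e2 := norm_dg_vec hu hc hk he (a - b)
  have e3 := norm_dg_vec hu hc hk he (σ t (a - b))
  rw [norm_sigma hσ] at e3
  rw [← norm_sigma hτ t] at e2
  rw [e1]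
  refine (norm_sub_le _ _).trans ?_
  linarith

lemma right_dg (hu : ∀ i < k, ∀ j < k, star (u i) * u j = if i = j then 1 else 0) (hc : 0 < c)
    (he : ∀ i < k, R.Eig ξ η c (u i)) {a : A} {r : ℝ}
    (ha : ∀ b, (R.vs ξ (star (b * a) * (b * a))).re ≤ r ^ 2 * (R.vs ξ (star b * b)).re) (b : A) :
    (R.vs η (star (b * dg k u a) * (b * dg k u a))).re ≤ r ^ 2 * (R.vs η (star b * b)).re := by
  have key : ∀ a : A, (c : ℂ) * R.vs η (star (b * dg k u a) * (b * dg k u a)) =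
      ∑ i ∈ Finset.range k, R.vs ξ (star (b * u i * a) * (b * u i * a)) := fun a => by
    rw [star_mul, ← dg_star]
    conv_lhs => rw [dg]
    rw [Finset.sum_mul, Finset.sum_mul, vs_sum, Finset.mul_sum]
    refine Finset.sum_congr rfl fun i hi => ?_
    have hi' := Finset.mem_range.mp hi
    have := he i hi' (star a * star (u i) * star b * (b * dg k u a))
    simp only [mul_assoc] at this ⊢
    rw [← this, dg_mul_u hu hi', star_mul, star_mul]
    simp only [mul_assoc]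
  have e1 := congrArg Complex.re (key a)
  have e2 := congrArg Complex.re (key 1)
  simp only [Complex.re_ofReal_mul, Complex.re_sum, mul_one] at e1 e2
  have e3 : (R.vs η (star (b * dg k u 1) * (b * dg k u 1))).re ≤ (R.vs η (star b * b)).re := by
    have := (eig_dg hc.ne' he (Eig.one ξ)).right_bound one_pos b
    have h3 := IsStarProjection.norm_le _ ((dg_proj hu).map R.ρ)
    rw [vs_star_self, vs_star_self, Complex.ofReal_re, Complex.ofReal_re]
    refine pow_le_pow_left₀ (norm_nonneg _) (this.trans ?_) 2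
    rw [Real.sqrt_one, one_mul]
    exact mul_le_of_le_one_left (norm_nonneg _) h3
  have e4 : c * (R.vs η (star (b * dg k u a) * (b * dg k u a))).re ≤
      r ^ 2 * (c * (R.vs η (star (b * dg k u 1) * (b * dg k u 1))).re) := by
    rw [e1, e2, Finset.mul_sum]
    exact Finset.sum_le_sum fun i _ => ha _
  have e5 := mul_le_mul_of_nonneg_left e3 (mul_nonneg (sq_nonneg r) hc.le)
  exact le_of_mul_le_mul_left (by nlinarith) hc

lemma starNorm_eq (a : A) : starNorm (R.vs ξ) a =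
    ⨅ y : A, Real.sqrt (‖R.ρ y ξ‖ ^ 2 + ‖R.ρ (star (a - y)) ξ‖ ^ 2) := by
  unfold starNorm
  congr 1; funext y
  have h2 := R.vs_star_self ξ (star (a - y))
  rw [star_star] at h2
  rw [vs_star_self, h2, Complex.ofReal_re, Complex.ofReal_re]

lemma norm_av_vec (hu : ∀ i < k, ∀ j < k, star (u i) * u j = if i = j then 1 else 0)
    (hk0 : 0 < k) (hc : 0 < c) (hk : (k : ℝ) < c) (he : ∀ i < k, R.Eig ξ η c (u i)) (y : A) :
    k / c * ‖R.ρ (av k u y) ξ‖ ≤ ‖R.ρ y η‖ := by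
  set b := av k u y with hb
  have e1 := vs_av hk0 hc.ne' he (dg k u (star b) * y * dg k u 1)
  rw [av_mul hu, mul_one, ← hb, vs_star_self, ← mul_assoc, eig_dg hc.ne' he (Eig.one ξ),
    ← mul_assoc, ← mul_assoc, ← dg_mul hu, ← dg_mul hu, one_mul, one_mul, Complex.ofReal_one,
    one_mul, dg_star, vs_star_mul] at e1
  have e2 := norm_inner_le_norm (𝕜 := ℂ) (R.ρ (dg k u b) η) (R.ρ y η)
  rw [e1, ← Complex.ofReal_mul, Complex.norm_real, Real.norm_of_nonneg (by positivity)] at e2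
  have e3 := norm_dg_vec hu hc hk he b
  rcases eq_or_lt_of_le (norm_nonneg (R.ρ b ξ)) with h0 | h0
  · rw [← h0, mul_zero]; exact norm_nonneg _
  · refine le_of_mul_le_mul_left ?_ h0
    nlinarith [norm_nonneg (R.ρ y η)]

lemma starNorm_dg (hu : ∀ i < k, ∀ j < k, star (u i) * u j = if i = j then 1 else 0)
    (hk0 : 0 < k) (hc : 0 < c) (hk : (k : ℝ) < c) (he : ∀ i < k, R.Eig ξ η c (u i))
    (hξ : R.vs ξ 1 = 1) (hη : R.vs η 1 = 1) (a : A) (z : ℂ) :
    k / c * starNorm (R.vs ξ) a ≤ starNorm (R.vs η) (dg k u a + z • (1 - dg k u 1)) ∧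
    starNorm (R.vs η) (dg k u a + z • (1 - dg k u 1)) ≤
      starNorm (R.vs ξ) a + ‖z‖ * Real.sqrt (1 - k / c) := by
  have hb : ∀ (θ : K) (a : A), BddBelow (Set.range fun y : A =>
      Real.sqrt (‖R.ρ y θ‖ ^ 2 + ‖R.ρ (star (a - y)) θ‖ ^ 2)) := fun θ a =>
    ⟨0, by rintro _ ⟨y, rfl⟩; exact Real.sqrt_nonneg _⟩
  have hq : 0 < (k : ℝ) / c := div_pos (by exact_mod_cast hk0) hc
  have hst : ∀ (r : ℂ) (x : A), star (r • x) = (starRingEnd ℂ) r • star x := fun r x =>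
    R.inj (by simp only [map_star, map_smul, star_smul, Complex.star_def])
  have : Nonempty A := ⟨0⟩
  rw [starNorm_eq, starNorm_eq]
  constructor
  · refine le_ciInf fun y => ?_
    rw [← le_div_iff₀' hq]
    refine (ciInf_le (hb ξ a) (av k u y)).trans ?_
    rw [le_div_iff₀' hq]
    have e0 : ∀ x, av k u (dg k u x) = x := fun x => by
      have := av_mul hu x 1 1
      rwa [mul_one, ← dg_mul hu, mul_one, av_one hu hk0, mul_one, mul_one] at this
    have e1 : star (a - av k u y) = av k u (star (dg k u a + z • (1 - dg k u 1) - y)) := by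
      have e2 : ∀ x, av k u (star x) = star (av k u x) := fun x => by
        simp [av, hst, star_sum, mul_assoc]
      have e3 : ∀ x y, av k u (x - y) = av k u x - av k u y := fun x y => by
        rw [eq_sub_iff_add_eq, ← av_add, sub_add_cancel]
      rw [e2, e3, av_add, av_smul, e3, e0, e0, av_one hu hk0, sub_self, smul_zero, add_zero]
    have e4 := norm_av_vec hu hk0 hc hk he y
    have e5 := norm_av_vec hu hk0 hc hk he (star (dg k u a + z • (1 - dg k u 1) - y))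
    rw [← e1] at e5
    rw [← Real.sqrt_sq hq.le, ← Real.sqrt_mul (sq_nonneg _), mul_add, ← mul_pow, ← mul_pow]
    gcongr
  · rw [← sub_le_iff_le_add]
    refine le_ciInf fun y => ?_
    rw [sub_le_iff_le_add]
    refine (ciInf_le (hb η _) (dg k u y)).trans ?_
    have e1 : ‖R.ρ (1 - dg k u 1) η‖ = Real.sqrt (1 - k / c) := by
      have e1 := R.vs_star_self η (1 - dg k u 1)
      rw [(dg_proj hu).one_sub.isSelfAdjoint.star_eq, (dg_proj hu).one_sub.isIdempotentElem,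
        vs_sub, hη, vs_dg hu hc.ne' he, hξ] at e1
      have e2 : 1 - k / c = ‖R.ρ (1 - dg k u 1) η‖ ^ 2 := by
        apply Complex.ofReal_injective
        rw [← e1]; push_cast; ring
      rw [e2, Real.sqrt_sq (norm_nonneg _)]
    have e2 : star (dg k u a + z • (1 - dg k u 1) - dg k u y) =
        dg k u (star (a - y)) + (starRingEnd ℂ) z • (1 - dg k u 1) := by
      rw [dg_star, dg_sub, add_sub_right_comm, star_add, hst,
        (dg_proj hu).one_sub.isSelfAdjoint.star_eq]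
    have e3 : ‖R.ρ (star (dg k u a + z • (1 - dg k u 1) - dg k u y)) η‖ ≤
        ‖R.ρ (star (a - y)) ξ‖ + ‖z‖ * Real.sqrt (1 - k / c) := by
      rw [e2, map_add, add_apply, map_smul, smul_apply]
      refine (norm_add_le _ _).trans (add_le_add (norm_dg_vec hu hc hk he _) ?_)
      rw [norm_smul, e1, Complex.norm_conj]
    have e4 := norm_dg_vec hu hc hk he y
    have e5 : ‖R.ρ (star (a - y)) ξ‖ ≤
        Real.sqrt (‖R.ρ y ξ‖ ^ 2 + ‖R.ρ (star (a - y)) ξ‖ ^ 2) :=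
      Real.le_sqrt_of_sq_le (by nlinarith [sq_nonneg ‖R.ρ y ξ‖])
    have e6 := Real.sq_sqrt (show 0 ≤ ‖R.ρ y ξ‖ ^ 2 + ‖R.ρ (star (a - y)) ξ‖ ^ 2 by positivity)
    have e7 : 0 ≤ ‖z‖ * Real.sqrt (1 - k / c) := by positivity
    refine Real.sqrt_le_iff.mpr ⟨by positivity, ?_⟩
    have e8 := pow_le_pow_left₀ (norm_nonneg _) e3 2
    have e9 := pow_le_pow_left₀ (norm_nonneg _) e4 2
    nlinarith [mul_le_mul_of_nonneg_left e5 e7]

lemma eval_dg (R₀ : Rep A H) (hwσ : ∀ x a b, Continuous fun t => ⟪a, R₀.ρ (σ t x) b⟫_ℂ)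
    (hwτ : ∀ x a b, Continuous fun t => ⟪a, R₀.ρ (τ t x) b⟫_ℂ) {n : ℕ} (x : Fin n → A)
    (t : Term n) : ∃ z : ℂ, ∀ (k : ℕ) (u : ℕ → A),
      (∀ i < k, ∀ j < k, star (u i) * u j = if i = j then 1 else 0) →
      (∀ s a, τ s (dg k u a) = dg k u (σ s a)) →
      evalTerm R₀.ρ τ (fun i => dg k u (x i)) t =
        dg k u (evalTerm R₀.ρ σ x t) + z • (1 - dg k u 1) := by
  induction t with
  | var i => exact ⟨0, fun k u _ _ => by simp [evalTerm]⟩
  | one => exact ⟨1, fun k u _ _ => by simp [evalTerm]⟩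
  | add s t hs ht =>
    obtain ⟨z, hz⟩ := hs
    obtain ⟨w, hw⟩ := ht
    refine ⟨z + w, fun k u hu hd => ?_⟩
    change evalTerm _ _ _ s + evalTerm _ _ _ t = dg k u (evalTerm _ _ _ s + evalTerm _ _ _ t) + _
    rw [hz k u hu hd, hw k u hu hd, dg_add, add_smul]; abel
  | smul c t ht =>
    obtain ⟨z, hz⟩ := ht
    refine ⟨c * z, fun k u hu hd => ?_⟩
    change c • evalTerm _ _ _ t = dg k u (c • evalTerm _ _ _ t) + _
    rw [hz k u hu hd, dg_smul, smul_add, smul_smul]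
  | star t ht =>
    obtain ⟨z, hz⟩ := ht
    refine ⟨(starRingEnd ℂ) z, fun k u hu hd => ?_⟩
    change star (evalTerm _ _ _ t) = dg k u (star (evalTerm _ _ _ t)) + _
    rw [hz k u hu hd, dg_star, star_add]
    congr 1
    conv_rhs => rw [← (dg_proj hu).one_sub.isSelfAdjoint.star_eq]
    exact R₀.inj (by simp only [map_star, map_smul, star_smul, Complex.star_def])
  | mul s t hs ht =>
    obtain ⟨z, hz⟩ := hs
    obtain ⟨w, hw⟩ := ht
    refine ⟨z * w, fun k u hu hd => ?_⟩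
    change evalTerm _ _ _ s * evalTerm _ _ _ t = dg k u (evalTerm _ _ _ s * evalTerm _ _ _ t) + _
    have e1 : ∀ a, dg k u a * (1 - dg k u 1) = 0 := fun a => by
      rw [mul_sub, ← dg_mul hu, mul_one, mul_one, sub_self]
    have e2 : ∀ a, (1 - dg k u 1) * dg k u a = 0 := fun a => by
      rw [sub_mul, ← dg_mul hu, one_mul, one_mul, sub_self]
    rw [hz k u hu hd, hw k u hu hd, dg_mul hu, add_mul, mul_add, mul_add, mul_smul_comm,
      smul_mul_assoc, smul_mul_smul_comm, e1, e2, (dg_proj hu).one_sub.isIdempotentElem]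
    simp
  | mod r t ht =>
    obtain ⟨z, hz⟩ := ht
    refine ⟨z, fun k u hu hd => ?_⟩
    change τ r (evalTerm _ _ _ t) = dg k u (σ r (evalTerm _ _ _ t)) + _
    rw [hz k u hu hd, map_add, map_smul, map_sub, hd, hd, map_one, map_one]
  | smear f hf t ht =>
    obtain ⟨z, hz⟩ := ht
    refine ⟨(∫ s, f s) * z, fun k u hu hd => ?_⟩
    change smearOp _ _ f (evalTerm _ _ _ t) = dg k u (smearOp _ _ f (evalTerm _ _ _ t)) + _
    rw [hz k u hu hd]
    refine R₀.form_inj (funext fun a => funext fun b => ?_)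
    have e1 : ∀ y, ⟪a, R₀.ρ (dg k u y) b⟫_ℂ = ∑ i ∈ Finset.range k,
        ⟪R₀.ρ (star (u i)) a, R₀.ρ y (R₀.ρ (star (u i)) b)⟫_ℂ := fun y => by
      simp only [dg, map_sum, sum_apply, inner_sum, ρ_mul_apply, map_star, inner_star_left]
    simp only [form]
    rw [R₀.smear_spec (hwτ _) hf]
    simp only [map_add, map_smul, map_sub, hd, map_one, add_apply, smul_apply, inner_add_right,
      inner_smul_right, e1, mul_add, Finset.mul_sum, R₀.smear_spec (hwσ _) hf]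
    rw [integral_add (integrable_finsetSum _ fun i _ => R₀.integrable_smear (hwσ _) hf _ _)
      (hf.mul_const _), integral_finsetSum _ fun i _ => R₀.integrable_smear (hwσ _) hf _ _,
      integral_mul_const, mul_assoc]

theorem univ_le (R₀ : Rep A H) {lam : ℝ} (h0 : 0 < lam) (h1 : lam < 1)
    (hIII : IsFactorIII R₀.ρ lam) {φ ψ : A → ℂ} (hφ : IsFNState R₀.ρ φ) (hψ : IsFNState R₀.ρ ψ)
    (hσ : IsModularGroup R₀.ρ φ σ) (hτ : IsModularGroup R₀.ρ ψ τ)
    (hσ' : ∀ x, σ (2 * Real.pi / |Real.log lam|) x = x)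
    (hτ' : ∀ x, τ (2 * Real.pi / |Real.log lam|) x = x) {n m : ℕ} (flag : Fin n → Bool)
    (r : Fin n → ℝ) (t : Fin m → Term n) {F : (Fin m → ℂ × ℝ) → ℝ} (hF : Continuous F) :
    univVal R₀.ρ φ σ flag r t F ≤ univVal R₀.ρ ψ τ flag r t F := by
  obtain ⟨ξ, rfl, a2, a3⟩ := R₀.exists_vec hφ
  obtain ⟨η, rfl, b2, b3⟩ := R₀.exists_vec hψ
  obtain ⟨h, a4⟩ := gr_of_periodic' a2 h0 h1 (R₀.modular_ampl hσ) hσ' fun k =>
    R₀.connes_ampl σ (by rw [hIII.2 _ σ hφ hσ]; exact ⟨k, rfl⟩)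
  obtain ⟨h', b4⟩ := gr_of_periodic' b2 h0 h1 (R₀.modular_ampl hτ) hτ' fun k =>
    R₀.connes_ampl τ (by rw [hIII.2 _ τ hψ hτ]; exact ⟨k, rfl⟩)
  obtain ⟨c, k, u, hk, hkc, hlim, he, hu⟩ := exists_seq h h' h0 h1 hIII.1 a3 b3
  have hc : ∀ n, 0 < c n := fun n => lt_of_le_of_lt (Nat.cast_nonneg _) (hkc n)
  have hl : Tendsto (fun n => ((k n / c n : ℝ) : ℂ)) atTop (𝓝 1) := by
    rw [← Complex.ofReal_one, Filter.tendsto_ofReal_iff]; exact hlim
  have hd := fun n => dg_sigma h b2 (R₀.modular_ampl hσ) (R₀.modular_ampl hτ) a4 b4 (hu n) (hc n)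
    (hkc n) (he n)
  refine iSup₂_le fun x hx => ?_
  have e1 : Tendsto (fun N j =>
      (R₀.ampl.vs η (evalTerm R₀.ρ τ (fun i => dg (k N) (u N) (x i)) (t j)),
        starNorm (R₀.ampl.vs η) (evalTerm R₀.ρ τ (fun i => dg (k N) (u N) (x i)) (t j)))) atTop
      (𝓝 fun j => (R₀.ampl.vs ξ (evalTerm R₀.ρ σ x (t j)),
        starNorm (R₀.ampl.vs ξ) (evalTerm R₀.ρ σ x (t j)))) := tendsto_pi_nhds.mpr fun j => by
    obtain ⟨z, hz⟩ := eval_dg R₀ (fun x a b => hσ.2.1 x b a) (fun x a b => hτ.2.1 x b a) x (t j)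
    simp only [hz _ _ (hu _) (hd _)]
    refine Tendsto.prodMk_nhds ?_ ?_
    · simp only [vs_add, vs_smul, vs_sub, vs_dg (hu _) (hc _).ne' (he _), a3, b3, mul_one]
      simpa using (hl.mul_const _).add ((hl.const_sub 1).const_mul z)
    · have e2 := fun N => starNorm_dg (hu N) (hk N) (hc N) (hkc N) (he N) a3 b3
        (evalTerm R₀.ρ σ x (t j)) z
      refine tendsto_of_tendsto_of_tendsto_of_le_of_le ?_ ?_ (fun N => (e2 N).1) fun N => (e2 N).2
      · simpa using hlim.mul_const _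
      · simpa using (((hlim.const_sub 1).sqrt).const_mul ‖z‖).const_add _
  refine le_of_tendsto' ((continuous_coe_real_ereal.tendsto _).comp ((hF.tendsto _).comp e1))
    fun N => ?_
  refine le_iSup₂_of_le (fun i => dg (k N) (u N) (x i)) (fun i => ⟨?_, fun hf b => ?_⟩) le_rfl
  · exact (R₀.norm_dg (hu N) _).trans (hx i).1
  · rw [← dg_star]
    exact ⟨right_dg (hu N) (hc N) (he N) (fun b => ((hx i).2 hf b).1) b,
      right_dg (hu N) (hc N) (he N) (fun b => ((hx i).2 hf b).2) b⟩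

end Rep

end Pool.Agent.P.MP_aee195_lc
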